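import Pool.Agent.U343.Sm.Deg

set_option autoImplicit false

/-!
# The binary digits of `A + ∑ x_i 2 ^ (g (i + 1))`
-/

namespace Pool.Agent.U343.Sm

open Finset

variable {F : Type} [Field F] {k : ℕ}

/-- the first `n` binary digits of `N` -/
def bits (n N : ℕ) : Cube n := fun p => N.testBit p

/-- the number with digits `x_i` at the positions `g (i + 1)` -/
def enc (g : ℕ) {k : ℕ} (x : Cube k) : ℕ := ∑ i : Fin k, if x i = true then 2 ^ (g * ((i : ℕ) + 1)) else 0

theorem enc_succ (g : ℕ) (x : Cube (k + 1)) : enc g x = enc g (fun i : Fin k => x i.castSucc) +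
    if x (Fin.last k) = true then 2 ^ (g * (k + 1)) else 0 := by
  unfold enc
  rw [Fin.sum_univ_castSucc]
  rfl

theorem enc_lt {g : ℕ} (hg : 1 ≤ g) : ∀ {k : ℕ} (x : Cube k), enc g x < 2 ^ (g * k + 1)
  | 0, x => by simp [enc]
  | k + 1, x => by
    rw [enc_succ]
    have h1 := enc_lt hg (fun i : Fin k => x i.castSucc)
    have h2 : 2 ^ (g * k + 1) ≤ 2 ^ (g * (k + 1)) := Nat.pow_le_pow_right (by norm_num) (by
      rw [mul_add]
      omega)
    have h3 : 2 ^ (g * (k + 1) + 1) = 2 ^ (g * (k + 1)) * 2 := pow_succ _ _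
    split_ifs <;> omega

theorem testBit_enc {g : ℕ} (hg : 1 ≤ g) : ∀ {k : ℕ} (x : Cube k) (j : ℕ),
    (enc g x).testBit j = decide (∃ i : Fin k, g * ((i : ℕ) + 1) = j ∧ x i = true)
  | 0, x, j => by simp [enc]
  | k + 1, x, j => by
    have h1 := enc_lt hg (fun i : Fin k => x i.castSucc)
    have h2 : 2 ^ (g * k + 1) ≤ 2 ^ (g * (k + 1)) := Nat.pow_le_pow_right (by norm_num) (by
      rw [mul_add]
      omega)
    have ih := testBit_enc hg (fun i : Fin k => x i.castSucc) j
    rw [enc_succ]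
    by_cases h : x (Fin.last k) = true
    · rw [if_pos h, add_comm]
      have h3 := Nat.two_pow_add_eq_or_of_lt (lt_of_lt_of_le h1 h2) 1
      rw [mul_one] at h3
      rw [h3, Nat.testBit_or, Nat.testBit_two_pow, ih, Bool.or_comm, ← Bool.decide_or]
      congr 1
      apply propext
      constructor
      · rintro (⟨i, hi, hx⟩ | hj)
        · exact ⟨i.castSucc, hi, hx⟩
        · exact ⟨Fin.last k, hj, h⟩
      · rintro ⟨i, hi, hx⟩
        rcases Fin.eq_castSucc_or_eq_last i with ⟨i', rfl⟩ | rfl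
        · exact Or.inl ⟨i', hi, hx⟩
        · exact Or.inr hi
    · rw [if_neg h, add_zero, ih]
      congr 1
      apply propext
      constructor
      · rintro ⟨i, hi, hx⟩
        exact ⟨i.castSucc, hi, hx⟩
      · rintro ⟨i, hi, hx⟩
        rcases Fin.eq_castSucc_or_eq_last i with ⟨i', rfl⟩ | rfl
        · exact ⟨i', hi, hx⟩
        · exact absurd hx h

theorem enc_mod {g M : ℕ} (h : 2 ^ g % M = 1 % M) (x : Cube k) :
    enc g x ≡ (univ.filter fun i => x i = true).card [MOD M] := by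
  unfold enc
  rw [card_filter]
  have h1 : ∀ i : Fin k, (if x i = true then 2 ^ (g * ((i : ℕ) + 1)) else 0) ≡
      (if x i = true then 1 else 0) [MOD M] := by
    intro i
    split_ifs
    · have h2 : (2 ^ g) ^ ((i : ℕ) + 1) ≡ 1 ^ ((i : ℕ) + 1) [MOD M] := Nat.ModEq.pow _ h
      rw [one_pow, ← pow_mul] at h2
      exact h2
    · exact Nat.ModEq.refl _
  have h3 : ∀ s : Finset (Fin k), ∑ i ∈ s, (if x i = true then 2 ^ (g * ((i : ℕ) + 1)) else 0) ≡
      ∑ i ∈ s, (if x i = true then 1 else 0) [MOD M] := by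
    classical
    intro s
    induction s using Finset.induction_on with
    | empty => simp only [sum_empty]; exact Nat.ModEq.refl _
    | insert a s ha ih =>
      rw [sum_insert ha, sum_insert ha]
      exact Nat.ModEq.add (h1 a) ih
  exact h3 univ

theorem enc_four {g : ℕ} (hg : 2 ≤ g) (x : Cube k) : 4 ∣ enc g x := by
  unfold enc
  refine dvd_sum fun i _ => ?_
  split_ifs
  · have h : 2 ^ 2 ∣ 2 ^ (g * ((i : ℕ) + 1)) := pow_dvd_pow 2 (by nlinarith)
    exact h
  · exact dvd_zero _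

/-- the digit at position `p` of `A + enc g x`, ignoring the carry from below `p - W` -/
def dgt (g A W p : ℕ) (x : Cube k) : Bool :=
  (A / 2 ^ (p - W) + enc g x / 2 ^ (p - W)).testBit (p - (p - W))

theorem testBit_congr {a b j : ℕ} (h : a % 2 ^ (j + 1) = b % 2 ^ (j + 1)) :
    a.testBit j = b.testBit j := by
  have h1 := Nat.testBit_mod_two_pow a (j + 1) j
  have h2 := Nat.testBit_mod_two_pow b (j + 1) j
  rw [h] at h1
  rw [h1] at h2
  simpa using h2

theorem dgt_junta {g : ℕ} (hg : 1 ≤ g) (A W p : ℕ) (x y : Cube k)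
    (h : ∀ i : Fin k, p - W ≤ g * ((i : ℕ) + 1) → g * ((i : ℕ) + 1) ≤ p → x i = y i) :
    dgt g A W p x = dgt g A W p y := by
  unfold dgt
  set m := p - W with hm
  have h1 : (enc g x / 2 ^ m) % 2 ^ (p - m + 1) = (enc g y / 2 ^ m) % 2 ^ (p - m + 1) := by
    apply Nat.eq_of_testBit_eq
    intro i
    rw [Nat.testBit_mod_two_pow, Nat.testBit_mod_two_pow]
    by_cases hi : i < p - m + 1
    · rw [Nat.testBit_div_two_pow, Nat.testBit_div_two_pow, testBit_enc hg, testBit_enc hg]
      congr 2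
      apply propext
      constructor
      · rintro ⟨i', hi', hx⟩
        exact ⟨i', hi', by rw [← h i' (by omega) (by omega)]; exact hx⟩
      · rintro ⟨i', hi', hx⟩
        exact ⟨i', hi', by rw [h i' (by omega) (by omega)]; exact hx⟩
    · simp [hi]
  apply testBit_congr
  rw [Nat.add_mod, h1, ← Nat.add_mod]

theorem dg_dgt {g : ℕ} (hg : 1 ≤ g) (A W p : ℕ) :
    (fun x : Cube k => bf F (dgt g A W p x)) ∈ Dg F k (W + 1) := by
  classical
  have h := dg_junta (F := F) (univ.filter fun i : Fin k =>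
      p - W ≤ g * ((i : ℕ) + 1) ∧ g * ((i : ℕ) + 1) ≤ p) (fun x => bf F (dgt g A W p x))
      (fun x y hxy => by
        rw [dgt_junta hg A W p x y fun i h1 h2 => hxy i (mem_filter.2 ⟨mem_univ _, h1, h2⟩)])
  refine dg_mono ?_ h
  have h1 : (univ.filter fun i : Fin k =>
      p - W ≤ g * ((i : ℕ) + 1) ∧ g * ((i : ℕ) + 1) ≤ p).card ≤ (Icc (p - W) p).card := by
    refine card_le_card_of_injOn (fun i => g * ((i : ℕ) + 1)) ?_ ?_
    · intro i hi
      have h2 := (mem_filter.1 (mem_coe.1 hi)).2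
      exact mem_coe.2 (mem_Icc.2 h2)
    · intro i _ j _ hij
      have h3 : g * ((i : ℕ) + 1) = g * ((j : ℕ) + 1) := hij
      have h4 := Nat.eq_of_mul_eq_mul_left (by omega) h3
      exact Fin.ext (by omega)
  rw [Nat.card_Icc] at h1
  omega

theorem carry {a b W : ℕ} (h : a % 2 ^ W + b % 2 ^ W ≠ 2 ^ W - 1) :
    (a + b + 1).testBit W = (a + b).testBit W := by
  have hpos : 0 < 2 ^ W := by positivity
  have h1 : ¬ 2 ^ W ∣ a + b + 1 := by
    intro hd
    have h2 : (a % 2 ^ W + b % 2 ^ W + 1) % 2 ^ W = 0 := by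
      rw [Nat.add_mod, ← Nat.add_mod a b, ← Nat.add_mod]
      exact Nat.mod_eq_zero_of_dvd hd
    have h3 := Nat.mod_lt a hpos
    have h4 := Nat.mod_lt b hpos
    obtain ⟨c, hc⟩ := Nat.dvd_of_mod_eq_zero h2
    have h5 : c = 1 := by
      have h6 : c < 2 := by
        by_contra hcon
        have : 2 ^ W * 2 ≤ 2 ^ W * c := Nat.mul_le_mul_left _ (by omega)
        omega
      have h7 : c ≠ 0 := by
        rintro rfl
        omega
      omega
    rw [h5] at hc
    omega
  have h8 : (a + b + 1) / 2 ^ W = (a + b) / 2 ^ W := by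
    rw [Nat.succ_div, if_neg h1, add_zero]
  rw [Nat.testBit_eq_decide_div_mod_eq, Nat.testBit_eq_decide_div_mod_eq, h8]

theorem dgt_eq {g A W p : ℕ} (x : Cube k)
    (h : W ≤ p → (A / 2 ^ (p - W)) % 2 ^ W + (enc g x / 2 ^ (p - W)) % 2 ^ W ≠ 2 ^ W - 1) :
    dgt g A W p x = (A + enc g x).testBit p := by
  unfold dgt
  rcases Nat.lt_or_ge p W with hp | hp
  · have : p - W = 0 := by omega
    rw [this]
    simp
  · have h0 : p - (p - W) = W := by omega
    rw [h0]
    set m := p - W with hm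
    have h1 : (A + enc g x).testBit p = ((A + enc g x) / 2 ^ m).testBit W := by
      rw [Nat.testBit_div_two_pow]
      congr 1
      omega
    rw [h1, Nat.add_div (by positivity)]
    split_ifs
    · exact (carry (h hp)).symm
    · rw [add_zero]

/-- prescribed digits in a window -/
theorem window_card {T W p v : ℕ} (hW : W ≤ p) (hp : p ≤ T) :
    ((range (2 ^ T)).filter (fun A => (A / 2 ^ (p - W)) % 2 ^ W = v)).card ≤ 2 ^ (T - W) := by
  have h1 : ((range (2 ^ T)).filter (fun A => (A / 2 ^ (p - W)) % 2 ^ W = v)).card ≤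
      (range (2 ^ (T - p)) ×ˢ range (2 ^ (p - W))).card := by
    refine card_le_card_of_injOn (fun A => (A / 2 ^ p, A % 2 ^ (p - W))) ?_ ?_
    · intro A hA
      have h2 := mem_filter.1 (mem_coe.1 hA)
      have h3 := mem_range.1 h2.1
      refine mem_coe.2 (mem_product.2 ⟨mem_range.2 ?_, mem_range.2 (Nat.mod_lt _ (by positivity))⟩)
      rw [Nat.div_lt_iff_lt_mul (by positivity), ← pow_add]
      rwa [show T - p + p = T by omega]
    · intro A hA A' hA' heq
      have h2 := (mem_filter.1 (mem_coe.1 hA)).2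
      have h2' := (mem_filter.1 (mem_coe.1 hA')).2
      have e1 : A / 2 ^ p = A' / 2 ^ p := congrArg Prod.fst heq
      have e2 : A % 2 ^ (p - W) = A' % 2 ^ (p - W) := congrArg Prod.snd heq
      have h3 : ∀ B : ℕ, B / 2 ^ p = B / 2 ^ (p - W) / 2 ^ W := by
        intro B
        rw [Nat.div_div_eq_div_mul, ← pow_add]
        congr 2
        omega
      rw [h3 A, h3 A'] at e1
      have e3 : A / 2 ^ (p - W) = A' / 2 ^ (p - W) := by
        rw [← Nat.div_add_mod (A / 2 ^ (p - W)) (2 ^ W),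
          ← Nat.div_add_mod (A' / 2 ^ (p - W)) (2 ^ W), e1, h2, h2']
      rw [← Nat.div_add_mod A (2 ^ (p - W)), ← Nat.div_add_mod A' (2 ^ (p - W)), e3, e2]
  rw [card_product, card_range, card_range, ← pow_add] at h1
  rwa [show T - p + (p - W) = T - W by omega] at h1

end Pool.Agent.U343.Sm
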