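import Mathlib
import Pool.Agent.H177R2.SD.Design

set_option autoImplicit false

/-!
# The Bruck-Ryser-Chowla theorem for `v ≡ 3 (mod 4)`
-/

namespace Pool.Agent.U343.Sm

open Finset
open Pool.Agent.H177R2.SD (IsSymmetricDesign)

/-- the elimination of the variables -/
theorem elim : ∀ (k : ℕ) (L : Fin k → ((Fin (k + 1) → ℚ) →ₗ[ℚ] ℚ)),
    ∃ x : Fin (k + 1) → ℚ, x (Fin.last k) ≠ 0 ∧
      ∀ i : Fin k, (L i x) ^ 2 = (x i.castSucc) ^ 2 := by
  intro k
  induction k with
  | zero => exact fun L => ⟨fun _ => 1, one_ne_zero, fun i => i.elim0⟩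
  | succ k ih =>
    intro L
    obtain ⟨a, ha⟩ : ∃ a : ℚ, a = L 0 (Matrix.vecCons 1 0) := ⟨_, rfl⟩
    obtain ⟨l, hl⟩ : ∃ l : (Fin (k + 1) → ℚ) →ₗ[ℚ] ℚ,
      l = (L 0).comp (LinearMap.vecCons 0 LinearMap.id) := ⟨_, rfl⟩
    obtain ⟨c, hc⟩ : ∃ c : ℚ, (a * c + 1) ^ 2 = c ^ 2 := by
      by_cases h : a = 1
      · exact ⟨-1 / 2, by rw [h]; norm_num⟩
      · refine ⟨1 / (1 - a), ?_⟩
        have : (1 : ℚ) - a ≠ 0 := sub_ne_zero.2 (Ne.symm h)
        field_simp
        ring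
    obtain ⟨E, hE⟩ : ∃ E : (Fin (k + 1) → ℚ) →ₗ[ℚ] (Fin (k + 2) → ℚ),
      E = LinearMap.vecCons (c • l) LinearMap.id := ⟨_, rfl⟩
    obtain ⟨x, hx, h⟩ := ih (fun i => (L i.succ).comp E)
    have hEs : ∀ j : Fin (k + 1), E x j.succ = x j := by
      intro j
      rw [hE]
      simp
    have hE0 : E x 0 = c * l x := by
      rw [hE]
      simp
    refine ⟨E x, ?_, ?_⟩
    · rw [← Fin.succ_last, hEs]
      exact hx
    · intro i
      refine Fin.cases ?_ (fun j => ?_) i
      · have e1 : E x = (c * l x) • (Matrix.vecCons 1 0 : Fin (k + 2) → ℚ) +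
            Matrix.vecCons 0 x := by
          ext j
          refine Fin.cases ?_ (fun j => ?_) j
          · rw [hE0]
            simp
          · rw [hEs]
            simp
        have e4 : L 0 (Matrix.vecCons 0 x) = l x := by
          rw [hl]
          simp
        have e2 : L 0 (E x) = (a * c + 1) * l x := by
          rw [e1, map_add, map_smul, smul_eq_mul, ← ha, e4]
          ring
        rw [e2, Fin.castSucc_zero, hE0, mul_pow, hc, mul_pow]
      · rw [← Fin.succ_castSucc, hEs]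
        exact h j

/-- the rows of the matrix of the four squares identity -/
def hh (a b c d : ℚ) (j : Fin 4) (z : Fin 4 → ℚ) : ℚ :=
  ![a * z 0 - b * z 1 - c * z 2 - d * z 3, b * z 0 + a * z 1 - d * z 2 + c * z 3,
    c * z 0 + d * z 1 + a * z 2 - b * z 3, d * z 0 - c * z 1 + b * z 2 + a * z 3] j

theorem hh_add (a b c d : ℚ) (j : Fin 4) (z w : Fin 4 → ℚ) :
    hh a b c d j (fun i => z i + w i) = hh a b c d j z + hh a b c d j w := by
  fin_cases j <;> simp [hh] <;> ring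

theorem hh_smul (a b c d s : ℚ) (j : Fin 4) (z : Fin 4 → ℚ) :
    hh a b c d j (fun i => s * z i) = s * hh a b c d j z := by
  fin_cases j <;> simp [hh] <;> ring

theorem hh_sq (a b c d : ℚ) (z : Fin 4 → ℚ) :
    ∑ j, hh a b c d j z ^ 2 = (a ^ 2 + b ^ 2 + c ^ 2 + d ^ 2) * ∑ j, z j ^ 2 := by
  rw [Fin.sum_univ_four, Fin.sum_univ_four]
  simp [hh]
  ring

/-- the four squares identity in `4 t` variables -/
theorem four (n t : ℕ) (hn : n ≠ 0) {k : ℕ} (hk : k = t * 4) :
    ∃ X : (Fin k → ℚ) →ₗ[ℚ] (Fin k → ℚ), ∀ y, ∑ i, (y i) ^ 2 = n * ∑ i, (X y i) ^ 2 := by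
  subst hk
  obtain ⟨a, b, c, d, habcd⟩ := Nat.sum_four_squares n
  have hq : ((a : ℚ) ^ 2 + (b : ℚ) ^ 2 + (c : ℚ) ^ 2 + (d : ℚ) ^ 2) = n := by exact_mod_cast habcd
  have hn0 : (n : ℚ) ≠ 0 := by exact_mod_cast hn
  set e : Fin t × Fin 4 ≃ Fin (t * 4) := finProdFinEquiv with he
  refine ⟨{ toFun := fun y i => hh a b c d (e.symm i).2 (fun j => y (e ((e.symm i).1, j))) / n
            map_add' := ?_
            map_smul' := ?_ }, ?_⟩
  · intro y z
    ext i
    simp only [Pi.add_apply]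
    rw [hh_add, add_div]
  · intro s y
    ext i
    simp only [Pi.smul_apply, smul_eq_mul, RingHom.id_apply]
    rw [hh_smul, mul_div_assoc]
  · intro y
    simp only [LinearMap.coe_mk, AddHom.coe_mk]
    rw [← Equiv.sum_comp e, ← Equiv.sum_comp e, Fintype.sum_prod_type, Fintype.sum_prod_type,
      Finset.mul_sum]
    refine Finset.sum_congr rfl fun s _ => ?_
    simp only [Equiv.symm_apply_apply, div_pow]
    rw [← Finset.sum_div, hh_sq, hq]
    field_simp

/-- the quadratic form of a design -/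
theorem design_id {v r l : ℕ} {B : Fin v → Finset (Fin v)}
    (hr : ∀ x, (univ.filter fun i => x ∈ B i).card = r)
    (hl : ∀ x y, x ≠ y → (univ.filter fun i => x ∈ B i ∧ y ∈ B i).card = l) (x : Fin v → ℚ) :
    ∑ i, (∑ j, if j ∈ B i then x j else 0) ^ 2 =
      ((r : ℚ) - l) * ∑ j, x j ^ 2 + l * (∑ j, x j) ^ 2 := by
  have e1 : ∀ i, (∑ j, if j ∈ B i then x j else 0) ^ 2 =
      ∑ j, ∑ j', if j ∈ B i ∧ j' ∈ B i then x j * x j' else 0 := by
    intro i
    rw [sq, Finset.sum_mul_sum]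
    refine Finset.sum_congr rfl fun j _ => Finset.sum_congr rfl fun j' _ => ?_
    by_cases h1 : j ∈ B i <;> by_cases h2 : j' ∈ B i <;> simp [h1, h2]
  have e2 : ∑ i, (∑ j, if j ∈ B i then x j else 0) ^ 2 =
      ∑ j, ∑ j', x j * x j' * ((univ.filter fun i => j ∈ B i ∧ j' ∈ B i).card : ℚ) := by
    rw [Finset.sum_congr rfl fun i _ => e1 i, Finset.sum_comm]
    refine Finset.sum_congr rfl fun j _ => ?_
    rw [Finset.sum_comm]
    refine Finset.sum_congr rfl fun j' _ => ?_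
    rw [← Finset.sum_filter, Finset.sum_const, nsmul_eq_mul, mul_comm]
  have e3 : ∀ j j', ((univ.filter fun i => j ∈ B i ∧ j' ∈ B i).card : ℚ) =
      l + (if j = j' then ((r : ℚ) - l) else 0) := by
    intro j j'
    by_cases h : j = j'
    · subst h
      simp [hr]
    · rw [if_neg h, hl j j' h, add_zero]
  rw [e2]
  simp only [e3, mul_add, Finset.sum_add_distrib, mul_ite, mul_zero, Finset.sum_ite_eq,
    Finset.mem_univ, if_true]
  rw [add_comm]
  congr 1
  · rw [Finset.mul_sum]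
    refine Finset.sum_congr rfl fun j _ => ?_
    ring
  · rw [sq, Finset.sum_mul_sum, Finset.mul_sum]
    refine Finset.sum_congr rfl fun j _ => ?_
    rw [Finset.mul_sum]
    refine Finset.sum_congr rfl fun j' _ => ?_
    ring

/-- **Bruck-Ryser-Chowla** for `v ≡ 3 (mod 4)` -/
theorem brc3 {v k l n : ℕ} (hd : IsSymmetricDesign v k l) (hv : v % 4 = 3) (hn : n ≠ 0)
    (hkl : k = l + n) :
    ∃ y w x : ℚ, y ≠ 0 ∧ y ^ 2 + l * w ^ 2 = n * x ^ 2 := by
  obtain ⟨hkv, r, B, h1, h2, h3⟩ := hd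
  have hrk : r = k := by
    have e1 : ∑ i : Fin v, (B i).card = ∑ x : Fin v, (univ.filter fun i => x ∈ B i).card := by
      simp only [Finset.card_filter]
      rw [Finset.sum_comm]
      refine Finset.sum_congr rfl fun i _ => ?_
      rw [← Finset.card_filter]
      congr 1
      ext x
      simp
    simp only [h1, h2, Finset.sum_const, Finset.card_univ, Fintype.card_fin, smul_eq_mul] at e1
    exact (Nat.eq_of_mul_eq_mul_left (by omega) e1).symm
  obtain ⟨t, ht⟩ : ∃ t, v + 1 = t * 4 := ⟨(v + 1) / 4, by omega⟩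
  obtain ⟨X, hX⟩ := four n t hn ht
  -- the functionals
  let L : Fin v → ((Fin (v + 1) → ℚ) →ₗ[ℚ] ℚ) := fun i =>
    { toFun := fun y => ∑ j : Fin v, if j ∈ B i then X y j.castSucc else 0
      map_add' := by
        intro y z
        rw [← Finset.sum_add_distrib]
        refine Finset.sum_congr rfl fun j _ => ?_
        rw [map_add, Pi.add_apply]
        split_ifs <;> simp
      map_smul' := by
        intro s y
        rw [RingHom.id_apply, smul_eq_mul, Finset.mul_sum]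
        refine Finset.sum_congr rfl fun j _ => ?_
        rw [map_smul, Pi.smul_apply]
        split_ifs <;> simp }
  obtain ⟨y, hy, hL⟩ := elim v L
  have hid := design_id h2 h3 (fun j => X y j.castSucc)
  have e1 : ∑ i : Fin v, (∑ j : Fin v, if j ∈ B i then X y j.castSucc else 0) ^ 2 =
      ∑ i : Fin v, (y i.castSucc) ^ 2 := Finset.sum_congr rfl fun i _ => hL i
  have e2 := hX y
  rw [Fin.sum_univ_castSucc, Fin.sum_univ_castSucc] at e2
  have e3 : (r : ℚ) - l = n := by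
    rw [hrk, hkl]
    push_cast
    ring
  rw [e1, e3] at hid
  refine ⟨y (Fin.last v), ∑ j : Fin v, X y j.castSucc, X y (Fin.last v), hy, ?_⟩
  linear_combination e2 - hid

/-- the descent -/
theorem desc {q : ℕ} (hq : q.Prime) (hq4 : q % 4 = 3) {l : ℤ} (hl : (l : ZMod q) = 1) {u : ℤ}
    (hu : ¬ (q : ℤ) ∣ u) : ∀ (K : ℕ) (a : ℕ) (y w x : ℤ), y.natAbs ≤ K → y ≠ 0 →
      y ^ 2 + l * w ^ 2 ≠ (q : ℤ) ^ (2 * a + 1) * u * x ^ 2 := by
  have : Fact q.Prime := ⟨hq⟩
  have hqp : Prime (q : ℤ) := Nat.prime_iff_prime_int.1 hq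
  have hq0 : (q : ℤ) ≠ 0 := hqp.ne_zero
  intro K
  induction K with
  | zero =>
    intro a y w x hK hy
    exact absurd (Int.natAbs_eq_zero.1 (by omega)) hy
  | succ K ih =>
    intro a y w x hK hy h
    -- `q` divides `y` and `w`
    have h1 : (q : ℤ) ∣ y ^ 2 + l * w ^ 2 := by
      rw [h, pow_succ]
      exact ⟨(q : ℤ) ^ (2 * a) * u * x ^ 2, by ring⟩
    have h2 : ((y : ZMod q)) ^ 2 + (w : ZMod q) ^ 2 = 0 := by
      have h3 := (ZMod.intCast_zmod_eq_zero_iff_dvd _ q).2 h1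
      push_cast at h3
      rw [hl, one_mul] at h3
      exact h3
    have hw : (w : ZMod q) = 0 := by
      by_contra hw0
      have h4 : IsSquare (-1 : ZMod q) := by
        refine ⟨(y : ZMod q) * (w : ZMod q)⁻¹, ?_⟩
        field_simp
        linear_combination -h2
      rw [ZMod.exists_sq_eq_neg_one_iff] at h4
      exact h4 hq4
    have hy' : (y : ZMod q) = 0 := by
      rw [hw] at h2
      simpa using h2
    obtain ⟨y', rfl⟩ := (ZMod.intCast_zmod_eq_zero_iff_dvd _ q).1 hy'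
    obtain ⟨w', rfl⟩ := (ZMod.intCast_zmod_eq_zero_iff_dvd _ q).1 hw
    have hy0 : y' ≠ 0 := by
      rintro rfl
      simp at hy
    have hK' : y'.natAbs ≤ K := by
      rw [Int.natAbs_mul, Int.natAbs_natCast] at hK
      have h5 : 0 < y'.natAbs := Int.natAbs_pos.2 hy0
      have h6 := hq.two_le
      nlinarith
    rcases Nat.eq_zero_or_pos a with ha | ha
    · subst ha
      have h7 : (q : ℤ) * (y' ^ 2 + l * w' ^ 2) = u * x ^ 2 := by
        refine mul_left_cancel₀ hq0 ?_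
        linear_combination h
      have h8 : (q : ℤ) ∣ x := by
        have h9 : (q : ℤ) ∣ u * x ^ 2 := ⟨_, h7.symm⟩
        rcases hqp.dvd_or_dvd h9 with h10 | h10
        · exact absurd h10 hu
        · exact hqp.dvd_of_dvd_pow h10
      obtain ⟨x', rfl⟩ := h8
      refine ih 0 y' w' x' hK' hy0 ?_
      refine mul_left_cancel₀ hq0 ?_
      linear_combination h7
    · obtain ⟨a', rfl⟩ : ∃ a', a = a' + 1 := ⟨a - 1, by omega⟩
      refine ih a' y' w' x hK' hy0 ?_
      refine mul_left_cancel₀ (pow_ne_zero 2 hq0) ?_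
      have e : (q : ℤ) ^ (2 * (a' + 1) + 1) = (q : ℤ) ^ 2 * (q : ℤ) ^ (2 * a' + 1) := by
        rw [← pow_add]
        congr 1
        ring
      rw [e] at h
      linear_combination h

/-- no symmetric design -/
theorem no_design {v k l n q a u : ℕ} (hv : v % 4 = 3) (hkl : k = l + n) (hq : q.Prime)
    (hq4 : q % 4 = 3) (hl : (l : ZMod q) = 1) (hn : n = q ^ (2 * a + 1) * u) (hu : ¬ q ∣ u) :
    ¬ IsSymmetricDesign v k l := by
  intro hd
  have hu0 : u ≠ 0 := by
    rintro rfl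
    exact hu (dvd_zero q)
  have hn0 : n ≠ 0 := by
    rw [hn]
    exact Nat.mul_ne_zero (pow_ne_zero _ hq.ne_zero) hu0
  obtain ⟨y, w, x, hy, h⟩ := brc3 hd hv hn0 hkl
  obtain ⟨D, hD⟩ : ∃ D : ℤ, D = (y.den * w.den * x.den : ℕ) := ⟨_, rfl⟩
  obtain ⟨Y, e1⟩ : ∃ Y : ℤ, (Y : ℚ) = y * D := by
    refine ⟨y.num * ((w.den * x.den : ℕ) : ℤ), ?_⟩
    rw [hD]
    push_cast
    have := Rat.mul_den_eq_num y
    linear_combination -((w.den : ℚ) * x.den) * this
  obtain ⟨W, e2⟩ : ∃ W : ℤ, (W : ℚ) = w * D := by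
    refine ⟨w.num * ((y.den * x.den : ℕ) : ℤ), ?_⟩
    rw [hD]
    push_cast
    have := Rat.mul_den_eq_num w
    linear_combination -((y.den : ℚ) * x.den) * this
  obtain ⟨Z, e3⟩ : ∃ Z : ℤ, (Z : ℚ) = x * D := by
    refine ⟨x.num * ((y.den * w.den : ℕ) : ℤ), ?_⟩
    rw [hD]
    push_cast
    have := Rat.mul_den_eq_num x
    linear_combination -((y.den : ℚ) * w.den) * this
  have hD0 : (D : ℚ) ≠ 0 := by
    rw [hD]
    have h1 := y.den_nz
    have h2 := w.den_nz
    have h3 := x.den_nz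
    exact_mod_cast Nat.mul_ne_zero (Nat.mul_ne_zero h1 h2) h3
  refine desc hq hq4 (l := (l : ℤ)) (u := (u : ℤ)) (by exact_mod_cast hl)
    (fun h1 => hu (by exact_mod_cast h1)) _ a Y W Z le_rfl ?_ ?_
  · intro h0
    have : y * D = 0 := by
      rw [← e1, h0]
      simp
    exact (mul_ne_zero hy hD0) this
  · have hnq : (n : ℚ) = (q : ℚ) ^ (2 * a + 1) * u := by
      rw [hn]
      push_cast
      ring
    have : ((Y ^ 2 + (l : ℤ) * W ^ 2 : ℤ) : ℚ) =
        (((q : ℤ) ^ (2 * a + 1) * (u : ℤ) * Z ^ 2 : ℤ) : ℚ) := by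
      push_cast
      rw [e1, e2, e3, ← hnq]
      linear_combination (D : ℚ) ^ 2 * h
    exact_mod_cast this

end Pool.Agent.U343.Sm
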