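import Pool.Agent.U343.Sm.Deg

set_option autoImplicit false

/-!
# Circuits of constant depth with `MOD r` gates and their approximation by polynomials
-/

namespace Pool.Agent.U343.Sm

open Finset

/-- `Circuit r S n d f`: the function `f` of `n` bits is computed by a circuit of depth at most `d`
whose gates are AND, OR and `MOD r` gates with at most `S` inputs; NOT gates are free. -/
inductive Circuit (r S n : ℕ) : ℕ → (Cube n → Bool) → Prop
  | const (d : ℕ) (b : Bool) : Circuit r S n d (fun _ => b)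
  | input (d : ℕ) (i : Fin n) : Circuit r S n d (fun x => x i)
  | not (d : ℕ) (f : Cube n → Bool) : Circuit r S n d f → Circuit r S n d (fun x => !(f x))
  | and (d s : ℕ) (g : Fin s → Cube n → Bool) : s ≤ S → (∀ i, Circuit r S n d (g i)) →
      Circuit r S n (d + 1) (fun x => decide (∀ i, g i x = true))
  | or (d s : ℕ) (g : Fin s → Cube n → Bool) : s ≤ S → (∀ i, Circuit r S n d (g i)) →
      Circuit r S n (d + 1) (fun x => decide (∃ i, g i x = true))
  | mod (d s : ℕ) (g : Fin s → Cube n → Bool) : s ≤ S → (∀ i, Circuit r S n d (g i)) →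
      Circuit r S n (d + 1) (fun x => decide (r ∣ (univ.filter fun i => g i x = true).card))

open Classical in
/-- approximation by functions of small degree, for all weights -/
def App (F : Type) [Field F] {n : ℕ} (D : ℕ) (ε : ℝ) (f : Cube n → Bool) : Prop :=
  ∀ μ : Cube n → ℝ, (∀ x, 0 ≤ μ x) → ∃ P ∈ Dg F n D,
    ∑ x ∈ univ.filter (fun x => P x ≠ bf F (f x)), μ x ≤ ε * ∑ x, μ x

variable {F : Type} [Field F] {n : ℕ}

theorem App.mono {D D' : ℕ} {ε ε' : ℝ} {f : Cube n → Bool} (h : App F D ε f) (hD : D ≤ D')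
    (hε : ε ≤ ε') : App F D' ε' f := by
  intro μ hμ
  obtain ⟨P, hP, h1⟩ := h μ hμ
  exact ⟨P, dg_mono hD hP, h1.trans (mul_le_mul_of_nonneg_right hε (sum_nonneg fun x _ => hμ x))⟩

theorem app_exact {D : ℕ} {f : Cube n → Bool} (h : (fun x => bf F (f x)) ∈ Dg F n D) :
    App F D 0 f := by
  intro μ hμ
  refine ⟨_, h, ?_⟩
  simp

theorem bf_not (b : Bool) : bf F (!b) = 1 - bf F b := by
  cases b <;> simp [bf]

theorem app_not {D : ℕ} {ε : ℝ} {f : Cube n → Bool} (h : App F D ε f) :
    App F D ε (fun x => !(f x)) := by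
  classical
  intro μ hμ
  obtain ⟨P, hP, h1⟩ := h μ hμ
  refine ⟨fun x => 1 - P x, dg_sub (dg_const 1 _) hP, le_trans (le_of_eq ?_) h1⟩
  refine sum_congr ?_ fun _ _ => rfl
  ext x
  simp only [mem_filter, mem_univ, true_and, bf_not, ne_eq, sub_right_inj]

open Classical in
/-- weighted union bound -/
theorem bad_le {s : ℕ} (P : Fin s → Cube n → F) (g : Fin s → Cube n → Bool) (μ : Cube n → ℝ)
    (hμ : ∀ x, 0 ≤ μ x) (ε : ℝ)
    (h : ∀ i, ∑ x ∈ univ.filter (fun x => P i x ≠ bf F (g i x)), μ x ≤ ε * ∑ x, μ x) :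
    ∑ x ∈ univ.filter (fun x => ∃ i, P i x ≠ bf F (g i x)), μ x ≤ s * ε * ∑ x, μ x := by
  have h0 : ∀ x (j : Fin s), (0 : ℝ) ≤ if P j x ≠ bf F (g j x) then μ x else 0 := by
    intro x j
    by_cases h : P j x ≠ bf F (g j x)
    · rw [if_pos h]
      exact hμ x
    · rw [if_neg h]
  have h1 : ∀ x, (if ∃ i, P i x ≠ bf F (g i x) then μ x else 0) ≤
      ∑ i : Fin s, if P i x ≠ bf F (g i x) then μ x else 0 := by
    intro x
    by_cases hx : ∃ i, P i x ≠ bf F (g i x)
    · rw [if_pos hx]
      obtain ⟨i, hi⟩ := hx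
      calc μ x = if P i x ≠ bf F (g i x) then μ x else 0 := by rw [if_pos hi]
        _ ≤ ∑ i : Fin s, if P i x ≠ bf F (g i x) then μ x else 0 :=
          single_le_sum (f := fun i => if P i x ≠ bf F (g i x) then μ x else 0)
            (fun j _ => h0 x j) (mem_univ i)
    · rw [if_neg hx]
      exact sum_nonneg fun j _ => h0 x j
  calc ∑ x ∈ univ.filter (fun x => ∃ i, P i x ≠ bf F (g i x)), μ x
      = ∑ x, if ∃ i, P i x ≠ bf F (g i x) then μ x else 0 := sum_filter _ _
    _ ≤ ∑ x, ∑ i : Fin s, if P i x ≠ bf F (g i x) then μ x else 0 :=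
        sum_le_sum fun x _ => h1 x
    _ = ∑ i : Fin s, ∑ x, if P i x ≠ bf F (g i x) then μ x else 0 := sum_comm
    _ = ∑ i : Fin s, ∑ x ∈ univ.filter (fun x => P i x ≠ bf F (g i x)), μ x :=
        sum_congr rfl fun i _ => (sum_filter _ _).symm
    _ ≤ ∑ _i : Fin s, ε * ∑ x, μ x := sum_le_sum fun i _ => h i
    _ = s * ε * ∑ x, μ x := by
        rw [sum_const, card_univ, Fintype.card_fin, nsmul_eq_mul, mul_assoc]

/-- the value of a combination of bits at a prime field element -/
theorem half {r s : ℕ} [Fact r.Prime] (b : Fin s → Bool) (hb : ∃ i, b i = true) :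
    2 * (univ.filter (fun c : Fin s → ZMod r =>
      ∑ i, c i * (if b i = true then 1 else 0) = 0)).card ≤ Fintype.card (Fin s → ZMod r) := by
  classical
  obtain ⟨i0, hi0⟩ := hb
  set Z := univ.filter (fun c : Fin s → ZMod r =>
      ∑ i, c i * (if b i = true then 1 else 0) = 0) with hZ
  have h1 : Z.card = (Z.image (fun c => c + Pi.single i0 1)).card :=
    (card_image_of_injective _ (add_left_injective _)).symm
  have h2 : Disjoint Z (Z.image (fun c => c + Pi.single i0 1)) := by
    rw [disjoint_left]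
    intro c hc hc'
    obtain ⟨c', hc1, rfl⟩ := mem_image.1 hc'
    rw [hZ, mem_filter] at hc hc1
    have h3 := hc.2
    simp only [Pi.add_apply, add_mul, sum_add_distrib] at h3
    rw [hc1.2, zero_add] at h3
    rw [sum_eq_single i0] at h3
    · simp [hi0] at h3
    · intro j _ hj
      simp [Pi.single_eq_of_ne hj]
    · intro h
      exact absurd (mem_univ _) h
  have h3 : 2 * Z.card = (Z ∪ Z.image (fun c => c + Pi.single i0 1)).card := by
    rw [card_union_of_disjoint h2, ← h1]
    ring
  rw [h3]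
  exact card_le_univ _

theorem cast_ite {r : ℕ} [Fact r.Prime] [Algebra (ZMod r) F] (b : Bool) :
    algebraMap (ZMod r) F (if b = true then 1 else 0) = bf F b := by
  cases b <;> simp [bf]

theorem pow_r {r : ℕ} [Fact r.Prime] [Algebra (ZMod r) F] (v : ZMod r) :
    (algebraMap (ZMod r) F v) ^ (r - 1) = if v = 0 then 0 else 1 := by
  have hr : 2 ≤ r := (Fact.out : r.Prime).two_le
  by_cases hv : v = 0
  · rw [if_pos hv, hv, map_zero, zero_pow (by omega)]
  · rw [if_neg hv, ← map_pow, ZMod.pow_card_sub_one_eq_one hv, map_one]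

/-- OR gates -/
theorem app_or {r : ℕ} [Fact r.Prime] [Algebra (ZMod r) F] {s D : ℕ} (l : ℕ) {ε : ℝ}
    (g : Fin s → Cube n → Bool) (h : ∀ i, App F D ε (g i)) :
    App F (l * ((r - 1) * D)) (s * ε + (1 / 2) ^ l) (fun x => decide (∃ i, g i x = true)) := by
  classical
  intro μ hμ
  choose P hP hPe using fun i => h i μ hμ
  have hbad := bad_le P g μ hμ ε hPe
  -- the combinations
  let L : (Fin s → ZMod r) → Cube n → F := fun c x => ∑ i, algebraMap (ZMod r) F (c i) * P i x
  let Q : (Fin l → Fin s → ZMod r) → Cube n → F :=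
    fun c x => 1 - ∏ j, (1 - L (c j) x ^ (r - 1))
  have hL : ∀ c, L c ∈ Dg F n D := fun c => dg_sum _ _ _ fun i _ => dg_smul _ (hP i)
  have hQ : ∀ c, Q c ∈ Dg F n (l * ((r - 1) * D)) := by
    intro c
    have h1 := dg_prod (F := F) (univ : Finset (Fin l)) (fun j x => 1 - L (c j) x ^ (r - 1))
      ((r - 1) * D) (fun j _ => dg_sub (dg_const 1 _) (dg_pow _ (hL _)))
    rw [card_univ, Fintype.card_fin] at h1
    exact dg_sub (dg_const 1 _) h1
  -- the values
  have hval : ∀ c x, (∀ i, P i x = bf F (g i x)) → Q c x =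
      if ∀ j, ∑ i, c j i * (if g i x = true then 1 else 0) = 0 then 0 else 1 := by
    intro c x hx
    have h1 : ∀ j, L (c j) x =
        algebraMap (ZMod r) F (∑ i, c j i * (if g i x = true then 1 else 0)) := by
      intro j
      rw [map_sum]
      refine sum_congr rfl fun i _ => ?_
      rw [map_mul, cast_ite, hx i]
    have h2 : ∀ j, 1 - L (c j) x ^ (r - 1) =
        if ∑ i, c j i * (if g i x = true then 1 else 0) = 0 then 1 else 0 := by
      intro j
      rw [h1 j, pow_r]
      split_ifs <;> simp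
    change 1 - ∏ j, (1 - L (c j) x ^ (r - 1)) = _
    rw [prod_congr rfl fun j _ => h2 j, Finset.prod_ite_zero]
    simp only [mem_univ, forall_const, prod_const_one]
    split_ifs <;> simp
  -- the number of the wrong choices
  have hcnt : ∀ x, (∀ i, P i x = bf F (g i x)) →
      ((univ.filter (fun c : Fin l → Fin s → ZMod r =>
        Q c x ≠ bf F (decide (∃ i, g i x = true)))).card : ℝ) ≤
        (1 / 2) ^ l * Fintype.card (Fin l → Fin s → ZMod r) := by
    intro x hx
    by_cases hg : ∃ i, g i x = true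
    · have h1 := half (r := r) (fun i => g i x) hg
      set Z := univ.filter (fun c : Fin s → ZMod r =>
        ∑ i, c i * (if g i x = true then 1 else 0) = 0) with hZ
      have h2 : univ.filter (fun c : Fin l → Fin s → ZMod r =>
          Q c x ≠ bf F (decide (∃ i, g i x = true))) ⊆ Fintype.piFinset (fun _ => Z) := by
        intro c hc
        rw [mem_filter, hval c x hx] at hc
        rw [Fintype.mem_piFinset]
        intro j
        rw [hZ, mem_filter]
        refine ⟨mem_univ _, ?_⟩
        by_contra hcon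
        apply hc.2
        rw [if_neg (fun hh => hcon (hh j))]
        simp [bf, hg]
      have h3 := card_le_card h2
      rw [Fintype.card_piFinset_const] at h3
      have h4 : (2 : ℝ) * Z.card ≤ Fintype.card (Fin s → ZMod r) := by exact_mod_cast h1
      calc ((univ.filter (fun c : Fin l → Fin s → ZMod r =>
            Q c x ≠ bf F (decide (∃ i, g i x = true)))).card : ℝ) ≤ (Z.card : ℝ) ^ l := by
              exact_mod_cast h3
        _ ≤ (1 / 2 * (Fintype.card (Fin s → ZMod r) : ℝ)) ^ l :=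
            pow_le_pow_left₀ (Nat.cast_nonneg _) (by linarith) l
        _ = (1 / 2) ^ l * Fintype.card (Fin l → Fin s → ZMod r) := by
            rw [mul_pow, Fintype.card_fun (α := Fin l)]
            push_cast
            rw [Fintype.card_fin]
    · have h2 : univ.filter (fun c : Fin l → Fin s → ZMod r =>
          Q c x ≠ bf F (decide (∃ i, g i x = true))) = ∅ := by
        rw [filter_eq_empty_iff]
        intro c _ hc
        apply hc
        rw [hval c x hx, if_pos]
        · simp [bf, hg]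
        · intro j
          refine sum_eq_zero fun i _ => ?_
          have : ¬ g i x = true := fun h => hg ⟨i, h⟩
          simp [this]
      rw [h2, card_empty]
      push_cast
      positivity
  -- averaging
  set B := univ.filter (fun x => ∃ i, P i x ≠ bf F (g i x)) with hB
  have havg : ∃ c : Fin l → Fin s → ZMod r,
      ∑ x ∈ univ.filter (fun x => x ∉ B ∧ Q c x ≠ bf F (decide (∃ i, g i x = true))), μ x ≤
        (1 / 2) ^ l * ∑ x, μ x := by
    by_contra hcon
    push Not at hcon
    have h1 : (Fintype.card (Fin l → Fin s → ZMod r) : ℝ) * ((1 / 2) ^ l * ∑ x, μ x) <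
        ∑ c : Fin l → Fin s → ZMod r, ∑ x ∈ univ.filter
          (fun x => x ∉ B ∧ Q c x ≠ bf F (decide (∃ i, g i x = true))), μ x := by
      have h2 := sum_lt_sum_of_nonempty (s := (univ : Finset (Fin l → Fin s → ZMod r)))
        univ_nonempty (fun c _ => hcon c)
      rw [sum_const, card_univ, nsmul_eq_mul] at h2
      exact h2
    have h3 : ∑ c : Fin l → Fin s → ZMod r, ∑ x ∈ univ.filter
          (fun x => x ∉ B ∧ Q c x ≠ bf F (decide (∃ i, g i x = true))), μ x ≤
        (Fintype.card (Fin l → Fin s → ZMod r) : ℝ) * ((1 / 2) ^ l * ∑ x, μ x) := by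
      simp_rw [sum_filter]
      rw [sum_comm, mul_sum, mul_sum]
      refine sum_le_sum fun x _ => ?_
      by_cases hx : x ∈ B
      · have h4 : ∀ c : Fin l → Fin s → ZMod r,
            (if x ∉ B ∧ Q c x ≠ bf F (decide (∃ i, g i x = true)) then μ x else 0) = 0 :=
          fun c => if_neg fun h => h.1 hx
        rw [sum_congr rfl fun c _ => h4 c, sum_const_zero]
        have := hμ x
        positivity
      · have hx' : ∀ i, P i x = bf F (g i x) := by
          intro i
          by_contra h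
          exact hx (mem_filter.2 ⟨mem_univ _, i, h⟩)
        have h4 : ∀ c : Fin l → Fin s → ZMod r,
            (if x ∉ B ∧ Q c x ≠ bf F (decide (∃ i, g i x = true)) then μ x else 0) =
            if Q c x ≠ bf F (decide (∃ i, g i x = true)) then μ x else 0 := by
          intro c
          simp [hx]
        rw [sum_congr rfl fun c _ => h4 c, ← sum_filter, sum_const, nsmul_eq_mul]
        have h5 := hcnt x hx'
        calc ((univ.filter (fun c : Fin l → Fin s → ZMod r =>
              Q c x ≠ bf F (decide (∃ i, g i x = true)))).card : ℝ) * μ x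
            ≤ ((1 / 2) ^ l * Fintype.card (Fin l → Fin s → ZMod r)) * μ x :=
              mul_le_mul_of_nonneg_right h5 (hμ x)
          _ = Fintype.card (Fin l → Fin s → ZMod r) * ((1 / 2) ^ l * μ x) := by ring
    exact absurd h1 (not_lt.2 h3)
  obtain ⟨c, hc⟩ := havg
  refine ⟨Q c, hQ c, ?_⟩
  have h6 : ∑ x ∈ univ.filter (fun x => Q c x ≠ bf F (decide (∃ i, g i x = true))), μ x ≤
      ∑ x ∈ B, μ x + ∑ x ∈ univ.filter
        (fun x => x ∉ B ∧ Q c x ≠ bf F (decide (∃ i, g i x = true))), μ x := by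
    rw [← sum_union]
    · refine sum_le_sum_of_subset_of_nonneg ?_ fun x _ _ => hμ x
      intro x hx
      rw [mem_union]
      by_cases hxB : x ∈ B
      · exact Or.inl hxB
      · exact Or.inr (mem_filter.2 ⟨mem_univ _, hxB, (mem_filter.1 hx).2⟩)
    · rw [disjoint_left]
      intro x hx hx'
      exact (mem_filter.1 hx').2.1 hx
  calc _ ≤ _ := h6
    _ ≤ s * ε * ∑ x, μ x + (1 / 2) ^ l * ∑ x, μ x := add_le_add hbad hc
    _ = (s * ε + (1 / 2) ^ l) * ∑ x, μ x := by ring

/-- AND gates -/
theorem app_and {r : ℕ} [Fact r.Prime] [Algebra (ZMod r) F] {s D : ℕ} (l : ℕ) {ε : ℝ}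
    (g : Fin s → Cube n → Bool) (h : ∀ i, App F D ε (g i)) :
    App F (l * ((r - 1) * D)) (s * ε + (1 / 2) ^ l) (fun x => decide (∀ i, g i x = true)) := by
  have h1 := app_not (app_or (r := r) l (fun i x => !(g i x)) fun i => app_not (h i))
  have h2 : (fun x => !(decide (∃ i, (!(g i x)) = true))) =
      fun x => decide (∀ i, g i x = true) := by
    funext x
    rw [← decide_not]
    congr 1
    simp
  rw [h2] at h1
  exact h1

/-- `MOD r` gates -/
theorem app_mod {r : ℕ} [Fact r.Prime] [Algebra (ZMod r) F] {s D : ℕ} {ε : ℝ}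
    (g : Fin s → Cube n → Bool) (h : ∀ i, App F D ε (g i)) :
    App F ((r - 1) * D) (s * ε)
      (fun x => decide (r ∣ (univ.filter fun i => g i x = true).card)) := by
  classical
  intro μ hμ
  choose P hP hPe using fun i => h i μ hμ
  have hbad := bad_le P g μ hμ ε hPe
  refine ⟨fun x => 1 - (∑ i, P i x) ^ (r - 1),
    dg_sub (dg_const 1 _) (dg_pow _ (dg_sum _ _ _ fun i _ => hP i)), le_trans ?_ hbad⟩
  refine sum_le_sum_of_subset_of_nonneg ?_ fun x _ _ => hμ x
  intro x hx
  rw [mem_filter] at hx ⊢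
  refine ⟨mem_univ _, ?_⟩
  by_contra hcon
  push Not at hcon
  apply hx.2
  have h1 : ∑ i, P i x =
      algebraMap (ZMod r) F (((univ.filter fun i => g i x = true).card : ℕ) : ZMod r) := by
    rw [sum_congr rfl fun i _ => hcon i, card_filter]
    rw [Nat.cast_sum, map_sum]
    refine sum_congr rfl fun i _ => ?_
    rw [← cast_ite (r := r) (F := F) (g i x)]
    congr 1
    push_cast
    rfl
  change 1 - (∑ i, P i x) ^ (r - 1) = _
  rw [h1, pow_r]
  by_cases h2 : r ∣ (univ.filter fun i => g i x = true).card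
  · rw [if_pos ((ZMod.natCast_eq_zero_iff _ _).2 h2)]
    simp [bf, h2]
  · rw [if_neg (fun h => h2 ((ZMod.natCast_eq_zero_iff _ _).1 h))]
    simp [bf, h2]

/-- Razborov-Smolensky approximation of circuits -/
theorem circuit_app {r : ℕ} [Fact r.Prime] [Algebra (ZMod r) F] {S d : ℕ} (l : ℕ) (hl : 1 ≤ l)
    {f : Cube n → Bool} (h : Circuit r S n d f) :
    App F ((l * (r - 1)) ^ d) ((S + 1) ^ d * (1 / 2) ^ l) f := by
  have hr : 2 ≤ r := (Fact.out : r.Prime).two_le
  have hlr : 1 ≤ l * (r - 1) := Nat.mul_pos hl (by omega)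
  have hpos : ∀ d : ℕ, (0 : ℝ) ≤ ((S : ℝ) + 1) ^ d * (1 / 2) ^ l := fun d => by positivity
  have hdeg : ∀ d : ℕ, l * ((r - 1) * (l * (r - 1)) ^ d) = (l * (r - 1)) ^ (d + 1) := by
    intro d
    rw [pow_succ]
    ring
  have herr : ∀ (d s : ℕ), s ≤ S → (s : ℝ) * (((S : ℝ) + 1) ^ d * (1 / 2) ^ l) + (1 / 2) ^ l ≤
      ((S : ℝ) + 1) ^ (d + 1) * (1 / 2) ^ l := by
    intro d s hs
    have h1 : (s : ℝ) ≤ S := by exact_mod_cast hs
    have h2 : (1 : ℝ) ≤ ((S : ℝ) + 1) ^ d :=
      one_le_pow₀ (by linarith [(Nat.cast_nonneg S : (0 : ℝ) ≤ S)])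
    have h3 : (0 : ℝ) ≤ (1 / 2) ^ l := by positivity
    have h4 : (s : ℝ) * ((S : ℝ) + 1) ^ d ≤ S * ((S : ℝ) + 1) ^ d :=
      mul_le_mul_of_nonneg_right h1 (by linarith)
    have h5 : (s : ℝ) * ((S : ℝ) + 1) ^ d + 1 ≤ ((S : ℝ) + 1) ^ (d + 1) := by
      rw [pow_succ]
      linarith
    calc (s : ℝ) * (((S : ℝ) + 1) ^ d * (1 / 2) ^ l) + (1 / 2) ^ l =
        ((s : ℝ) * ((S : ℝ) + 1) ^ d + 1) * (1 / 2) ^ l := by ring
      _ ≤ _ := mul_le_mul_of_nonneg_right h5 h3
  induction h with
  | const d b => exact (app_exact (dg_const _ _)).mono le_rfl (hpos _)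
  | input d i =>
    exact (app_exact (D := (l * (r - 1)) ^ d) (dg_mono (Nat.one_le_pow _ _ hlr) (dg_coord i))).mono
      le_rfl (hpos _)
  | not d f _ ih => exact app_not ih
  | and d s g hs _ ih => exact (app_and (r := r) l g ih).mono (hdeg d).le (herr d s hs)
  | or d s g hs _ ih => exact (app_or (r := r) l g ih).mono (hdeg d).le (herr d s hs)
  | mod d s g hs _ ih =>
    refine (app_mod (r := r) g ih).mono ?_ (le_trans ?_ (herr d s hs))
    · rw [← hdeg d]
      exact Nat.le_mul_of_pos_left _ hl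
    · have h3 : (0 : ℝ) ≤ (1 / 2) ^ l := by positivity
      linarith

end Pool.Agent.U343.Sm
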