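import Pool.Agent.U343.Sm.Red

set_option autoImplicit false

/-!
# The core inequality
-/

namespace Pool.Agent.U343.Sm

open Finset

variable {F : Type} [Field F]

/-- `G` is right at `x` for the class `s` and the shifts `AA` -/
def GoodAt (q s g : ℕ) {k : ℕ} (T : ℕ → Prop) (AA : Finset ℕ) (G : Cube k → Bool)
    (x : Cube k) : Prop :=
  (wt x % q ≠ s → G x = true) ∧ ((∀ A ∈ AA, ¬ T (A + enc g x)) → G x = false)

/-- a digit of `A + enc g x` is computed wrongly -/
def Wrong (g W n A : ℕ) {k : ℕ} (x : Cube k) : Prop :=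
  ∃ p : Fin n, dgt g A W p x ≠ (A + enc g x).testBit p

/-- `f` is wrong at the number `N` -/
def Err {n : ℕ} (f : Cube n → Bool) (T : ℕ → Prop) (N : ℕ) : Prop := ¬ (f (bits n N) = true ↔ T N)

/-- one of both -/
def Bad (g W : ℕ) {n k : ℕ} (f : Cube n → Bool) (T : ℕ → Prop) (A : ℕ) (x : Cube k) : Prop :=
  Wrong g W n A x ∨ Err f T (A + enc g x)

/-- the weight is not in the class `s` -/
def NotS (q s : ℕ) {k : ℕ} (x : Cube k) : Prop := wt x % q ≠ s

/-- `A + enc g x` is in the set -/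
def Acc {k : ℕ} (T : ℕ → Prop) (g A : ℕ) (x : Cube k) : Prop := T (A + enc g x)

open Classical in
theorem step {r q g n W l L S d k s : ℕ} [Fact r.Prime] [Algebra (ZMod r) F]
    (hg : 1 ≤ g) (hl : 1 ≤ l) {f : Cube n → Bool} (hf : Circuit r S n d f) (T : ℕ → Prop)
    (AA : Finset ℕ) (hne : AA.Nonempty) {η δ : ℝ} (hη1 : η ≤ 1) (hδ1 : δ ≤ 1)
    (hη : ∀ x : Cube k, ((AA.filter fun A => Bad g W f T A x).card : ℝ) ≤ η * AA.card)
    (h1 : ∀ x : Cube k, wt x % q ≠ s → δ * AA.card ≤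
      ((AA.filter fun A => Acc T g A x).card : ℝ)) :
    ∃ G : Cube k → Bool,
      App F (l * ((r - 1) * ((l * (r - 1)) ^ d * (W + 1))))
        (L * (((S : ℝ) + 1) ^ d * (1 / 2) ^ l) + (1 / 2) ^ l) G ∧
      ((univ.filter fun x : Cube k => ¬ GoodAt q s g T AA G x).card : ℝ) ≤
        (L * η + (1 - δ) ^ L) * 2 ^ k := by
  obtain ⟨a, ha, hbad⟩ := sample (k := k) (L := L) AA hne
    (fun A x => Bad g W f T A x) (fun A x => Acc T g A x) (fun x => NotS q s x) hη1 hδ1 hη h1
  refine ⟨fun x => decide (∃ j : Fin L, f (fun p : Fin n => dgt g (a j) W p x) = true), ?_, ?_⟩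
  · exact app_or (r := r) l (fun j x => f (fun p : Fin n => dgt g (a j) W p x)) fun j =>
      app_comp (N := fun x (p : Fin n) => dgt g (a j) W p x) (fun p => dg_dgt hg (a j) W p)
        (circuit_app l hl hf)
  · refine le_trans ?_ hbad
    refine Nat.cast_le.2 (card_le_card ?_)
    intro x hx
    rw [mem_filter] at hx ⊢
    refine ⟨mem_univ _, ?_⟩
    by_contra hcon
    rw [not_or, not_and, not_forall] at hcon
    obtain ⟨hc1', hc2'⟩ := hcon
    have hc1 : ∀ (j : Fin L) (p : Fin n), dgt g (a j) W p x = (a j + enc g x).testBit p := by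
      intro j p
      by_contra hne
      exact hc1' ⟨j, Or.inl ⟨p, hne⟩⟩
    have hc3 : ∀ j : Fin L, f (bits n (a j + enc g x)) = true ↔ T (a j + enc g x) := by
      intro j
      by_contra hne
      exact hc1' ⟨j, Or.inr hne⟩
    have hc2 : wt x % q ≠ s → ∃ j, f (bits n (a j + enc g x)) = true := by
      intro hw
      obtain ⟨j, hj⟩ := hc2' hw
      exact ⟨j, (hc3 j).2 (not_not.1 hj)⟩
    apply hx.2
    have hval : ∀ j : Fin L, f (fun p : Fin n => dgt g (a j) W p x) =
        f (bits n (a j + enc g x)) := by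
      intro j
      congr 1
      funext p
      exact hc1 j p
    constructor
    · intro hw
      obtain ⟨j, hj⟩ := hc2 hw
      rw [decide_eq_true_eq]
      exact ⟨j, by rw [hval j]; exact hj⟩
    · intro h
      rw [decide_eq_false_iff_not]
      rintro ⟨j, hj⟩
      rw [hval j] at hj
      exact h (a j) (ha j) ((hc3 j).1 hj)

open Classical in
theorem core {r q g n W l L S d m : ℕ} [Fact r.Prime] [Algebra (ZMod r) F] {ω : F} (hω1 : ω ≠ 1)
    (hω0 : ω ≠ 0) (hωq : ω ^ q = 1) (hg : 1 ≤ g) (hq0 : 0 < q) (hl : 1 ≤ l)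
    {f : Cube n → Bool} (hf : Circuit r S n d f) (T : ℕ → Prop)
    (AA : ℕ → ℕ → Finset ℕ) (hne : ∀ s < q, ∀ u < 2, (AA s u).Nonempty)
    {η δ : ℝ} (hη1 : η ≤ 1) (hδ1 : δ ≤ 1)
    (hη : ∀ s < q, ∀ u < 2, ∀ x : Cube (2 * m + 1),
      (((AA s u).filter fun A => Bad g W f T A x).card : ℝ) ≤ η * (AA s u).card)
    (h1 : ∀ s < q, ∀ u < 2, ∀ x : Cube (2 * m + 1), wt x % q ≠ s → δ * (AA s u).card ≤
      (((AA s u).filter fun A => Acc T g A x).card : ℝ))
    (h0 : ∀ x : Cube (2 * m + 1), ∃ u < 2, ∀ A ∈ AA (wt x % q) u, ¬ T (A + enc g x))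
    {Δ : ℕ} (hΔ : Δ = l * ((r - 1) * ((l * (r - 1)) ^ d * (W + 1))))
    (hdeg : 64 * (Δ + Δ) ^ 2 ≤ 3 * m + 4) {E Z : ℝ}
    (hE : E = L * (((S : ℝ) + 1) ^ d * (1 / 2) ^ l) + (1 / 2) ^ l)
    (hZ : Z = L * η + (1 - δ) ^ L) :
    3 / 8 ≤ (q : ℝ) * ((E + E) + (Z + Z)) := by
  have hG : ∀ s u : ℕ, ∃ G : Cube (2 * m + 1) → Bool, s < q → u < 2 → App F Δ E G ∧
      ((univ.filter fun x : Cube (2 * m + 1) => ¬ GoodAt q s g T (AA s u) G x).card : ℝ) ≤
        Z * 2 ^ (2 * m + 1) := by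
    intro s u
    by_cases h : s < q ∧ u < 2
    · obtain ⟨G, hG1, hG2⟩ := step (F := F) (q := q) (s := s) (L := L) hg hl hf T (AA s u)
        (hne s h.1 u h.2) hη1 hδ1 (hη s h.1 u h.2) (h1 s h.1 u h.2)
      refine ⟨G, fun _ _ => ⟨?_, ?_⟩⟩
      · rw [hΔ, hE]
        exact hG1
      · rw [hZ]
        exact hG2
    · exact ⟨fun _ => true, fun h3 h4 => absurd ⟨h3, h4⟩ h⟩
  choose G hG using hG
  -- the approximations of `[|x| ≠ s]`
  have hP : ∀ s : ℕ, ∃ P : Cube (2 * m + 1) → F, s < q → P ∈ Dg F (2 * m + 1) (Δ + Δ) ∧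
      ((univ.filter fun x => P x ≠ bf F (G s 0 x && G s 1 x)).card : ℝ) ≤
        (E + E) * 2 ^ (2 * m + 1) := by
    intro s
    by_cases hs : s < q
    · obtain ⟨P, hP1, hP2⟩ := app_mul (hG s 0 hs (by norm_num)).1 (hG s 1 hs (by norm_num)).1
        (fun _ => 1) (fun _ => zero_le_one)
      refine ⟨P, fun _ => ⟨hP1, ?_⟩⟩
      rw [sum_const, nsmul_eq_mul, mul_one, sum_const, nsmul_eq_mul, mul_one, card_univ,
        Fintype.card_fun, Fintype.card_bool, Fintype.card_fin] at hP2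
      push_cast at hP2
      exact hP2
    · exact ⟨0, fun h => absurd h hs⟩
  choose P hP using hP
  let H : Cube (2 * m + 1) → F := fun x => ∑ s ∈ range q, ω ^ s * (1 - P s x)
  have hH : H ∈ Dg F (2 * m + 1) (Δ + Δ) :=
    dg_sum _ _ _ fun s hs => dg_smul _ (dg_sub (dg_const 1 _) (hP s (mem_range.1 hs)).1)
  set U : Finset (Cube (2 * m + 1)) := (range q).biUnion (fun s =>
    (univ.filter fun x => P s x ≠ bf F (G s 0 x && G s 1 x)) ∪
      ((univ.filter fun x => ¬ GoodAt q s g T (AA s 0) (G s 0) x) ∪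
        (univ.filter fun x => ¬ GoodAt q s g T (AA s 1) (G s 1) x))) with hU
  have hUcard : (U.card : ℝ) ≤ q * ((E + E) + (Z + Z)) * 2 ^ (2 * m + 1) := by
    have e1 : U.card ≤ ∑ s ∈ range q,
        ((univ.filter fun x => P s x ≠ bf F (G s 0 x && G s 1 x)).card +
      ((univ.filter fun x => ¬ GoodAt q s g T (AA s 0) (G s 0) x).card +
        (univ.filter fun x => ¬ GoodAt q s g T (AA s 1) (G s 1) x).card)) := by
      refine card_biUnion_le.trans (sum_le_sum fun s _ => ?_)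
      refine (card_union_le _ _).trans ?_
      have := card_union_le (univ.filter fun x => ¬ GoodAt q s g T (AA s 0) (G s 0) x)
        (univ.filter fun x => ¬ GoodAt q s g T (AA s 1) (G s 1) x)
      omega
    have e2 : (U.card : ℝ) ≤ ∑ s ∈ range q,
        (((univ.filter fun x => P s x ≠ bf F (G s 0 x && G s 1 x)).card : ℝ) +
      (((univ.filter fun x => ¬ GoodAt q s g T (AA s 0) (G s 0) x).card : ℝ) +
        ((univ.filter fun x => ¬ GoodAt q s g T (AA s 1) (G s 1) x).card : ℝ))) := by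
      exact_mod_cast e1
    refine e2.trans ?_
    calc _ ≤ ∑ s ∈ range q, ((E + E) + (Z + Z)) * 2 ^ (2 * m + 1) := by
          refine sum_le_sum fun s hs => ?_
          have hs' := mem_range.1 hs
          have e3 := (hP s hs').2
          have e4 := (hG s 0 hs' (by norm_num)).2
          have e5 := (hG s 1 hs' (by norm_num)).2
          have e6 : ((E + E) + (Z + Z)) * (2 : ℝ) ^ (2 * m + 1) = (E + E) * 2 ^ (2 * m + 1) +
            (Z * 2 ^ (2 * m + 1) + Z * 2 ^ (2 * m + 1)) := by ring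
          rw [e6]
          linarith
      _ = _ := by
          rw [sum_const, card_range, nsmul_eq_mul]
          ring
  have hval : ∀ x, x ∉ U → H x = ω ^ wt x := by
    intro x hx
    have hx' : ∀ s < q, P s x = bf F (G s 0 x && G s 1 x) ∧
        GoodAt q s g T (AA s 0) (G s 0) x ∧ GoodAt q s g T (AA s 1) (G s 1) x := by
      intro s hs
      rw [hU, mem_biUnion] at hx
      push Not at hx
      have h3 := hx s (mem_range.2 hs)
      rw [mem_union, mem_union, mem_filter, mem_filter, mem_filter] at h3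
      push Not at h3
      exact ⟨h3.1 (mem_univ _), h3.2.1 (mem_univ _), h3.2.2 (mem_univ _)⟩
    have hterm : ∀ s ∈ range q, ω ^ s * (1 - P s x) = if s = wt x % q then ω ^ s else 0 := by
      intro s hs
      obtain ⟨e1, e2, e3⟩ := hx' s (mem_range.1 hs)
      rw [e1]
      by_cases hsw : s = wt x % q
      · rw [if_pos hsw]
        obtain ⟨u, hu, hA⟩ := h0 x
        rw [← hsw] at hA
        have h4 : (G s 0 x && G s 1 x) = false := by
          interval_cases u
          · rw [e2.2 hA, Bool.false_and]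
          · rw [e3.2 hA, Bool.and_false]
        rw [h4]
        simp [bf]
      · rw [if_neg hsw, e2.1 (Ne.symm hsw), e3.1 (Ne.symm hsw)]
        simp [bf]
    change ∑ s ∈ range q, ω ^ s * (1 - P s x) = _
    rw [sum_congr rfl hterm, sum_ite_eq' (range q) (wt x % q) (fun s => ω ^ s),
      if_pos (mem_range.2 (Nat.mod_lt _ hq0))]
    conv_rhs => rw [← Nat.div_add_mod (wt x) q, pow_add, pow_mul, hωq, one_pow, one_mul]
  have hsm := smolensky hω1 hω0 hH hdeg
  have hcov : 2 ^ (2 * m + 1) ≤ U.card +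
      (univ.filter fun x : Cube (2 * m + 1) => H x = ω ^ wt x).card := by
    have e1 : (univ : Finset (Cube (2 * m + 1))) ⊆ U ∪
        univ.filter fun x : Cube (2 * m + 1) => H x = ω ^ wt x := by
      intro x _
      rw [mem_union]
      by_cases hx : x ∈ U
      · exact Or.inl hx
      · exact Or.inr (mem_filter.2 ⟨mem_univ _, hval x hx⟩)
    have e2 := card_le_card e1
    rw [card_univ, Fintype.card_fun, Fintype.card_bool, Fintype.card_fin] at e2
    exact e2.trans (card_union_le _ _)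
  have e7 : 3 * 2 ^ (2 * m + 1) ≤ 8 * U.card := by omega
  have e8 : (3 : ℝ) * 2 ^ (2 * m + 1) ≤ 8 * U.card := by exact_mod_cast e7
  have e9 : (0 : ℝ) < 2 ^ (2 * m + 1) := by positivity
  have e10 : 3 / 8 * (2 : ℝ) ^ (2 * m + 1) ≤ q * ((E + E) + (Z + Z)) * 2 ^ (2 * m + 1) := by
    linarith
  exact le_of_mul_le_mul_right e10 e9

end Pool.Agent.U343.Sm
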