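import Pool.Agent.U343.Sm.DesCirc

set_option autoImplicit false

/-!
# Singer difference sets in cyclic groups, symmetric designs and circuits
-/

namespace Pool.Agent.U343.Sm

open Module

/-- some cyclic group contains a difference set with the Singer parameters `(n, m)` -/
def HasCyc (n m : ℕ) : Prop :=
  ∃ (G : Type) (_ : Group G) (_ : Fintype G) (_ : DecidableEq G) (D : Finset G), IsCyclic G ∧
    Fintype.card G * (n - 1) = n ^ m - 1 ∧ D.card * (n - 1) = n ^ (m - 1) - 1 ∧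
    ∀ g : G, g ≠ 1 →
      ((D ×ˢ D).filter (fun p : G × G => p.1 * p.2⁻¹ = g)).card * (n - 1) = n ^ (m - 2) - 1

section
variable {F K : Type} [Field F] [Field K] [Algebra F K]

/-- Singer difference sets -/
theorem cyc_exists [Finite F] [Finite K] (hm : 3 ≤ finrank F K) :
    HasCyc (Nat.card F) (finrank F K) := by
  classical
  have hfd : FiniteDimensional F K := Module.finite_iff_finite.2 inferInstance
  have : Fintype (Kˣ ⧸ sc F K) := Fintype.ofFinite _
  obtain ⟨φ, hφ⟩ : ∃ φ : K →ₗ[F] F, φ ≠ 0 := by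
    by_contra hcon
    push Not at hcon
    exact one_ne_zero ((Module.forall_dual_apply_eq_zero_iff F (1 : K)).1
      fun φ => by rw [hcon φ]; rfl)
  have hk := Module.Dual.finrank_ker_add_one_of_ne_zero (f := φ) hφ
  refine ⟨Kˣ ⧸ sc F K, inferInstance, inferInstance, inferInstance,
    (PS (LinearMap.ker φ)).toFinset,
    isCyclic_of_surjective (QuotientGroup.mk' (sc F K)) (QuotientGroup.mk'_surjective _), ?_, ?_, ?_⟩
  · have h1 := card_PS (⊤ : Submodule F K)
    have h2 : PS (⊤ : Submodule F K) = Set.univ := by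
      ext g
      obtain ⟨x, rfl⟩ := QuotientGroup.mk_surjective g
      simp [mem_PS]
    rw [h2, Set.ncard_univ, finrank_top, Nat.card_eq_fintype_card] at h1
    exact h1
  · have h1 := card_PS (LinearMap.ker φ)
    rw [Set.ncard_eq_toFinset_card'] at h1
    rw [h1]
    congr 2
    omega
  · intro g hg
    obtain ⟨u, rfl⟩ := QuotientGroup.mk_surjective g
    have hu : ∀ c : F, algebraMap F K c ≠ (u : K) := by
      intro c hc
      apply hg
      rw [QuotientGroup.eq_one_iff]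
      exact mem_sc.2 ⟨c, hc⟩
    have h1 := card_PS (LinearMap.ker φ ⊓ LinearMap.ker (mulF φ u))
    have h2 := finrank_inter hφ (mulF_ne hφ hu)
    rw [Set.ncard_eq_toFinset_card'] at h1
    have h3 : finrank F (LinearMap.ker φ ⊓ LinearMap.ker (mulF φ u) : Submodule F K) =
        finrank F K - 2 := by omega
    rw [h3] at h1
    rw [← h1]
    congr 1
    refine Finset.card_bij (fun d _ => d.2) ?_ ?_ ?_
    · rintro ⟨a, b⟩ hab
      rw [Finset.mem_filter, Finset.mem_product, Set.mem_toFinset, Set.mem_toFinset] at hab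
      obtain ⟨⟨ha, hb⟩, he⟩ := hab
      obtain ⟨x, rfl⟩ := QuotientGroup.mk_surjective b
      have he' : a = ((u * x : Kˣ) : Kˣ ⧸ sc F K) := by
        rw [QuotientGroup.mk_mul, ← he]
        simp
      rw [Set.mem_toFinset, mem_PS]
      rw [he'] at ha
      have hb' := (mem_PS _ _).1 hb
      have ha' := (mem_PS _ _).1 ha
      refine ⟨hb', ?_⟩
      simpa [mulF] using ha'
    · rintro ⟨a, b⟩ hab ⟨a', b'⟩ hab' h
      rw [Finset.mem_filter] at hab hab'
      have hb : b = b' := h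
      subst hb
      have := hab.2.trans hab'.2.symm
      have h5 : a = a' := mul_right_cancel this
      rw [h5]
    · intro b hb
      obtain ⟨x, rfl⟩ := QuotientGroup.mk_surjective b
      rw [Set.mem_toFinset, mem_PS] at hb
      refine ⟨(((u * x : Kˣ) : Kˣ ⧸ sc F K), ((x : Kˣ) : Kˣ ⧸ sc F K)), ?_, rfl⟩
      rw [Finset.mem_filter, Finset.mem_product, Set.mem_toFinset, Set.mem_toFinset, mem_PS, mem_PS]
      refine ⟨⟨?_, hb.1⟩, ?_⟩
      · have := hb.2
        simpa [mulF] using this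
      · rw [QuotientGroup.mk_mul]
        simp

end

/-- Singer difference sets for primes -/
theorem cyc_prime {p m : ℕ} (hp : p.Prime) (hm : 3 ≤ m) : HasCyc p m := by
  have : Fact p.Prime := ⟨hp⟩
  have h1 : finrank (ZMod p) (GaloisField p m) = m := GaloisField.finrank p (by omega)
  have h2 := cyc_exists (F := ZMod p) (K := GaloisField p m) (by rw [h1]; exact hm)
  rw [h1, Nat.card_zmod] at h2
  exact h2

open Finset Filter Topology
open Pool.Agent.H771R2.SingerDS (HasSinger)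

open Classical in
theorem cyc_of_unif {n : ℕ} {f : Cube n → Bool} {x : ℝ} {q : ℕ} (hq : q.Prime)
    (hq4 : q % 4 = 3)
    (h : ∀ T : ℕ → Prop, (∀ p : ℕ, p.Prime → p % 4 = 1 → T p) →
      (∀ N : ℕ, N % 4 = 1 → q ∣ N → ¬ q ^ 2 ∣ N → ¬ T N) →
      x < ({N : ℕ | N < 2 ^ n ∧ N % 4 = 1 ∧ ¬ (f (bits n N) = true ↔ T N)}.ncard : ℝ)) :
    x < ({N : ℕ | N < 2 ^ n ∧ N % 4 = 1 ∧
      ((f (bits n N) = true ∧ ∀ m : ℕ, m % 4 = 3 → ¬ HasSinger N m ∧ ¬ Des N m) ∨
        (f (bits n N) = false ∧ ∀ m : ℕ, 3 ≤ m → HasCyc N m))}.ncard : ℝ) := by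
  have h1 := h (fun N => if f (bits n N) = true then
      ∃ m : ℕ, m % 4 = 3 ∧ (HasSinger N m ∨ Des N m) else ∀ m : ℕ, 3 ≤ m → HasCyc N m ∧ Des N m)
    (fun p hp _ => by
      split_ifs
      · exact ⟨3, rfl, Or.inr (des_prime hp le_rfl)⟩
      · exact fun m hm => ⟨cyc_prime hp hm, des_prime hp hm⟩)
    (fun N hN h1 h2 => by
      split_ifs
      · rintro ⟨m, hm, hd | hd⟩
        · exact sing_not hm hN hq hq4 h1 h2 hd
        · exact des_not hm hN hq hq4 h1 h2 hd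
      · exact fun hd => des_not rfl hN hq hq4 h1 h2 (hd 3 le_rfl).2)
  refine lt_of_lt_of_le h1 ?_
  have hfin : {N : ℕ | N < 2 ^ n ∧ N % 4 = 1 ∧
      ((f (bits n N) = true ∧ ∀ m : ℕ, m % 4 = 3 → ¬ HasSinger N m ∧ ¬ Des N m) ∨
        (f (bits n N) = false ∧ ∀ m : ℕ, 3 ≤ m → HasCyc N m))}.Finite :=
    (Set.finite_lt_nat (2 ^ n)).subset fun N hN => hN.1
  have hsub : {N : ℕ | N < 2 ^ n ∧ N % 4 = 1 ∧ ¬ (f (bits n N) = true ↔
      (if f (bits n N) = true then ∃ m : ℕ, m % 4 = 3 ∧ (HasSinger N m ∨ Des N m) else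
        ∀ m : ℕ, 3 ≤ m → HasCyc N m ∧ Des N m))} ⊆
      {N : ℕ | N < 2 ^ n ∧ N % 4 = 1 ∧
      ((f (bits n N) = true ∧ ∀ m : ℕ, m % 4 = 3 → ¬ HasSinger N m ∧ ¬ Des N m) ∨
        (f (bits n N) = false ∧ ∀ m : ℕ, 3 ≤ m → HasCyc N m))} := by
    rintro N ⟨h2, h3, h4⟩
    refine ⟨h2, h3, ?_⟩
    by_cases hf : f (bits n N) = true
    · left
      rw [if_pos hf] at h4
      refine ⟨hf, fun m hm => ⟨fun hd => h4 ?_, fun hd => h4 ?_⟩⟩
      · exact ⟨fun _ => ⟨m, hm, Or.inl hd⟩, fun _ => hf⟩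
      · exact ⟨fun _ => ⟨m, hm, Or.inr hd⟩, fun _ => hf⟩
    · right
      rw [if_neg hf] at h4
      refine ⟨by simpa using hf, ?_⟩
      have h5 : ∀ m : ℕ, 3 ≤ m → HasCyc N m ∧ Des N m := by
        by_contra hcon
        exact h4 ⟨fun h => absurd h hf, fun h => absurd h hcon⟩
      exact fun m hm => (h5 m hm).1
  exact_mod_cast Set.ncard_le_ncard hsub hfin

theorem cyc_circuits {r : ℕ} (hr : r.Prime) (d : ℕ) :
    ∃ κ : ℝ, 0 < κ ∧ ∀ᶠ n : ℕ in atTop, ∀ (S : ℕ) (f : Cube n → Bool),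
      Circuit r S n d f → (S : ℝ) ≤ 2 ^ ((n : ℝ) ^ (1 / (2 * (d : ℝ) + 5))) →
      κ * 2 ^ n / n <
        ({N : ℕ | N < 2 ^ n ∧ N % 4 = 1 ∧
          ((f (bits n N) = true ∧ ∀ m : ℕ, m % 4 = 3 → ¬ HasSinger N m ∧ ¬ Des N m) ∨
            (f (bits n N) = false ∧ ∀ m : ℕ, 3 ≤ m → HasCyc N m))}.ncard : ℝ) := by
  by_cases h3 : r = 3
  · obtain ⟨κ, hκ, h⟩ := real_unif hr (by norm_num : Nat.Prime 7) (by norm_num) (by omega) d
    exact ⟨κ, hκ, h.mono fun n hn S f hC hS =>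
      cyc_of_unif (by norm_num : Nat.Prime 7) (by norm_num) (hn S f hC hS)⟩
  · obtain ⟨κ, hκ, h⟩ := real_unif hr (by norm_num : Nat.Prime 3) (by norm_num)
      (fun h => h3 h.symm) d
    exact ⟨κ, hκ, h.mono fun n hn S f hC hS =>
      cyc_of_unif (by norm_num : Nat.Prime 3) (by norm_num) (hn S f hC hS)⟩

end Pool.Agent.U343.Sm
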