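import Mathlib

set_option autoImplicit false

/-!
# Functions of bounded degree on the discrete cube
-/

namespace Pool.Agent.U343.Sm

open Finset

/-- points of the cube -/
abbrev Cube (n : ℕ) : Type := Fin n → Bool

/-- a bit as an element of the field -/
def bf (F : Type) [Field F] (b : Bool) : F := if b = true then 1 else 0

/-- monomials -/
def mono (F : Type) [Field F] {n : ℕ} (I : Finset (Fin n)) : Cube n → F :=
  fun x => ∏ i ∈ I, bf F (x i)

/-- functions of degree at most `D` -/
def Dg (F : Type) [Field F] (n D : ℕ) : Submodule F (Cube n → F) :=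
  Submodule.span F {g | ∃ I : Finset (Fin n), I.card ≤ D ∧ g = mono F I}

variable {F : Type} [Field F] {n : ℕ}

theorem mono_apply (I : Finset (Fin n)) (x : Cube n) :
    mono F I x = if ∀ i ∈ I, x i = true then 1 else 0 := by
  unfold mono bf
  rw [Finset.prod_ite_zero]
  simp

theorem mono_mul (I J : Finset (Fin n)) : mono F I * mono F J = mono F (I ∪ J) := by
  funext x
  rw [Pi.mul_apply, mono_apply, mono_apply, mono_apply]
  by_cases h1 : ∀ i ∈ I, x i = true
  · by_cases h2 : ∀ i ∈ J, x i = true
    · have h3 : ∀ i ∈ I ∪ J, x i = true := by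
        intro i hi
        rcases mem_union.1 hi with h | h
        · exact h1 i h
        · exact h2 i h
      rw [if_pos h1, if_pos h2, if_pos h3, mul_one]
    · have h3 : ¬ ∀ i ∈ I ∪ J, x i = true := fun h =>
        h2 fun i hi => h i (mem_union_right _ hi)
      rw [if_neg h2, if_neg h3, mul_zero]
  · have h3 : ¬ ∀ i ∈ I ∪ J, x i = true := fun h =>
      h1 fun i hi => h i (mem_union_left _ hi)
    rw [if_neg h1, if_neg h3, zero_mul]

theorem dg_mono {a b : ℕ} (h : a ≤ b) {f : Cube n → F} (hf : f ∈ Dg F n a) : f ∈ Dg F n b := by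
  refine Submodule.span_mono ?_ hf
  rintro _ ⟨I, hI, rfl⟩
  exact ⟨I, hI.trans h, rfl⟩

theorem dg_mul {a b : ℕ} {f g : Cube n → F} (hf : f ∈ Dg F n a) (hg : g ∈ Dg F n b) :
    f * g ∈ Dg F n (a + b) := by
  have h := Submodule.mul_mem_mul hf hg
  rw [Dg, Dg, Submodule.span_mul_span] at h
  refine Submodule.span_mono ?_ h
  rintro _ ⟨_, ⟨I, hI, rfl⟩, _, ⟨J, hJ, rfl⟩, rfl⟩
  exact ⟨I ∪ J, (card_union_le _ _).trans (add_le_add hI hJ), mono_mul _ _⟩

theorem dg_monomial {D : ℕ} {I : Finset (Fin n)} (h : I.card ≤ D) : mono F I ∈ Dg F n D :=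
  Submodule.subset_span ⟨I, h, rfl⟩

theorem dg_one : (1 : Cube n → F) ∈ Dg F n 0 := by
  have h : (1 : Cube n → F) = mono F ∅ := by
    funext x
    simp [mono]
  rw [h]
  exact dg_monomial (by simp)

theorem dg_const (c : F) (D : ℕ) : (fun _ => c) ∈ Dg F n D := by
  have h : (fun _ => c : Cube n → F) = c • (1 : Cube n → F) := by
    funext x
    simp
  rw [h]
  exact dg_mono (Nat.zero_le _) (Submodule.smul_mem _ _ dg_one)

theorem dg_coord (i : Fin n) : (fun x => bf F (x i)) ∈ Dg F n 1 := by
  have h : (fun x : Cube n => bf F (x i)) = mono F {i} := by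
    funext x
    simp [mono]
  rw [h]
  exact dg_monomial (by simp)

theorem dg_prod {ι : Type} (s : Finset ι) (f : ι → Cube n → F) (D : ℕ)
    (h : ∀ i ∈ s, f i ∈ Dg F n D) : (fun x => ∏ i ∈ s, f i x) ∈ Dg F n (s.card * D) := by
  classical
  induction s using Finset.induction_on with
  | empty =>
    simp only [prod_empty]
    exact dg_const 1 _
  | insert a s ha ih =>
    have h1 : (fun x => ∏ i ∈ insert a s, f i x) = f a * fun x => ∏ i ∈ s, f i x := by
      funext x
      rw [prod_insert ha]
      rfl
    rw [h1, card_insert_of_notMem ha]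
    have h2 := dg_mul (h a (mem_insert_self _ _)) (ih fun i hi => h i (mem_insert_of_mem hi))
    exact dg_mono (by rw [add_mul, one_mul, add_comm]) h2

theorem dg_pow (k : ℕ) {f : Cube n → F} {D : ℕ} (h : f ∈ Dg F n D) :
    (fun x => f x ^ k) ∈ Dg F n (k * D) := by
  have h1 := dg_prod (univ : Finset (Fin k)) (fun _ => f) D (fun _ _ => h)
  simpa using h1

theorem dg_sum {ι : Type} (s : Finset ι) (f : ι → Cube n → F) (D : ℕ)
    (h : ∀ i ∈ s, f i ∈ Dg F n D) : (fun x => ∑ i ∈ s, f i x) ∈ Dg F n D := by
  have h1 := Submodule.sum_mem (Dg F n D) h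
  have h2 : (fun x => ∑ i ∈ s, f i x) = ∑ i ∈ s, f i := by
    funext x
    simp
  rw [h2]
  exact h1

theorem dg_smul (c : F) {f : Cube n → F} {D : ℕ} (h : f ∈ Dg F n D) :
    (fun x => c * f x) ∈ Dg F n D := Submodule.smul_mem _ c h

theorem dg_sub {f g : Cube n → F} {D : ℕ} (hf : f ∈ Dg F n D) (hg : g ∈ Dg F n D) :
    (fun x => f x - g x) ∈ Dg F n D := Submodule.sub_mem _ hf hg

theorem dg_add {f g : Cube n → F} {D : ℕ} (hf : f ∈ Dg F n D) (hg : g ∈ Dg F n D) :
    (fun x => f x + g x) ∈ Dg F n D := Submodule.add_mem _ hf hg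

/-- composition -/
theorem dg_comp {k t D : ℕ} {N : Cube k → Cube n} (hN : ∀ p, (fun x => bf F (N x p)) ∈ Dg F k t)
    {φ : Cube n → F} (hφ : φ ∈ Dg F n D) : (fun x => φ (N x)) ∈ Dg F k (D * t) := by
  refine Submodule.span_induction (p := fun φ _ => (fun x => φ (N x)) ∈ Dg F k (D * t))
    ?_ ?_ ?_ ?_ hφ
  · rintro _ ⟨I, hI, rfl⟩
    have h := dg_prod I (fun p x => bf F (N x p)) t (fun p _ => hN p)
    exact dg_mono (Nat.mul_le_mul_right t hI) h
  · exact dg_const 0 _
  · intro f g _ _ hf hg
    exact dg_add hf hg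
  · intro c f _ hf
    exact dg_smul c hf

/-- functions of few variables -/
theorem dg_junta (J : Finset (Fin n)) (g : Cube n → F)
    (hg : ∀ x y : Cube n, (∀ i ∈ J, x i = y i) → g x = g y) : g ∈ Dg F n J.card := by
  classical
  have key : g = fun x => ∑ I ∈ J.powerset, g (fun i => decide (i ∈ I)) *
      ∏ i ∈ J, (if i ∈ I then bf F (x i) else 1 - bf F (x i)) := by
    funext x
    have h1 : ∀ I ∈ J.powerset, I ≠ J.filter (fun i => x i = true) →
        g (fun i => decide (i ∈ I)) *
          ∏ i ∈ J, (if i ∈ I then bf F (x i) else 1 - bf F (x i)) = 0 := by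
      intro I hI hne
      rw [mem_powerset] at hI
      have h2 : ∃ i ∈ J, ¬ (i ∈ I ↔ x i = true) := by
        by_contra hcon
        push Not at hcon
        apply hne
        ext i
        rw [mem_filter]
        constructor
        · intro hi
          exact ⟨hI hi, (hcon i (hI hi)).1 hi⟩
        · rintro ⟨hi, hx⟩
          exact (hcon i hi).2 hx
      obtain ⟨i, hi, hix⟩ := h2
      rw [prod_eq_zero hi, mul_zero]
      by_cases hiI : i ∈ I
      · rw [if_pos hiI]
        have : ¬ x i = true := fun h => hix ⟨fun _ => h, fun _ => hiI⟩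
        simp [bf, this]
      · rw [if_neg hiI]
        have : x i = true := by
          by_contra h
          exact hix ⟨fun h' => absurd h' hiI, fun h' => absurd h' h⟩
        simp [bf, this]
    rw [sum_eq_single (J.filter (fun i => x i = true)) h1]
    · have h3 : ∏ i ∈ J, (if i ∈ J.filter (fun i => x i = true) then bf F (x i)
          else 1 - bf F (x i)) = 1 := by
        refine prod_eq_one fun i hi => ?_
        by_cases h : x i = true
        · rw [if_pos (mem_filter.2 ⟨hi, h⟩)]
          simp [bf, h]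
        · have h4 : ¬ i ∈ J.filter (fun i => x i = true) := fun h' => h (mem_filter.1 h').2
          rw [if_neg h4]
          simp [bf, h]
      rw [h3, mul_one]
      apply hg
      intro i hi
      by_cases h : x i = true
      · simp [hi, h]
      · simp [hi, h]
    · intro h
      exact absurd (mem_powerset.2 (filter_subset _ _)) h
  rw [key]
  refine dg_sum _ _ _ fun I _ => dg_smul _ ?_
  have h := dg_prod (F := F) (n := n) J
    (fun i x => if i ∈ I then bf F (x i) else 1 - bf F (x i)) 1 (fun i _ => by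
      by_cases h : i ∈ I
      · simp only [if_pos h]
        exact dg_coord i
      · simp only [if_neg h]
        exact dg_sub (dg_const 1 _) (dg_coord i))
  rw [mul_one] at h
  exact h

theorem dg_top : Dg F n n = ⊤ := by
  rw [eq_top_iff]
  intro g _
  have h := dg_junta (univ : Finset (Fin n)) g (fun x y h => by
    congr 1
    funext i
    exact h i (mem_univ i))
  rwa [card_univ, Fintype.card_fin] at h

/-- the dimension -/
theorem dg_finrank (D : ℕ) : Module.finrank F (Dg F n D) ≤
    ∑ i ∈ range (D + 1), n.choose i := by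
  classical
  let T : Finset (Cube n → F) :=
    ((univ : Finset (Finset (Fin n))).filter (fun I => I.card ≤ D)).image (mono F)
  have h1 : {g | ∃ I : Finset (Fin n), I.card ≤ D ∧ g = mono F I} = (T : Set (Cube n → F)) := by
    ext g
    simp only [Set.mem_ofPred_eq, T, coe_image, coe_filter, mem_univ, true_and, Set.mem_image]
    constructor
    · rintro ⟨I, hI, rfl⟩
      exact ⟨I, hI, rfl⟩
    · rintro ⟨I, hI, rfl⟩
      exact ⟨I, hI, rfl⟩
  rw [Dg, h1]
  refine (finrank_span_finset_le_card T).trans (card_image_le.trans ?_)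
  have h2 : (univ : Finset (Finset (Fin n))).filter (fun I => I.card ≤ D) =
      (range (D + 1)).biUnion (fun i => powersetCard i univ) := by
    ext I
    simp only [mem_filter, mem_univ, true_and, mem_biUnion, mem_range, mem_powersetCard,
      subset_univ]
    constructor
    · intro h
      exact ⟨I.card, by omega, rfl⟩
    · rintro ⟨i, hi, h⟩
      omega
  rw [h2]
  refine card_biUnion_le.trans (sum_le_sum fun i _ => ?_)
  rw [card_powersetCard, card_univ, Fintype.card_fin]

end Pool.Agent.U343.Sm
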