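import Pool.Agent.U343.Sm.SingCirc
import Pool.Agent.U343.Sm.Brc

set_option autoImplicit false

/-!
# Symmetric designs with Singer parameters and circuits
-/

namespace Pool.Agent.U343.Sm

open Finset Filter Topology
open Pool.Agent.H177R2.SD (IsSymmetricDesign)

/-- the symmetric design of a difference set -/
theorem design_of_ds {G : Type} [Group G] [Fintype G] [DecidableEq G] (D : Finset G) {v k l : ℕ}
    (hv : Fintype.card G = v) (hk : D.card = k) (hkv : k < v)
    (hl : ∀ g : G, g ≠ 1 → ((D ×ˢ D).filter (fun p : G × G => p.1 * p.2⁻¹ = g)).card = l) :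
    IsSymmetricDesign v k l := by
  let e : Fin v ≃ G := (Fintype.equivFinOfCardEq hv).symm
  refine ⟨hkv, k, fun i => univ.filter (fun x => e x * e i ∈ D), ?_, ?_, ?_⟩
  · intro i
    rw [← hk]
    apply card_bij (fun x _ => e x * e i)
    · intro x hx
      exact (mem_filter.1 hx).2
    · intro x _ y _ h
      exact e.injective (mul_right_cancel h)
    · intro d hd
      refine ⟨e.symm (d * (e i)⁻¹), ?_, ?_⟩
      · rw [mem_filter]
        refine ⟨mem_univ _, ?_⟩
        simpa using hd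
      · simp
  · intro x
    rw [← hk]
    apply card_bij (fun i _ => e x * e i)
    · intro i hi
      have := (mem_filter.1 hi).2
      simpa using this
    · intro i _ j _ h
      exact e.injective (mul_left_cancel h)
    · intro d hd
      refine ⟨e.symm ((e x)⁻¹ * d), ?_, ?_⟩
      · simp [hd]
      · simp
  · intro x y hxy
    rw [← hl (e x * (e y)⁻¹) (by
      intro h
      apply hxy
      apply e.injective
      exact mul_inv_eq_one.1 h)]
    apply card_bij (fun i _ => (e x * e i, e y * e i))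
    · intro i hi
      have := (mem_filter.1 hi).2
      simp only [mem_filter, mem_univ, true_and] at this
      simp only [mem_filter, mem_product]
      refine ⟨this, ?_⟩
      group
    · intro i _ j _ h
      have := congrArg Prod.fst h
      exact e.injective (mul_left_cancel this)
    · intro p hp
      simp only [mem_filter, mem_product] at hp
      refine ⟨e.symm ((e x)⁻¹ * p.1), ?_, ?_⟩
      · simp only [mem_filter, mem_univ, true_and, Equiv.apply_symm_apply, mul_inv_cancel_left]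
        refine ⟨hp.1.1, ?_⟩
        have h1 : e y * ((e x)⁻¹ * p.1) = p.2 := by
          have h2 : (e x)⁻¹ * p.1 = (e y)⁻¹ * p.2 := by
            have h3 := hp.2
            rw [mul_inv_eq_iff_eq_mul] at h3
            rw [h3]
            group
          rw [h2]
          group
        rw [h1]
        exact hp.1.2
      · apply Prod.ext
        · simp
        · simp only [Equiv.apply_symm_apply]
          have h2 : (e x)⁻¹ * p.1 = (e y)⁻¹ * p.2 := by
            have h3 := hp.2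
            rw [mul_inv_eq_iff_eq_mul] at h3
            rw [h3]
            group
          rw [h2]
          group

/-- there is a symmetric design with the parameters of the points and hyperplanes of `PG(m - 1, N)` -/
def Des (N m : ℕ) : Prop :=
  IsSymmetricDesign (∑ i ∈ Finset.range m, N ^ i) (∑ i ∈ Finset.range (m - 1), N ^ i)
    (∑ i ∈ Finset.range (m - 2), N ^ i)

theorem des_prime {p m : ℕ} (hp : p.Prime) (hm : 3 ≤ m) : Des p m := by
  obtain ⟨G, hG, hGf, hGd, D, h1, h2, h3⟩ := singer_prime hp hm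
  have hn1 : 0 < p - 1 := by
    have := hp.two_le
    omega
  have hgeom : ∀ j : ℕ, (∑ i ∈ Finset.range j, p ^ i) * (p - 1) = p ^ j - 1 := by
    intro j
    exact Nat.geomSum_eq hp.two_le j ▸ (Nat.div_mul_cancel (by
      simpa using Nat.sub_dvd_pow_sub_pow p 1 j))
  have hv : Fintype.card G = ∑ i ∈ Finset.range m, p ^ i :=
    Nat.eq_of_mul_eq_mul_right hn1 (h1.trans (hgeom m).symm)
  have hk : D.card = ∑ i ∈ Finset.range (m - 1), p ^ i :=
    Nat.eq_of_mul_eq_mul_right hn1 (h2.trans (hgeom (m - 1)).symm)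
  have hlam : ∀ g : G, g ≠ 1 → ((D ×ˢ D).filter (fun p : G × G => p.1 * p.2⁻¹ = g)).card =
      ∑ i ∈ Finset.range (m - 2), p ^ i := fun g hg =>
    Nat.eq_of_mul_eq_mul_right hn1 ((h3 g hg).trans (hgeom (m - 2)).symm)
  refine design_of_ds D hv hk ?_ hlam
  have e : m = (m - 1) + 1 := by omega
  conv_rhs => rw [e, Finset.sum_range_succ]
  have : 0 < p ^ (m - 1) := pow_pos hp.pos _
  omega

theorem des_not {N m q : ℕ} (hm4 : m % 4 = 3) (h4 : N % 4 = 1) (hq : q.Prime) (hq4 : q % 4 = 3)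
    (h1 : q ∣ N) (h2 : ¬ q ^ 2 ∣ N) : ¬ Des N m := by
  obtain ⟨u, hu⟩ := h1
  have hqu : ¬ q ∣ u := by
    rintro ⟨w, rfl⟩
    exact h2 ⟨w, by rw [hu]; ring⟩
  refine no_design (n := N ^ (m - 2)) (a := (m - 3) / 2) (u := u ^ (m - 2)) ?_ ?_ hq hq4 ?_ ?_ ?_
  · rw [geom_mod_one h4, hm4]
  · have e : m - 1 = (m - 2) + 1 := by omega
    rw [e, Finset.sum_range_succ]
  · have e : m - 2 = (m - 3) + 1 := by omega
    have hN : (N : ZMod q) = 0 := (ZMod.natCast_eq_zero_iff _ _).2 ⟨u, hu⟩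
    rw [e, Finset.sum_range_succ', pow_zero]
    push_cast
    rw [hN]
    simp
  · have e : 2 * ((m - 3) / 2) + 1 = m - 2 := by omega
    rw [e, hu, mul_pow]
  · exact fun h => hqu (hq.dvd_of_dvd_pow h)

open Classical in
theorem des_of_unif {n : ℕ} {f : Cube n → Bool} {x : ℝ} {q : ℕ} (hq : q.Prime)
    (hq4 : q % 4 = 3)
    (h : ∀ T : ℕ → Prop, (∀ p : ℕ, p.Prime → p % 4 = 1 → T p) →
      (∀ N : ℕ, N % 4 = 1 → q ∣ N → ¬ q ^ 2 ∣ N → ¬ T N) →
      x < ({N : ℕ | N < 2 ^ n ∧ N % 4 = 1 ∧ ¬ (f (bits n N) = true ↔ T N)}.ncard : ℝ)) :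
    x < ({N : ℕ | N < 2 ^ n ∧ N % 4 = 1 ∧
      ((f (bits n N) = true ∧ ∀ m : ℕ, m % 4 = 3 → ¬ Des N m) ∨
        (f (bits n N) = false ∧ ∀ m : ℕ, 3 ≤ m → Des N m))}.ncard : ℝ) := by
  have h1 := h (fun N => if f (bits n N) = true then ∃ m : ℕ, m % 4 = 3 ∧ Des N m else
      ∀ m : ℕ, 3 ≤ m → Des N m)
    (fun p hp _ => by
      split_ifs
      · exact ⟨3, rfl, des_prime hp le_rfl⟩
      · exact fun m hm => des_prime hp hm)
    (fun N hN h1 h2 => by
      split_ifs
      · rintro ⟨m, hm, hd⟩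
        exact des_not hm hN hq hq4 h1 h2 hd
      · exact fun hd => des_not rfl hN hq hq4 h1 h2 (hd 3 le_rfl))
  refine lt_of_lt_of_le h1 ?_
  have hfin : {N : ℕ | N < 2 ^ n ∧ N % 4 = 1 ∧
      ((f (bits n N) = true ∧ ∀ m : ℕ, m % 4 = 3 → ¬ Des N m) ∨
        (f (bits n N) = false ∧ ∀ m : ℕ, 3 ≤ m → Des N m))}.Finite :=
    (Set.finite_lt_nat (2 ^ n)).subset fun N hN => hN.1
  have hsub : {N : ℕ | N < 2 ^ n ∧ N % 4 = 1 ∧ ¬ (f (bits n N) = true ↔
      (if f (bits n N) = true then ∃ m : ℕ, m % 4 = 3 ∧ Des N m else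
        ∀ m : ℕ, 3 ≤ m → Des N m))} ⊆
      {N : ℕ | N < 2 ^ n ∧ N % 4 = 1 ∧
      ((f (bits n N) = true ∧ ∀ m : ℕ, m % 4 = 3 → ¬ Des N m) ∨
        (f (bits n N) = false ∧ ∀ m : ℕ, 3 ≤ m → Des N m))} := by
    rintro N ⟨h2, h3, h4⟩
    refine ⟨h2, h3, ?_⟩
    by_cases hf : f (bits n N) = true
    · left
      refine ⟨hf, fun m hm hd => h4 ?_⟩
      rw [if_pos hf]
      exact ⟨fun _ => ⟨m, hm, hd⟩, fun _ => hf⟩
    · right
      refine ⟨by simpa using hf, ?_⟩
      by_contra hcon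
      apply h4
      rw [if_neg hf]
      exact ⟨fun h => absurd h hf, fun h => absurd h hcon⟩
  exact_mod_cast Set.ncard_le_ncard hsub hfin

theorem des_circuits {r : ℕ} (hr : r.Prime) (d : ℕ) :
    ∃ κ : ℝ, 0 < κ ∧ ∀ᶠ n : ℕ in atTop, ∀ (S : ℕ) (f : Cube n → Bool),
      Circuit r S n d f → (S : ℝ) ≤ 2 ^ ((n : ℝ) ^ (1 / (2 * (d : ℝ) + 5))) →
      κ * 2 ^ n / n <
        ({N : ℕ | N < 2 ^ n ∧ N % 4 = 1 ∧
          ((f (bits n N) = true ∧ ∀ m : ℕ, m % 4 = 3 → ¬ Des N m) ∨
            (f (bits n N) = false ∧ ∀ m : ℕ, 3 ≤ m → Des N m))}.ncard : ℝ) := by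
  by_cases h3 : r = 3
  · obtain ⟨κ, hκ, h⟩ := real_unif hr (by norm_num : Nat.Prime 7) (by norm_num) (by omega) d
    exact ⟨κ, hκ, h.mono fun n hn S f hC hS =>
      des_of_unif (by norm_num : Nat.Prime 7) (by norm_num) (hn S f hC hS)⟩
  · obtain ⟨κ, hκ, h⟩ := real_unif hr (by norm_num : Nat.Prime 3) (by norm_num)
      (fun h => h3 h.symm) d
    exact ⟨κ, hκ, h.mono fun n hn S f hC hS =>
      des_of_unif (by norm_num : Nat.Prime 3) (by norm_num) (hn S f hC hS)⟩

end Pool.Agent.U343.Sm
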