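import Mathlib

set_option autoImplicit false

/-!
# The choice of the parameters
-/

namespace Pool.Agent.U343.Sm

open Finset Filter Topology

theorem ev (K : ℝ) (j : ℕ) : ∀ᶠ b : ℕ in atTop, K * (b : ℝ) ^ j ≤ 2 ^ b := by
  have h := tendsto_pow_const_div_const_pow_of_one_lt j (one_lt_two : (1 : ℝ) < 2)
  have h1 := (h.const_mul (|K| + 1)).eventually_lt_const (u := 1) (by simp)
  filter_upwards [h1] with b hb
  have h2 : (0 : ℝ) < 2 ^ b := by positivity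
  have h3 : (|K| + 1) * (b : ℝ) ^ j ≤ 2 ^ b := by
    rw [mul_div_assoc', div_lt_one h2] at hb
    exact hb.le
  refine le_trans ?_ h3
  have : K ≤ |K| + 1 := by linarith [le_abs_self K]
  gcongr

theorem num_deg {r d l W b n g m : ℕ} (hW : W + 1 ≤ 2 * l) (hl : l = 4 * (d + 2) * b)
    (hg : 0 < g) (hB : 1024 * r ^ (2 * d + 2) * (4 * (d + 2)) ^ (2 * d + 4) * (4 * g) ≤ b)
    (hn : b ^ (2 * d + 5) ≤ n) (hm : m = n / (4 * g)) :
    64 * ((l * ((r - 1) * ((l * (r - 1)) ^ d * (W + 1)))) +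
        (l * ((r - 1) * ((l * (r - 1)) ^ d * (W + 1))))) ^ 2 ≤ 3 * m + 4 := by
  have hΔ : l * ((r - 1) * ((l * (r - 1)) ^ d * (W + 1))) ≤ 2 * r ^ (d + 1) * l ^ (d + 2) := by
    have h6 : (l * (r - 1)) ^ d ≤ (l * r) ^ d :=
      Nat.pow_le_pow_left (Nat.mul_le_mul_left _ (Nat.sub_le _ _)) _
    calc l * ((r - 1) * ((l * (r - 1)) ^ d * (W + 1))) ≤ l * (r * ((l * r) ^ d * (2 * l))) := by
          gcongr
          exact Nat.sub_le _ _
      _ = 2 * r ^ (d + 1) * l ^ (d + 2) := by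
          rw [mul_pow, pow_succ r d, pow_succ l (d + 1), pow_succ l d]
          ring
  generalize l * ((r - 1) * ((l * (r - 1)) ^ d * (W + 1))) = D at hΔ ⊢
  have h5 : 64 * (D + D) ^ 2 ≤ 1024 * r ^ (2 * d + 2) * (4 * (d + 2)) ^ (2 * d + 4) *
      b ^ (2 * d + 4) := by
    calc 64 * (D + D) ^ 2 = 256 * D ^ 2 := by ring
      _ ≤ 256 * (2 * r ^ (d + 1) * l ^ (d + 2)) ^ 2 := by gcongr
      _ = 1024 * r ^ (2 * d + 2) * l ^ (2 * d + 4) := by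
        rw [mul_pow, mul_pow, ← pow_mul, ← pow_mul]
        ring
      _ = _ := by
        rw [hl, mul_pow (4 * (d + 2)) b]
        ring
  generalize 1024 * r ^ (2 * d + 2) * (4 * (d + 2)) ^ (2 * d + 4) = K1 at hB h5
  have h8 : (4 * g) * (K1 * b ^ (2 * d + 4)) ≤ n := by
    calc (4 * g) * (K1 * b ^ (2 * d + 4)) = (K1 * (4 * g)) * b ^ (2 * d + 4) := by ring
      _ ≤ b * b ^ (2 * d + 4) := Nat.mul_le_mul_right _ hB
      _ = b ^ (2 * d + 5) := by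
        rw [show 2 * d + 5 = (2 * d + 4) + 1 by ring, pow_succ b (2 * d + 4)]
        ring
      _ ≤ n := hn
  have h9 : K1 * b ^ (2 * d + 4) ≤ m := by
    rw [hm, Nat.le_div_iff_mul_le (by positivity)]
    linarith
  omega

theorem num_prime {g m h t : ℕ} {c : ℝ} (hc : 0 < c) (ht : 0 < t)
    (hgm : g * (2 * m + 1) + 1 ≤ h + g + 1) (h1 : 2 * h ≤ t + 1) (h2 : t ≤ 2 * h + 2)
    (h4 : (2 : ℝ) ^ (g + 5) * (2 * h + 2) / c ≤ 2 ^ h) :
    (2 : ℝ) ^ (g * (2 * m + 1) + 1) + 1 ≤ c * 2 ^ t / (2 * t) := by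
  have htr : (0 : ℝ) < t := by exact_mod_cast ht
  have h5 : (2 : ℝ) ^ (g * (2 * m + 1) + 1) + 1 ≤ 2 ^ (h + g + 2) := by
    have h6 : (2 : ℝ) ^ (g * (2 * m + 1) + 1) ≤ 2 ^ (h + g + 1) :=
      pow_le_pow_right₀ (by norm_num) hgm
    have h7 : (1 : ℝ) ≤ 2 ^ (h + g + 1) := one_le_pow₀ (by norm_num)
    have h8 : (2 : ℝ) ^ (h + g + 2) = 2 * 2 ^ (h + g + 1) := by rw [← pow_succ']
    rw [h8]
    linarith
  refine h5.trans ?_
  rw [le_div_iff₀ (by positivity)]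
  have h9 : (2 : ℝ) ^ (g + 5) * (2 * h + 2) ≤ c * 2 ^ h := by
    rw [div_le_iff₀ hc] at h4
    linarith
  have h10 : (2 : ℝ) ^ (2 * h) ≤ 2 * 2 ^ t := by
    rw [← pow_succ']
    exact pow_le_pow_right₀ (by norm_num) h1
  have h11 : (t : ℝ) ≤ 2 * h + 2 := by exact_mod_cast h2
  calc (2 : ℝ) ^ (h + g + 2) * (2 * t) ≤ 2 ^ (h + g + 2) * (2 * (2 * h + 2)) := by gcongr
    _ = (2 ^ (g + 5) * (2 * h + 2)) * 2 ^ h / 4 := by
      rw [show h + g + 2 = h + (g + 2) by ring, pow_add 2 h, show g + 5 = (g + 2) + 3 by ring,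
        pow_add 2 (g + 2) 3]
      ring
    _ ≤ (c * 2 ^ h) * 2 ^ h / 4 := by gcongr
    _ = c * 2 ^ (2 * h) / 4 := by
      rw [two_mul, pow_add]
      ring
    _ ≤ c * (2 * 2 ^ t) / 4 := by gcongr
    _ ≤ c * 2 ^ t := by
      have : 0 < c * (2 : ℝ) ^ t := by positivity
      linarith

theorem num_S {S b d l : ℕ} (hb : 1 ≤ b) (hS : S ≤ 2 ^ (2 * b)) (hl : l = 4 * (d + 2) * b) :
    ((S : ℝ) + 1) ^ d * (1 / 2) ^ l ≤ 1 / 2 ^ b := by
  have h5 : (S : ℝ) + 1 ≤ 2 ^ (3 * b) := by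
    have h6 : (S : ℝ) ≤ 2 ^ (2 * b) := by exact_mod_cast hS
    have h7 : (1 : ℝ) ≤ 2 ^ (2 * b) := one_le_pow₀ (by norm_num)
    have h8 : (2 : ℝ) ^ (3 * b) = 2 ^ (2 * b) * 2 ^ b := by
      rw [← pow_add]
      congr 1
      ring
    have h9 : (2 : ℝ) ≤ 2 ^ b := by
      calc (2 : ℝ) = 2 ^ 1 := by norm_num
        _ ≤ 2 ^ b := pow_le_pow_right₀ (by norm_num) hb
    rw [h8]
    nlinarith
  have h10 : ((S : ℝ) + 1) ^ d ≤ 2 ^ (3 * b * d) := by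
    rw [pow_mul]
    exact pow_le_pow_left₀ (by positivity) h5 d
  have h11 : 3 * b * d + b ≤ l := by
    rw [hl, show 4 * (d + 2) * b = (3 * b * d + b) + (d + 7) * b by ring]
    exact Nat.le_add_right _ _
  calc ((S : ℝ) + 1) ^ d * (1 / 2) ^ l ≤ 2 ^ (3 * b * d) * (1 / 2) ^ l :=
        mul_le_mul_of_nonneg_right h10 (by positivity)
    _ = 2 ^ (3 * b * d) / 2 ^ l := by rw [one_div_pow, mul_one_div]
    _ ≤ 1 / 2 ^ b := by
      rw [div_le_div_iff₀ (by positivity) (by positivity), one_mul, ← pow_add]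
      exact pow_le_pow_right₀ (by norm_num) h11

theorem num_l {b d l : ℕ} (hl : l = 4 * (d + 2) * b) : ((1 : ℝ) / 2) ^ l ≤ 1 / 2 ^ b := by
  rw [one_div_pow]
  have h : b ≤ l := by
    rw [hl]
    exact Nat.le_mul_of_pos_left _ (by positivity)
  have h1 : (2 : ℝ) ^ b ≤ 2 ^ l := pow_le_pow_right₀ (by norm_num) h
  exact one_div_le_one_div_of_le (by positivity) h1

theorem num_err {q C1 n b L : ℕ} (hq : 1 ≤ q) (hL : L = C1 * n) (hn : 1 ≤ n) {x y z1 z2 w : ℝ}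
    (hK : 64 * (q : ℝ) * (2 * C1 + 4 + 2 * C1 * (8 * (q : ℝ) ^ 2) + 8 * (q : ℝ) ^ 2) *
      (n : ℝ) ^ 2 ≤ 2 ^ b)
    (hx : x ≤ 1 / 2 ^ b) (hy : y ≤ 1 / 2 ^ b)
    (hz1 : z1 ≤ 8 * (q : ℝ) ^ 2 * n * (1 / 2 ^ b))
    (hz2 : z2 ≤ 1 / (64 * q * (C1 + 1) * n)) (hw : w ≤ 1 / (64 * q)) :
    z1 + z2 ≤ 1 ∧ (q : ℝ) * (((L * x + y) + (L * x + y)) +
      ((L * (z1 + z2) + w) + (L * (z1 + z2) + w))) < 3 / 8 := by
  have hq1 : (1 : ℝ) ≤ q := by exact_mod_cast hq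
  have hq0 : (0 : ℝ) < q := by linarith
  have hn1 : (1 : ℝ) ≤ n := by exact_mod_cast hn
  have hn0 : (0 : ℝ) < n := by linarith
  have hnn : (n : ℝ) ≤ (n : ℝ) ^ 2 := by nlinarith
  have h1n : (1 : ℝ) ≤ (n : ℝ) ^ 2 := one_le_pow₀ hn1
  have hC : (0 : ℝ) ≤ C1 := Nat.cast_nonneg _
  have h2b : (0 : ℝ) < 2 ^ b := by positivity
  have hLr : (L : ℝ) = C1 * n := by
    rw [hL]
    push_cast
    rfl
  have hL0 : (0 : ℝ) ≤ L := Nat.cast_nonneg _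
  constructor
  · have e1 : z1 ≤ 1 / 2 := by
      refine hz1.trans ?_
      rw [mul_one_div, div_le_div_iff₀ h2b (by norm_num), one_mul]
      refine le_trans ?_ hK
      have h5 : 8 * (q : ℝ) ^ 2 * n * 2 ≤ 16 * (q : ℝ) ^ 2 * (n : ℝ) ^ 2 := by
        have : 8 * (q : ℝ) ^ 2 * n ≤ 8 * (q : ℝ) ^ 2 * (n : ℝ) ^ 2 := by gcongr
        linarith
      refine h5.trans ?_
      refine mul_le_mul_of_nonneg_right ?_ (by positivity)
      have h6 : (0 : ℝ) ≤ 2 * C1 + 4 + 2 * C1 * (8 * (q : ℝ) ^ 2) := by positivity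
      calc 16 * (q : ℝ) ^ 2 = 2 * (8 * (q : ℝ) ^ 2) := by ring
        _ ≤ 64 * (q : ℝ) * (2 * C1 + 4 + 2 * C1 * (8 * (q : ℝ) ^ 2) + 8 * (q : ℝ) ^ 2) := by
          gcongr
          · linarith
          · linarith
    have e2 : z2 ≤ 1 / 2 := by
      refine hz2.trans ?_
      apply one_div_le_one_div_of_le (by norm_num)
      have h7 : (1 : ℝ) ≤ q * (C1 + 1) * n := by
        have h8 : (1 : ℝ) ≤ q * (C1 + 1) := by nlinarith
        nlinarith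
      linarith
    linarith
  · have h1 : (L : ℝ) * x ≤ C1 * (n : ℝ) ^ 2 * (1 / 2 ^ b) := by
      calc (L : ℝ) * x ≤ L * (1 / 2 ^ b) := mul_le_mul_of_nonneg_left hx hL0
        _ = C1 * n * (1 / 2 ^ b) := by rw [hLr]
        _ ≤ C1 * (n : ℝ) ^ 2 * (1 / 2 ^ b) := by gcongr
    have h2 : y ≤ (n : ℝ) ^ 2 * (1 / 2 ^ b) := by
      refine hy.trans ?_
      calc (1 : ℝ) / 2 ^ b = 1 * (1 / 2 ^ b) := by ring
        _ ≤ (n : ℝ) ^ 2 * (1 / 2 ^ b) := by gcongr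
    have h3 : (L : ℝ) * z1 ≤ C1 * (8 * (q : ℝ) ^ 2) * (n : ℝ) ^ 2 * (1 / 2 ^ b) := by
      calc (L : ℝ) * z1 ≤ L * (8 * (q : ℝ) ^ 2 * n * (1 / 2 ^ b)) :=
            mul_le_mul_of_nonneg_left hz1 hL0
        _ = C1 * n * (8 * (q : ℝ) ^ 2 * n * (1 / 2 ^ b)) := by rw [hLr]
        _ = _ := by ring
    have h3' : (L : ℝ) * z2 ≤ 1 / (64 * q) := by
      calc (L : ℝ) * z2 ≤ L * (1 / (64 * q * (C1 + 1) * n)) := mul_le_mul_of_nonneg_left hz2 hL0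
        _ = C1 / (C1 + 1) * (1 / (64 * q)) := by
          rw [hLr]
          field_simp
        _ ≤ 1 * (1 / (64 * q)) := by
          refine mul_le_mul_of_nonneg_right ?_ (by positivity)
          rw [div_le_one (by positivity)]
          linarith
        _ = 1 / (64 * q) := one_mul _
    have h4 : ((L * x + y) + (L * x + y)) + ((L * (z1 + z2) + w) + (L * (z1 + z2) + w)) ≤
        (2 * C1 + 4 + 2 * C1 * (8 * (q : ℝ) ^ 2)) * (n : ℝ) ^ 2 * (1 / 2 ^ b) +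
          4 * (1 / (64 * q)) := by
      have h5 : (0 : ℝ) ≤ (n : ℝ) ^ 2 * (1 / 2 ^ b) := by positivity
      have e1 : (2 * C1 + 4 + 2 * C1 * (8 * (q : ℝ) ^ 2)) * (n : ℝ) ^ 2 * (1 / 2 ^ b) =
        2 * (C1 * (n : ℝ) ^ 2 * (1 / 2 ^ b)) + 4 * ((n : ℝ) ^ 2 * (1 / 2 ^ b)) +
          2 * (C1 * (8 * (q : ℝ) ^ 2) * (n : ℝ) ^ 2 * (1 / 2 ^ b)) := by ring
      rw [e1, mul_add]
      linarith
    have h6 : (2 * C1 + 4 + 2 * C1 * (8 * (q : ℝ) ^ 2)) * (n : ℝ) ^ 2 * (1 / 2 ^ b) ≤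
        1 / (64 * q) := by
      rw [mul_one_div, div_le_div_iff₀ h2b (by positivity)]
      have h7 : 0 ≤ 64 * (q : ℝ) * (8 * (q : ℝ) ^ 2) * (n : ℝ) ^ 2 := by positivity
      linarith
    calc (q : ℝ) * (((L * x + y) + (L * x + y)) +
        ((L * (z1 + z2) + w) + (L * (z1 + z2) + w))) ≤
        q * (5 * (1 / (64 * q))) := mul_le_mul_of_nonneg_left (by linarith) hq0.le
      _ = 5 / 64 := by field_simp
      _ < 3 / 8 := by norm_num

theorem num_samples {c : ℝ} (hc : 0 < c) {q C1 n t : ℕ} (hq : 1 ≤ q)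
    (hC1 : 2 * Real.log (64 * q) / c ≤ C1) (ht : 0 < t) (htn : t ≤ n) (hct : c / (2 * t) ≤ 1) :
    (1 - c / (2 * t)) ^ (C1 * n) ≤ 1 / (64 * (q : ℝ)) := by
  have htr : (0 : ℝ) < t := by exact_mod_cast ht
  have hqr : (0 : ℝ) < q := by exact_mod_cast hq
  have h1 : (1 - c / (2 * t)) ^ (C1 * n) ≤ Real.exp (-(c / (2 * t)) * ((C1 * n : ℕ) : ℝ)) := by
    have h2 : 1 - c / (2 * t) ≤ Real.exp (-(c / (2 * t))) := by
      have := Real.add_one_le_exp (-(c / (2 * t)))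
      linarith
    calc (1 - c / (2 * t)) ^ (C1 * n) ≤ (Real.exp (-(c / (2 * t)))) ^ (C1 * n) :=
          pow_le_pow_left₀ (by linarith) h2 _
      _ = _ := by
        rw [← Real.exp_nat_mul]
        congr 1
        ring
  refine h1.trans ?_
  have h3 : Real.log (64 * q) ≤ (c / (2 * t)) * ((C1 * n : ℕ) : ℝ) := by
    have h4 : 2 * Real.log (64 * q) ≤ C1 * c := by
      rwa [div_le_iff₀ hc] at hC1
    have h5 : (t : ℝ) ≤ n := by exact_mod_cast htn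
    have hC0 : (0 : ℝ) ≤ C1 := Nat.cast_nonneg _
    push_cast
    rw [div_mul_eq_mul_div, le_div_iff₀ (by positivity)]
    calc Real.log (64 * q) * (2 * t) = (2 * Real.log (64 * q)) * t := by ring
      _ ≤ (C1 * c) * t := by gcongr
      _ ≤ (C1 * c) * n := by gcongr
      _ = c * (C1 * n) := by ring
  calc Real.exp (-(c / (2 * t)) * ((C1 * n : ℕ) : ℝ)) ≤ Real.exp (-Real.log (64 * q)) := by
        apply Real.exp_le_exp.2
        linarith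
    _ = 1 / (64 * (q : ℝ)) := by
      rw [Real.exp_neg, Real.exp_log (by positivity), one_div]

end Pool.Agent.U343.Sm
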