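import Pool.Agent.U343.Sm.Prim
import Pool.Agent.U343.Sm.Num

set_option autoImplicit false

/-!
# The lower bound
-/

namespace Pool.Agent.U343.Sm

open Finset Filter Topology

theorem window_real {t W : ℕ} (h : W ≤ t) : ((2 ^ (t - W) : ℕ) : ℝ) = 2 ^ t / 2 ^ W := by
  push_cast
  rw [eq_div_iff (by positivity), ← pow_add]
  congr 1
  omega

open Classical in
/-- the contradiction for given parameters -/
theorem contra {r q g n t W l L S d m N0 : ℕ} (hr : r.Prime) (hq : q.Prime) (hq4 : q % 4 = 3)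
    (hqr : q ≠ r) (hg : 2 ≤ g) (hg2 : 2 ^ g % q ^ 2 = 1 % q ^ 2) {T : ℕ → Prop}
    (hTp : ∀ p : ℕ, p.Prime → p % 4 = 1 → T p)
    (hTq : ∀ N : ℕ, N % 4 = 1 → q ∣ N → ¬ q ^ 2 ∣ N → ¬ T N)
    {f : Cube n → Bool} (hC : Circuit r S n d f) (hnt : n = t + 1)
    {c : ℝ} (hc : 0 < c)
    (hpr : ∀ a : ZMod (4 * q ^ 2), IsUnit a → ∀ N : ℕ, N0 ≤ N → c * N / Real.log N ≤
      (((range (N + 1)).filter (fun p : ℕ => p.Prime ∧ (p : ZMod (4 * q ^ 2)) = a)).card : ℝ))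
    (hl : 1 ≤ l) (hN0 : N0 ≤ 2 ^ t) (hM : 2 * (4 * q ^ 2) ≤ 2 ^ t) (ht : 1 ≤ t) (hWt : W ≤ t)
    (hgk : g * (2 * m + 1) + 1 ≤ t)
    (hprime : (2 : ℝ) ^ (g * (2 * m + 1) + 1) + 1 ≤ c * 2 ^ t / (2 * t))
    (hdeg : 64 * ((l * ((r - 1) * ((l * (r - 1)) ^ d * (W + 1)))) +
        (l * ((r - 1) * ((l * (r - 1)) ^ d * (W + 1))))) ^ 2 ≤ 3 * m + 4)
    {η : ℝ} (hη : η = 2 * (4 * (q : ℝ) ^ 2) * n / 2 ^ W +
      2 * (4 * (q : ℝ) ^ 2) * (errs f T).card / 2 ^ t)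
    (hη1 : η ≤ 1) (hδ1 : c / (2 * t) ≤ 1) :
    3 / 8 ≤ (q : ℝ) * (((L * (((S : ℝ) + 1) ^ d * (1 / 2) ^ l) + (1 / 2) ^ l) +
      (L * (((S : ℝ) + 1) ^ d * (1 / 2) ^ l) + (1 / 2) ^ l)) +
        ((L * η + (1 - c / (2 * t)) ^ L) + (L * η + (1 - c / (2 * t)) ^ L))) := by
  have : Fact r.Prime := ⟨hr⟩
  have : NeZero (q : ZMod r) := ⟨by
    rw [Ne, ZMod.natCast_eq_zero_iff]
    intro h
    exact hqr ((Nat.prime_dvd_prime_iff_eq hr hq).1 h).symm⟩
  have hqF : (q : AlgebraicClosure (ZMod r)) ≠ 0 := by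
    have h1 : ((q : ZMod r) : ZMod r) ≠ 0 := NeZero.ne _
    intro h
    apply h1
    apply (algebraMap (ZMod r) (AlgebraicClosure (ZMod r))).injective
    rw [map_natCast, map_zero]
    exact h
  have : NeZero (q : AlgebraicClosure (ZMod r)) := ⟨hqF⟩
  have : NeZero q := ⟨hq.ne_zero⟩
  obtain ⟨ω, hω⟩ := HasEnoughRootsOfUnity.exists_primitiveRoot (AlgebraicClosure (ZMod r)) q
  have hω1 : ω ≠ 1 := by
    intro h
    rw [h] at hω
    have h1 := hω.eq_orderOf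
    rw [orderOf_one] at h1
    exact hq.one_lt.ne' h1
  have hω0 : ω ≠ 0 := hω.ne_zero hq.ne_zero
  have hM0 : 0 < 4 * q ^ 2 := by
    have := hq.pos
    positivity
  have htr : (0 : ℝ) < t := by exact_mod_cast ht
  -- the number of the shifts
  have hcard : ∀ s u : ℕ, (2 : ℝ) ^ t / (2 * (4 * (q : ℝ) ^ 2)) ≤ ((shifts q t s u).card : ℝ) := by
    intro s u
    have h1 := class_card hM0 (2 ^ t) (cls q s u)
    have h2 : 2 ^ t ≤ 2 * (4 * q ^ 2) * (2 ^ t / (4 * q ^ 2)) := by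
      have h3 := Nat.div_add_mod (2 ^ t) (4 * q ^ 2)
      have h4 := Nat.mod_lt (2 ^ t) hM0
      have h5 : 4 * q ^ 2 ≤ 4 * q ^ 2 * (2 ^ t / (4 * q ^ 2)) :=
        Nat.le_mul_of_pos_right _ (Nat.div_pos (by omega) hM0)
      have h6 : 2 * (4 * q ^ 2) * (2 ^ t / (4 * q ^ 2)) =
        2 * (4 * q ^ 2 * (2 ^ t / (4 * q ^ 2))) := by ring
      omega
    have h3 : 2 ^ t ≤ 2 * (4 * q ^ 2) * (shifts q t s u).card :=
      h2.trans (Nat.mul_le_mul_left _ h1)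
    have h4 : (2 : ℝ) ^ t ≤ 2 * (4 * (q : ℝ) ^ 2) * ((shifts q t s u).card : ℝ) := by
      exact_mod_cast h3
    have hq0 : (0 : ℝ) < q := by exact_mod_cast hq.pos
    rw [div_le_iff₀ (by positivity)]
    linarith
  have hcard2 : ∀ s u : ℕ, ((shifts q t s u).card : ℝ) ≤ 2 ^ t := by
    intro s u
    have h1 : (shifts q t s u).card ≤ 2 ^ t := by
      refine (card_filter_le _ _).trans ?_
      rw [card_range]
    exact_mod_cast h1
  have henc : ∀ x : Cube (2 * m + 1), enc g x < 2 ^ (g * (2 * m + 1) + 1) :=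
    fun x => enc_lt (by omega) x
  have hlt : ∀ (x : Cube (2 * m + 1)), ∀ A < 2 ^ t, A + enc g x < 2 ^ n := by
    intro x A hA
    have h1 := henc x
    have h2 : 2 ^ (g * (2 * m + 1) + 1) ≤ 2 ^ t := Nat.pow_le_pow_right (by norm_num) hgk
    rw [hnt, pow_succ]
    omega
  refine core (F := AlgebraicClosure (ZMod r)) (η := η)
    (δ := c / (2 * t)) hω1 hω0 hω.pow_eq_one (by omega : 1 ≤ g) hq.pos hl hC T
    (fun s u => shifts q t s u) ?_ hη1 hδ1 ?_ ?_ ?_ rfl hdeg rfl rfl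
  · intro s _ u _
    rw [← card_pos]
    have h1 := hcard s u
    have hq0 : (0 : ℝ) < q := by exact_mod_cast hq.pos
    have h2 : (0 : ℝ) < 2 ^ t / (2 * (4 * (q : ℝ) ^ 2)) := by positivity
    have h3 : (0 : ℝ) < ((shifts q t s u).card : ℝ) := lt_of_lt_of_le h2 h1
    exact_mod_cast h3
  · intro s _ u _ x
    have h1 := wrong_card (q := q) (s := s) (u := u) (g := g) (W := W) hnt x
    have h1' := err_card (q := q) (t := t) (s := s) (u := u) hq4 hg (T := T) f x (hlt x)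
    have h2 : (((shifts q t s u).filter fun A => Bad g W f T A x).card : ℝ) ≤
        n * (2 ^ t / 2 ^ W) + (errs f T).card := by
      have h4 : ((shifts q t s u).filter fun A => Bad g W f T A x).card ≤
          n * 2 ^ (t - W) + (errs f T).card := by
        refine le_trans ?_ (Nat.add_le_add h1 h1')
        refine le_trans (card_le_card ?_) (card_union_le _ _)
        intro A hA
        rw [mem_filter] at hA
        rw [mem_union, mem_filter, mem_filter]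
        rcases hA.2 with h | h
        · exact Or.inl ⟨hA.1, h⟩
        · exact Or.inr ⟨hA.1, h⟩
      have h3 : (((shifts q t s u).filter fun A => Bad g W f T A x).card : ℝ) ≤
          ((n * 2 ^ (t - W) + (errs f T).card : ℕ) : ℝ) := by exact_mod_cast h4
      rw [Nat.cast_add, Nat.cast_mul, window_real hWt] at h3
      exact h3
    refine h2.trans ?_
    have hq0 : (0 : ℝ) < q := by exact_mod_cast hq.pos
    calc (n : ℝ) * (2 ^ t / 2 ^ W) + (errs f T).card = η * (2 ^ t / (2 * (4 * (q : ℝ) ^ 2))) := by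
          rw [hη]
          field_simp
      _ ≤ η * ((shifts q t s u).card : ℝ) :=
          mul_le_mul_of_nonneg_left (hcard s u) (by
            rw [hη]
            positivity)
  · intro s hs u _ x hx
    have h1 := miss (u := u) hq hq4 hs hg hg2 hTp x hx hN0 hpr
    refine le_trans ?_ h1
    have h2 : ((enc g x : ℕ) : ℝ) ≤ 2 ^ (g * (2 * m + 1) + 1) := by
      have := henc x
      exact_mod_cast this.le
    have h3 : Real.log ((2 ^ t : ℕ) : ℝ) ≤ t := by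
      rw [Nat.cast_pow, Real.log_pow]
      have h4 : Real.log ((2 : ℕ) : ℝ) ≤ 1 := by
        have := Real.log_two_lt_d9
        push_cast
        linarith
      nlinarith
    have h5 : 0 < Real.log ((2 ^ t : ℕ) : ℝ) := by
      rw [Nat.cast_pow, Real.log_pow]
      have h4 : 0 < Real.log ((2 : ℕ) : ℝ) := Real.log_pos (by norm_num)
      positivity
    have h6 : c * 2 ^ t / t ≤ c * ((2 ^ t : ℕ) : ℝ) / Real.log ((2 ^ t : ℕ) : ℝ) := by
      push_cast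
      push_cast at h3 h5
      exact div_le_div_of_nonneg_left (by positivity) h5 h3
    have h7 : c / (2 * t) * ((shifts q t s u).card : ℝ) ≤ c / (2 * t) * 2 ^ t :=
      mul_le_mul_of_nonneg_left (hcard2 s u) (by positivity)
    have h8 : c / (2 * t) * 2 ^ t = c * 2 ^ t / (2 * t) := by ring
    have h9 : c * 2 ^ t / t = c * 2 ^ t / (2 * t) + c * 2 ^ t / (2 * t) := by
      field_simp
      ring
    linarith
  · intro x
    exact hit hq hq4 hg hg2 hTq x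

/-- the lower bound, in terms of an integer `b` with `b ^ (2 d + 5) ≤ n < (b + 1) ^ (2 d + 5)` -/
theorem lower {r q : ℕ} (hr : r.Prime) (hq : q.Prime) (hq4 : q % 4 = 3) (hqr : q ≠ r)
    {T : ℕ → Prop} (hTp : ∀ p : ℕ, p.Prime → p % 4 = 1 → T p)
    (hTq : ∀ N : ℕ, N % 4 = 1 → q ∣ N → ¬ q ^ 2 ∣ N → ¬ T N) (d : ℕ) :
    ∃ κ : ℝ, 0 < κ ∧ ∃ b0 : ℕ, ∀ b ≥ b0, ∀ n : ℕ, b ^ (2 * d + 5) ≤ n →
      n < (b + 1) ^ (2 * d + 5) → ∀ S ≤ 2 ^ (2 * b), ∀ f : Cube n → Bool, Circuit r S n d f →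
        κ * 2 ^ n / n < (errs f T).card := by
  have hq1 : 1 ≤ q := hq.pos
  have : NeZero (4 * q ^ 2) := ⟨by positivity⟩
  obtain ⟨c, hc, hc1, N0, hpr⟩ := primes_uniform (4 * q ^ 2)
  set g := q * (q - 1) with hgdef
  have hg2 := two_pow_g hq hq4
  have hg : 2 ≤ g := by
    have h3 : 3 ≤ q := by omega
    have : 3 * 2 ≤ q * (q - 1) := Nat.mul_le_mul h3 (by omega)
    omega
  obtain ⟨C1, hC1⟩ : ∃ C1 : ℕ, 2 * Real.log (64 * q) / c ≤ C1 := exists_nat_ge _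
  set e := 2 * d + 5 with he
  have ev1 : ∀ᶠ b : ℕ in atTop, 1024 * r ^ (2 * d + 2) * (4 * (d + 2)) ^ (2 * d + 4) *
      (4 * g) ≤ b := eventually_ge_atTop _
  have ev2 := ev (64 * q * (2 * C1 + 4 + 2 * C1 * (8 * (q : ℝ) ^ 2) + 8 * (q : ℝ) ^ 2) *
    2 ^ (2 * e)) (2 * e)
  have ev3 : ∀ᶠ h : ℕ in atTop, (2 : ℝ) ^ (g + 5) * (2 * h + 2) / c ≤ 2 ^ h := by
    have h1 := ev ((2 : ℝ) ^ (g + 5) * 4 / c) 1
    filter_upwards [h1, eventually_ge_atTop 1] with h h2 h3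
    refine le_trans ?_ h2
    have h4 : (1 : ℝ) ≤ h := by exact_mod_cast h3
    rw [pow_one, div_mul_eq_mul_div, mul_assoc]
    gcongr
    linarith
  obtain ⟨b1, hb1⟩ := eventually_atTop.1 (ev1.and ev2)
  obtain ⟨h1, hh1⟩ := eventually_atTop.1 ev3
  refine ⟨1 / (1024 * q ^ 3 * (C1 + 1)), by positivity,
    b1 + 2 * h1 + N0 + 16 * q ^ 2 + 8 * g + 4 * (d + 2) + 10, ?_⟩
  intro b hb n hn1 hn2 S hS f hC
  by_contra hsmall
  rw [not_lt] at hsmall
  obtain ⟨hB1, hB2⟩ := hb1 b (by omega)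
  have hbig : 10 ≤ b := by omega
  have hnb : b * b ≤ n := by
    refine le_trans ?_ hn1
    rw [he, show 2 * d + 5 = (2 * d + 3) + 2 by ring, pow_add]
    have h2 : 1 ≤ b ^ (2 * d + 3) := Nat.one_le_pow _ _ (by omega)
    nlinarith
  have hbn : 10 * b ≤ n := le_trans (Nat.mul_le_mul_right b hbig) hnb
  obtain ⟨t, hnt⟩ : ∃ t, n = t + 1 := ⟨n - 1, by omega⟩
  obtain ⟨l, hl⟩ : ∃ l, l = 4 * (d + 2) * b := ⟨_, rfl⟩
  obtain ⟨m, hm⟩ : ∃ m, m = n / (4 * g) := ⟨_, rfl⟩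
  obtain ⟨h, hh⟩ : ∃ h, h = n / 2 := ⟨_, rfl⟩
  have h2t : t < 2 ^ t := Nat.lt_two_pow_self
  have hlt : l ≤ t := by
    have h3 : 4 * (d + 2) * b < b * b := by
      have : 4 * (d + 2) < b := by omega
      exact Nat.mul_lt_mul_of_pos_right this (by omega)
    omega
  have hl1 : 1 ≤ l := by
    rw [hl]
    exact Nat.mul_pos (by positivity) (by omega)
  have hgm : g * (2 * m + 1) + 1 ≤ h + g + 1 := by
    have h5 : 4 * g * m ≤ n := by
      rw [hm]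
      exact Nat.mul_div_le n (4 * g)
    have h6 : 2 * g * m ≤ h := by
      have : 4 * g * m = 2 * (2 * g * m) := by ring
      omega
    have h7 : g * (2 * m + 1) + 1 = 2 * g * m + g + 1 := by ring
    omega
  have hc2t : c / (2 * t) ≤ 1 := by
    have : (1 : ℝ) ≤ t := by
      have : 1 ≤ t := by omega
      exact_mod_cast this
    rw [div_le_one (by positivity)]
    linarith
  -- powers
  have hKn : 64 * (q : ℝ) * (2 * C1 + 4 + 2 * C1 * (8 * (q : ℝ) ^ 2) + 8 * (q : ℝ) ^ 2) *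
      (n : ℝ) ^ 2 ≤ 2 ^ b := by
    have h5 : n ≤ (2 * b) ^ e := hn2.le.trans (Nat.pow_le_pow_left (by omega) _)
    have h6 : (n : ℝ) ≤ (2 * (b : ℝ)) ^ e := by exact_mod_cast h5
    have h7 : (n : ℝ) ^ 2 ≤ 2 ^ (2 * e) * (b : ℝ) ^ (2 * e) := by
      calc (n : ℝ) ^ 2 ≤ ((2 * (b : ℝ)) ^ e) ^ 2 := pow_le_pow_left₀ (by positivity) h6 2
        _ = _ := by rw [← pow_mul, mul_pow, mul_comm e 2]
    calc _ ≤ 64 * (q : ℝ) * (2 * C1 + 4 + 2 * C1 * (8 * (q : ℝ) ^ 2) + 8 * (q : ℝ) ^ 2) *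
          (2 ^ (2 * e) * (b : ℝ) ^ (2 * e)) := mul_le_mul_of_nonneg_left h7 (by positivity)
      _ = 64 * q * (2 * C1 + 4 + 2 * C1 * (8 * (q : ℝ) ^ 2) + 8 * (q : ℝ) ^ 2) *
          2 ^ (2 * e) * (b : ℝ) ^ (2 * e) := by ring
      _ ≤ 2 ^ b := hB2
  have hη : 2 * (4 * (q : ℝ) ^ 2) * n / 2 ^ l ≤ 8 * (q : ℝ) ^ 2 * n * (1 / 2 ^ b) := by
    have h5 := num_l (b := b) hl
    rw [one_div_pow] at h5
    calc 2 * (4 * (q : ℝ) ^ 2) * n / 2 ^ l = 8 * (q : ℝ) ^ 2 * n * (1 / 2 ^ l) := by ring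
      _ ≤ 8 * (q : ℝ) ^ 2 * n * (1 / 2 ^ b) := mul_le_mul_of_nonneg_left h5 (by positivity)
  have hη2 : 2 * (4 * (q : ℝ) ^ 2) * (errs f T).card / 2 ^ t ≤ 1 / (64 * q * (C1 + 1) * n) := by
    have hq0 : (0 : ℝ) < q := by exact_mod_cast hq.pos
    have hn0 : (0 : ℝ) < n := by
      have : 0 < n := by omega
      exact_mod_cast this
    have h2n : (2 : ℝ) ^ n = 2 * 2 ^ t := by rw [hnt, pow_succ]; ring
    obtain ⟨E, hE⟩ : ∃ E : ℝ, E = ((errs f T).card : ℝ) := ⟨_, rfl⟩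
    rw [← hE] at hsmall ⊢
    rw [h2n] at hsmall
    have h2t0 : (0 : ℝ) < 2 ^ t := by positivity
    have e1 : 1 / (1024 * (q : ℝ) ^ 3 * (C1 + 1)) * (2 * 2 ^ t) / n =
        (2 ^ t / (2 * (4 * (q : ℝ) ^ 2))) * (1 / (64 * q * (C1 + 1) * n)) := by
      field_simp
      norm_num
    rw [e1] at hsmall
    have e2 : (2 : ℝ) * (4 * (q : ℝ) ^ 2) * E / (2 : ℝ) ^ t =
        E / ((2 : ℝ) ^ t / (2 * (4 * (q : ℝ) ^ 2))) := by
      field_simp
    rw [e2, div_le_iff₀ (by positivity), mul_comm]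
    exact hsmall
  obtain ⟨hz1, herr⟩ := num_err (L := C1 * n) (C1 := C1) (n := n) (b := b) (q := q) hq1 rfl
    (by omega) hKn (num_S (S := S) (d := d) (by omega) hS hl) (num_l hl) hη hη2
    (num_samples hc hq1 hC1 (by omega : 0 < t) (by omega : t ≤ n) hc2t)
  have hcon := contra (L := C1 * n) hr hq hq4 hqr hg hg2 hTp hTq hC hnt hc hpr hl1 (by omega)
    (by omega) (by omega) hlt (by omega) (num_prime hc (by omega) hgm (by omega) (by omega)
      (hh1 h (by omega))) (num_deg (by omega) hl (by omega) hB1 hn1 hm) rfl hz1 hc2t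
  exact absurd hcon (not_le.2 herr)

end Pool.Agent.U343.Sm
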