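import Pool.Agent.H117R2.Steiner5.Transport

set_option autoImplicit false

/-!
# The finite inversive planes over a quadratic extension of a finite field
-/

namespace Pool.Agent.U343.Sm

open Matrix OnePoint Pointwise
open Pool.Agent.H117R2.Steiner5 (mob mob_infty mob_coe toFin IsSteiner)

section
variable {K : Type} [Field K]

/-- the points of the projective line over a subfield -/
def sub (F : Subfield K) : Set (OnePoint K) := {w | w = ∞ ∨ ∃ x ∈ F, w = ((x : K) : OnePoint K)}

theorem infty_sub (F : Subfield K) : (∞ : OnePoint K) ∈ sub F := Or.inl rfl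

theorem coe_sub {F : Subfield K} {x : K} (hx : x ∈ F) : ((x : K) : OnePoint K) ∈ sub F :=
  Or.inr ⟨x, hx, rfl⟩

variable [DecidableEq K]

theorem mob_sub {F : Subfield K} {a b c d : K} (ha : a ∈ F) (hb : b ∈ F) (hc : c ∈ F) (hd : d ∈ F)
    (h : a * d - b * c ≠ 0) {w : OnePoint K} (hw : w ∈ sub F) : mob a b c d h • w ∈ sub F := by
  rcases hw with rfl | ⟨x, hx, rfl⟩
  · rw [mob_infty]
    split_ifs
    · exact infty_sub F
    · exact coe_sub (F.div_mem ha hc)
  · rw [mob_coe]
    split_ifs
    · exact infty_sub F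
    · exact coe_sub (F.div_mem (F.add_mem (F.mul_mem ha hx) hb) (F.add_mem (F.mul_mem hc hx) hd))

/-- three distinct points can be moved to `∞, 0, 1` -/
theorem three (F : Subfield K) {p q r : OnePoint K} (hp : p ∈ sub F) (hq : q ∈ sub F)
    (hr : r ∈ sub F) (hpq : p ≠ q) (hpr : p ≠ r) (hqr : q ≠ r) :
    ∃ g : GL (Fin 2) K, g • p = ∞ ∧ g • q = ((0 : K) : OnePoint K) ∧
      g • r = ((1 : K) : OnePoint K) ∧ ∀ w ∈ sub F, g • w ∈ sub F := by
  obtain ⟨g1, hp1, hg1⟩ : ∃ g : GL (Fin 2) K, g • p = ∞ ∧ ∀ w ∈ sub F, g • w ∈ sub F := by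
    rcases hp with rfl | ⟨x, hx, rfl⟩
    · exact ⟨1, one_smul _ _, fun w hw => by rwa [one_smul]⟩
    · refine ⟨mob 0 (-1) 1 (-x) (by norm_num), ?_, fun w hw => ?_⟩
      · rw [mob_coe]
        simp
      · exact mob_sub F.zero_mem (F.neg_mem F.one_mem) F.one_mem (F.neg_mem hx) _ hw
  have hq1 : g1 • q ≠ ∞ := by
    rw [← hp1]
    intro h
    exact hpq ((smul_left_cancel g1 h).symm)
  have hr1 : g1 • r ≠ ∞ := by
    rw [← hp1]
    intro h
    exact hpr ((smul_left_cancel g1 h).symm)
  obtain ⟨y, hyF, hy⟩ := (hg1 q hq).resolve_left hq1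
  obtain ⟨z, hzF, hz⟩ := (hg1 r hr).resolve_left hr1
  have hyz : y ≠ z := by
    intro h
    rw [h] at hy
    exact hqr (smul_left_cancel g1 (hy.trans hz.symm))
  have hzy : z - y ≠ 0 := sub_ne_zero.2 (Ne.symm hyz)
  have hd : (1 : K) * (z - y) - (-y) * 0 ≠ 0 := by simpa using hzy
  refine ⟨mob 1 (-y) 0 (z - y) hd * g1, ?_, ?_, ?_, fun w hw => ?_⟩
  · rw [mul_smul, hp1, mob_infty]
    simp
  · rw [mul_smul, hy, mob_coe, if_neg (by simpa using hzy)]
    congr 1
    rw [one_mul, add_neg_cancel, zero_div]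
  · rw [mul_smul, hz, mob_coe, if_neg (by simpa using hzy)]
    congr 1
    rw [one_mul, zero_mul, zero_add, ← sub_eq_add_neg, div_self hzy]
  · rw [mul_smul]
    exact mob_sub F.one_mem (F.neg_mem hyF) F.zero_mem (F.sub_mem hzF hyF) _ (hg1 w hw)

/-- a transformation which fixes `∞, 0, 1` is trivial -/
theorem fix {g : GL (Fin 2) K} (h1 : g • (∞ : OnePoint K) = ∞)
    (h2 : g • ((0 : K) : OnePoint K) = ((0 : K) : OnePoint K))
    (h3 : g • ((1 : K) : OnePoint K) = ((1 : K) : OnePoint K)) (w : OnePoint K) : g • w = w := by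
  rw [smul_infty_eq_ite] at h1
  have hc : g 1 0 = 0 := by
    by_contra hc
    rw [if_neg hc] at h1
    exact OnePoint.coe_ne_infty _ h1
  rw [smul_some_eq_ite] at h2 h3
  have hd : g 1 1 ≠ 0 := by
    intro hd
    rw [if_pos (by rw [hc, hd]; ring)] at h2
    exact OnePoint.infty_ne_coe _ h2
  rw [if_neg (by rw [hc, zero_mul, zero_add]; exact hd)] at h2 h3
  rw [OnePoint.coe_eq_coe] at h2 h3
  have hb : g 0 1 = 0 := by
    rw [hc, mul_zero, zero_add, zero_mul, zero_add, div_eq_zero_iff] at h2
    exact h2.resolve_right hd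
  have ha : g 0 0 = g 1 1 := by
    rw [hc, hb, mul_one, add_zero, zero_mul, zero_add, div_eq_one_iff_eq hd] at h3
    exact h3
  induction w using OnePoint.rec with
  | infty => rw [smul_infty_eq_ite, if_pos hc]
  | coe x =>
    rw [smul_some_eq_ite, if_neg (by rw [hc, zero_mul, zero_add]; exact hd), OnePoint.coe_eq_coe, hc,
      hb, ha, add_zero, zero_mul, zero_add]
    field_simp

end

section Fin
variable {K : Type} [Field K] [Fintype K]

open Classical in
/-- the points of the projective line over a subfield, as a finite set -/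
noncomputable def lin (F : Subfield K) : Finset (OnePoint K) :=
  insert ∞ ((Finset.univ.filter (fun x : K => x ∈ F)).image (fun x : K => ((x : K) : OnePoint K)))

theorem mem_lin {F : Subfield K} {w : OnePoint K} : w ∈ lin F ↔ w ∈ sub F := by
  classical
  unfold lin sub
  simp only [Finset.mem_insert, Finset.mem_image, Finset.mem_filter, Finset.mem_univ, true_and,
    Set.mem_setOf_eq]
  constructor
  · rintro (h | ⟨x, hx, rfl⟩)
    · exact Or.inl h
    · exact Or.inr ⟨x, hx, rfl⟩
  · rintro (h | ⟨x, hx, rfl⟩)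
    · exact Or.inl h
    · exact Or.inr ⟨x, hx, rfl⟩

theorem card_lin (F : Subfield K) : (lin F).card = Nat.card F + 1 := by
  classical
  unfold lin
  rw [Finset.card_insert_of_notMem, Finset.card_image_of_injective _ OnePoint.coe_injective]
  · congr 1
    rw [← Fintype.card_subtype, Nat.card_eq_fintype_card]
  · rw [Finset.mem_image]
    rintro ⟨x, -, hx⟩
    exact OnePoint.coe_ne_infty _ hx

theorem mem_top (w : OnePoint K) : w ∈ sub (⊤ : Subfield K) := by
  induction w using OnePoint.rec with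
  | infty => exact infty_sub _
  | coe x => exact coe_sub (Subfield.mem_top x)

variable [DecidableEq K]

/-- the circles -/
def circles (F : Subfield K) : Set (Finset (OnePoint K)) :=
  {B | ∃ g : GL (Fin 2) K, ∀ w, w ∈ B ↔ g • w ∈ sub F}

theorem card_circle {F : Subfield K} {B : Finset (OnePoint K)} (hB : B ∈ circles F) :
    B.card = Nat.card F + 1 := by
  classical
  obtain ⟨g, hg⟩ := hB
  rw [← card_lin F]
  refine Finset.card_bij (fun w _ => g • w) (fun w hw => mem_lin.2 ((hg w).1 hw))
    (fun a _ b _ h => smul_left_cancel g h) (fun w hw => ⟨g⁻¹ • w, ?_, smul_inv_smul g w⟩)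
  rw [hg, smul_inv_smul]
  exact mem_lin.1 hw

theorem circle_unique (F : Subfield K) (T : Finset (OnePoint K)) (hT : T.card = 3) :
    ∃! B, B ∈ circles F ∧ T ⊆ B := by
  classical
  obtain ⟨x, y, z, hxy, hxz, hyz, rfl⟩ := Finset.card_eq_three.1 hT
  obtain ⟨g, hx, hy, hz, -⟩ := three (⊤ : Subfield K) (mem_top x) (mem_top y) (mem_top z) hxy hxz hyz
  have hf : Fintype (OnePoint K) := inferInstanceAs (Fintype (Option K))
  have hcirc : (Finset.univ.filter (fun w : OnePoint K => g • w ∈ sub F)) ∈ circles F :=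
    ⟨g, fun w => by rw [Finset.mem_filter]; exact ⟨fun h => h.2, fun h => ⟨Finset.mem_univ _, h⟩⟩⟩
  have hsub : ∀ B : Finset (OnePoint K), ({x, y, z} : Finset (OnePoint K)) ⊆ B ↔
      x ∈ B ∧ y ∈ B ∧ z ∈ B := by
    intro B
    rw [Finset.insert_subset_iff, Finset.insert_subset_iff, Finset.singleton_subset_iff]
  refine ⟨Finset.univ.filter (fun w : OnePoint K => g • w ∈ sub F), ⟨hcirc, ?_⟩, ?_⟩
  · rw [hsub]
    simp only [Finset.mem_filter, Finset.mem_univ, true_and]
    refine ⟨?_, ?_, ?_⟩
    · rw [hx]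
      exact infty_sub F
    · rw [hy]
      exact coe_sub F.zero_mem
    · rw [hz]
      exact coe_sub F.one_mem
  · rintro B ⟨⟨h, hB⟩, hTB⟩
    rw [hsub] at hTB
    obtain ⟨h1, h2, h3⟩ := hTB
    rw [hB] at h1 h2 h3
    obtain ⟨m, ha, hb, hc, hm⟩ := three F h1 h2 h3 (fun e => hxy (smul_left_cancel h e))
      (fun e => hxz (smul_left_cancel h e)) (fun e => hyz (smul_left_cancel h e))
    have key : ∀ w : OnePoint K, m • (h • w) = g • w := by
      intro w
      have h4 := fix (g := m * h * g⁻¹) (by rw [mul_smul, mul_smul, ← hx, inv_smul_smul, ha, hx])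
        (by rw [mul_smul, mul_smul, ← hy, inv_smul_smul, hb, hy])
        (by rw [mul_smul, mul_smul, ← hz, inv_smul_smul, hc, hz]) (g • w)
      rw [mul_smul, mul_smul, inv_smul_smul] at h4
      exact h4
    refine Finset.eq_of_subset_of_card_le ?_ ?_
    · intro w hw
      rw [Finset.mem_filter]
      refine ⟨Finset.mem_univ _, ?_⟩
      rw [← key]
      exact hm _ ((hB w).1 hw)
    · rw [card_circle hcirc, card_circle (⟨h, hB⟩ : B ∈ circles F)]

end Fin

/-- the inversive planes of prime order -/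
theorem inversive {p : ℕ} (hp : p.Prime) :
    ∃ 𝓑 : Finset (Finset (Fin (p ^ 2 + 1))), IsSteiner (p ^ 2 + 1) (p + 1) 3 𝓑 := by
  classical
  have : Fact p.Prime := ⟨hp⟩
  have : Fintype (GaloisField p 2) := Fintype.ofFinite _
  have hK : Nat.card (GaloisField p 2) = p ^ 2 := GaloisField.card p 2 (by norm_num)
  set F : Subfield (GaloisField p 2) := (algebraMap (ZMod p) (GaloisField p 2)).fieldRange with hF
  have hFc : Nat.card F = p := by
    rw [hF, ← Nat.card_congr (RingHom.rangeRestrictFieldEquiv _).toEquiv, Nat.card_zmod]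
  have hf : Fintype (OnePoint (GaloisField p 2)) := inferInstanceAs (Fintype (Option _))
  have hc : Fintype.card (OnePoint (GaloisField p 2)) = p ^ 2 + 1 := by
    have : Fintype.card (Option (GaloisField p 2)) = Fintype.card (GaloisField p 2) + 1 :=
      Fintype.card_option
    rw [← hK, Nat.card_eq_fintype_card, ← this]
    exact Fintype.card_congr (Equiv.refl _)
  exact toFin (Fintype.equivFinOfCardEq hc) (circles F)
    (fun B hB => by rw [card_circle hB, hFc]) (fun T hT => circle_unique F T hT)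

end Pool.Agent.U343.Sm
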