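import Pool.Agent.U343.Sm.Fin
import Pool.Agent.W825.FP.BR

set_option autoImplicit false

/-!
# Orders of finite projective planes
-/

namespace Pool.Agent.U343.Sm

open Finset Filter Topology Configuration

/-- `N` is the order of a finite projective plane. -/
def IsPlaneOrder (N : ℕ) : Prop :=
  ∃ (P L : Type) (_ : Finite P) (_ : Finite L) (_ : Membership P L) (_ : ProjectivePlane P L),
    ProjectivePlane.order P L = N

open scoped LinearAlgebra.Projectivization in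
theorem plane_prime {p : ℕ} (hp : p.Prime) : IsPlaneOrder p := by
  classical
  have : Fact p.Prime := ⟨hp⟩
  let K := ZMod p
  have hcard : Nat.card K = p := Nat.card_zmod p
  have : Fintype (ℙ K (Fin 3 → K)) := Fintype.ofFinite _
  have hcP : Nat.card (ℙ K (Fin 3 → K)) = ∑ i ∈ Finset.range 3, Nat.card K ^ i := by
    apply Projectivization.card_of_finrank
    simp
  refine ⟨ℙ K (Fin 3 → K), ℙ K (Fin 3 → K), inferInstance, inferInstance, inferInstance,
    inferInstance, ?_⟩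
  have h1 := ProjectivePlane.card_points (ℙ K (Fin 3 → K)) (ℙ K (Fin 3 → K))
  rw [Nat.card_eq_fintype_card, h1, hcard] at hcP
  simp only [Finset.sum_range_succ, Finset.sum_range_zero, pow_zero, pow_one, zero_add] at hcP
  set m := ProjectivePlane.order (ℙ K (Fin 3 → K)) (ℙ K (Fin 3 → K)) with hm
  rcases lt_trichotomy m p with h | h | h
  · nlinarith
  · exact h
  · nlinarith

theorem plane_not {N q : ℕ} (hq : q.Prime) (hq4 : q % 4 = 3) (hN : N % 4 = 1) (h1 : q ∣ N)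
    (h2 : ¬ q ^ 2 ∣ N) : ¬ IsPlaneOrder N := by
  rintro ⟨P, L, hP, hL, hM, hPl, rfl⟩
  have := Fintype.ofFinite P
  have := Fintype.ofFinite L
  exact Pool.Agent.W825.FP.br (Or.inl hN) hq (by rintro rfl; norm_num at hq4) h1 h2 hq4

/-- circuits and orders of planes -/
theorem lower_real {r q : ℕ} (hr : r.Prime) (hq : q.Prime) (hq4 : q % 4 = 3) (hqr : q ≠ r)
    {T : ℕ → Prop} (hTp : ∀ p : ℕ, p.Prime → p % 4 = 1 → T p)
    (hTq : ∀ N : ℕ, N % 4 = 1 → q ∣ N → ¬ q ^ 2 ∣ N → ¬ T N) (d : ℕ) :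
    ∃ κ : ℝ, 0 < κ ∧ ∀ᶠ n : ℕ in atTop, ∀ (S : ℕ) (f : Cube n → Bool), Circuit r S n d f →
      (S : ℝ) ≤ 2 ^ ((n : ℝ) ^ (1 / (2 * (d : ℝ) + 5))) →
      κ * 2 ^ n / n <
        ({N : ℕ | N < 2 ^ n ∧ N % 4 = 1 ∧ ¬ (f (bits n N) = true ↔ T N)}.ncard : ℝ) := by
  classical
  obtain ⟨κ, hκ, b0, h⟩ := lower hr hq hq4 hqr hTp hTq d
  refine ⟨κ, hκ, ?_⟩
  filter_upwards [eventually_ge_atTop ((b0 + 1) ^ (2 * d + 5))] with n hn S f hC hS
  obtain ⟨y, hy⟩ : ∃ y : ℝ, y = (n : ℝ) ^ (1 / (2 * (d : ℝ) + 5)) := ⟨_, rfl⟩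
  have he : (0 : ℝ) < 2 * (d : ℝ) + 5 := by positivity
  have hy0 : 0 ≤ y := by
    rw [hy]
    positivity
  have hypow : y ^ (2 * d + 5) = n := by
    rw [hy, ← Real.rpow_natCast, ← Real.rpow_mul (by positivity)]
    push_cast
    rw [one_div, inv_mul_cancel₀ he.ne', Real.rpow_one]
  have hb1 : ((b0 : ℝ) + 1) ≤ y := by
    have h1 : ((b0 : ℝ) + 1) ^ (2 * d + 5) ≤ y ^ (2 * d + 5) := by
      rw [hypow]
      exact_mod_cast hn
    exact le_of_pow_le_pow_left₀ (by omega) hy0 h1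
  set b := ⌊y⌋₊ with hb
  have hbl : (b : ℝ) ≤ y := Nat.floor_le hy0
  have hbu : y < b + 1 := Nat.lt_floor_add_one y
  have hbb0 : b0 + 1 ≤ b := by
    rw [hb]
    apply Nat.le_floor
    push_cast
    exact hb1
  have h1 : b ^ (2 * d + 5) ≤ n := by
    have : ((b : ℝ)) ^ (2 * d + 5) ≤ n := by
      rw [← hypow]
      exact pow_le_pow_left₀ (by positivity) hbl _
    exact_mod_cast this
  have h2 : n < (b + 1) ^ (2 * d + 5) := by
    have : (n : ℝ) < ((b : ℝ) + 1) ^ (2 * d + 5) := by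
      rw [← hypow]
      exact pow_lt_pow_left₀ hbu hy0 (by omega)
    exact_mod_cast this
  have hS2 : S ≤ 2 ^ (2 * b) := by
    have h3 : (S : ℝ) ≤ 2 ^ (2 * b) := by
      rw [← hy] at hS
      refine hS.trans ?_
      rw [← Real.rpow_natCast]
      apply Real.rpow_le_rpow_of_exponent_le (by norm_num)
      push_cast
      have : (1 : ℝ) ≤ b := by
        have : 1 ≤ b := by omega
        exact_mod_cast this
      linarith
    exact_mod_cast h3
  have h4 := h b (by omega) n h1 h2 S hS2 f hC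
  have h5 : {N : ℕ | N < 2 ^ n ∧ N % 4 = 1 ∧ ¬ (f (bits n N) = true ↔ T N)} =
      ((errs f T : Finset ℕ) : Set ℕ) := by
    ext N
    rw [mem_coe, errs, mem_filter, mem_range]
    rfl
  rw [h5, Set.ncard_coe_finset]
  exact h4

theorem plane_circuits {r : ℕ} (hr : r.Prime) (d : ℕ) :
    ∃ κ : ℝ, 0 < κ ∧ ∀ᶠ n : ℕ in atTop, ∀ (S : ℕ) (f : Cube n → Bool), Circuit r S n d f →
      (S : ℝ) ≤ 2 ^ ((n : ℝ) ^ (1 / (2 * (d : ℝ) + 5))) →
      κ * 2 ^ n / n <
        ({N : ℕ | N < 2 ^ n ∧ N % 4 = 1 ∧ ¬ (f (bits n N) = true ↔ IsPlaneOrder N)}.ncard : ℝ) := by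
  by_cases h3 : r = 3
  · exact lower_real hr (by norm_num : Nat.Prime 7) (by norm_num) (by omega)
      (fun p hp _ => plane_prime hp)
      (fun N hN h1 h2 => plane_not (by norm_num : Nat.Prime 7) (by norm_num) hN h1 h2) d
  · exact lower_real hr (by norm_num : Nat.Prime 3) (by norm_num) (fun h => h3 h.symm)
      (fun p hp _ => plane_prime hp)
      (fun N hN h1 h2 => plane_not (by norm_num : Nat.Prime 3) (by norm_num) hN h1 h2) d

end Pool.Agent.U343.Sm
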