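import Pool.Agent.U343.Sm.Core
import Pool.Agent.H393R2.DC.Primes

set_option autoImplicit false

/-!
# Shifts: residue classes and primes
-/

namespace Pool.Agent.U343.Sm

open Finset Filter

/-- many primes in all residue classes -/
theorem primes_uniform (M : ℕ) [NeZero M] :
    ∃ c : ℝ, 0 < c ∧ c ≤ 1 ∧ ∃ N0 : ℕ, ∀ a : ZMod M, IsUnit a → ∀ N : ℕ, N0 ≤ N →
      c * N / Real.log N ≤
      (((range (N + 1)).filter (fun q : ℕ => q.Prime ∧ (q : ZMod M) = a)).card : ℝ) := by
  have h : ∀ a : ZMod M, ∃ c : ℝ, 0 < c ∧ ∃ N0 : ℕ, IsUnit a → ∀ N : ℕ, N0 ≤ N →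
      c * N / Real.log N ≤
      (((range (N + 1)).filter (fun q : ℕ => q.Prime ∧ (q : ZMod M) = a)).card : ℝ) := by
    intro a
    by_cases ha : IsUnit a
    · obtain ⟨c, hc, N0, h⟩ := Pool.Agent.H393R2.DC.primes_lower M a ha
      exact ⟨c, hc, N0, fun _ => h⟩
    · exact ⟨1, one_pos, 0, fun h => absurd h ha⟩
  choose c hc N0 h using h
  obtain ⟨a0, ha0⟩ := Finite.exists_min c
  obtain ⟨a1, ha1⟩ := Finite.exists_max N0
  refine ⟨min (c a0) 1, lt_min (hc a0) one_pos, min_le_right _ _, max (N0 a1) 1,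
    fun a ha N hN => ?_⟩
  refine le_trans ?_ (h a ha N ((ha1 a).trans ((le_max_left _ _).trans hN)))
  have h1 : 1 ≤ N := (le_max_right _ _).trans hN
  have h2 : (1 : ℝ) ≤ N := by exact_mod_cast h1
  have h3 : 0 ≤ Real.log N := Real.log_nonneg h2
  have h4 : min (c a0) 1 ≤ c a := (min_le_left _ _).trans (ha0 a)
  gcongr

/-- the residue class of the shifts -/
def cls (q s u : ℕ) : ℕ :=
  (q ^ 2 + q * u - s) + q ^ 2 * (1 + 3 * (q ^ 2 + q * u - s))

/-- the shifts -/
def shifts (q t s u : ℕ) : Finset ℕ :=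
  (range (2 ^ t)).filter (fun A => A % (4 * q ^ 2) = cls q s u % (4 * q ^ 2))

theorem sq_mod_four {q : ℕ} (hq : q % 4 = 3) : q ^ 2 % 4 = 1 := by
  rw [pow_two, Nat.mul_mod, hq]

theorem cls_mod_four {q s u : ℕ} (hq : q % 4 = 3) : cls q s u % 4 = 1 := by
  unfold cls
  generalize q ^ 2 + q * u - s = c
  have h := sq_mod_four hq
  have h2 : q ^ 2 * (1 + 3 * c) % 4 = (1 + 3 * c) % 4 := by
    rw [Nat.mul_mod, h, one_mul, Nat.mod_mod]
  omega

theorem shift_mod {q t s u A : ℕ} (hq : q % 4 = 3) (hA : A ∈ shifts q t s u) :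
    A % 4 = 1 ∧ A % q ^ 2 = (q ^ 2 + q * u - s) % q ^ 2 := by
  have h := (mem_filter.1 hA).2
  constructor
  · have h1 : A % 4 = cls q s u % 4 := by
      rw [← Nat.mod_mod_of_dvd A (Dvd.intro (q ^ 2) rfl : 4 ∣ 4 * q ^ 2), h,
        Nat.mod_mod_of_dvd _ (Dvd.intro (q ^ 2) rfl : 4 ∣ 4 * q ^ 2)]
    rw [h1, cls_mod_four hq]
  · have h1 : A % q ^ 2 = cls q s u % q ^ 2 := by
      rw [← Nat.mod_mod_of_dvd A (Dvd.intro_left 4 rfl : q ^ 2 ∣ 4 * q ^ 2), h,
        Nat.mod_mod_of_dvd _ (Dvd.intro_left 4 rfl : q ^ 2 ∣ 4 * q ^ 2)]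
    rw [h1]
    unfold cls
    rw [Nat.add_mul_mod_self_left]

theorem class_card {M : ℕ} (hM : 0 < M) (X a : ℕ) :
    X / M ≤ ((range X).filter (fun A => A % M = a % M)).card := by
  have h1 : ((range (X / M)).image (fun j => a % M + M * j)) ⊆
      (range X).filter (fun A => A % M = a % M) := by
    intro A hA
    obtain ⟨j, hj, rfl⟩ := mem_image.1 hA
    rw [mem_range] at hj
    rw [mem_filter, mem_range]
    refine ⟨?_, by rw [Nat.add_mul_mod_self_left, Nat.mod_mod]⟩
    have h2 := Nat.mod_lt a hM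
    have h3 : M * (j + 1) ≤ M * (X / M) := Nat.mul_le_mul_left _ hj
    have h4 := Nat.mul_div_le X M
    rw [mul_add, mul_one] at h3
    omega
  have h2 := card_le_card h1
  rwa [card_image_of_injective, card_range] at h2
  intro i j hij
  have : a % M + M * i = a % M + M * j := hij
  exact Nat.eq_of_mul_eq_mul_left hM (Nat.add_left_cancel this)

theorem two_pow_g {q : ℕ} (hq : q.Prime) (hq4 : q % 4 = 3) :
    2 ^ (q * (q - 1)) % q ^ 2 = 1 % q ^ 2 := by
  have h1 : Nat.Coprime 2 (q ^ 2) := by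
    rw [Nat.coprime_two_left, Nat.odd_pow_iff (by norm_num)]
    rw [Nat.odd_iff]
    omega
  have h2 := Nat.ModEq.pow_totient h1
  rw [Nat.totient_prime_pow hq (by norm_num), show q ^ (2 - 1) = q by norm_num] at h2
  exact h2

/-- values at `|x| = s` -/
theorem hit {q t g k : ℕ} (hq : q.Prime) (hq4 : q % 4 = 3) (hg : 2 ≤ g)
    (hg2 : 2 ^ g % q ^ 2 = 1 % q ^ 2) {T : ℕ → Prop}
    (hTq : ∀ N : ℕ, N % 4 = 1 → q ∣ N → ¬ q ^ 2 ∣ N → ¬ T N) (x : Cube k) :
    ∃ u < 2, ∀ A ∈ shifts q t (wt x % q) u, ¬ T (A + enc g x) := by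
  have hq1 := hq.one_lt
  obtain ⟨u, hu, hu2⟩ : ∃ u < 2, ¬ q ∣ u + wt x / q := by
    by_cases h : q ∣ wt x / q
    · refine ⟨1, by norm_num, fun h2 => ?_⟩
      have h3 := (Nat.dvd_add_left h).1 h2
      exact absurd (Nat.le_of_dvd one_pos h3) (by omega)
    · exact ⟨0, by norm_num, by rwa [zero_add]⟩
  refine ⟨u, hu, fun A hA => ?_⟩
  obtain ⟨h1, h2⟩ := shift_mod hq4 hA
  have hN4 : (A + enc g x) % 4 = 1 := by
    have := enc_four hg x
    omega
  have hmod : A + enc g x ≡ q * (u + wt x / q) [MOD q ^ 2] := by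
    have e1 : A ≡ q ^ 2 + q * u - wt x % q [MOD q ^ 2] := h2
    have e2 : enc g x ≡ wt x [MOD q ^ 2] := enc_mod hg2 x
    have e3 := Nat.ModEq.add e1 e2
    have hs : wt x % q < q := Nat.mod_lt _ hq.pos
    have hq2 : q ≤ q ^ 2 := by nlinarith
    have e4 : q ^ 2 + q * u - wt x % q + wt x = q ^ 2 + q * (u + wt x / q) := by
      have e5 := Nat.div_add_mod (wt x) q
      have e6 : q * (u + wt x / q) = q * u + q * (wt x / q) := by ring
      omega
    rw [e4] at e3
    refine e3.trans ?_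
    have e7 : q ^ 2 + q * (u + wt x / q) ≡ 0 + q * (u + wt x / q) [MOD q ^ 2] :=
      Nat.ModEq.add_right _ (by
        change q ^ 2 % q ^ 2 = 0 % q ^ 2
        rw [Nat.mod_self, Nat.zero_mod])
    rwa [zero_add] at e7
  have hqN : q ∣ A + enc g x := by
    have e1 : q ∣ q ^ 2 := Dvd.intro_left q (by ring)
    have e2 := hmod.of_dvd e1
    exact (Nat.ModEq.dvd_iff e2 dvd_rfl).2 (Dvd.intro _ rfl)
  have hq2N : ¬ q ^ 2 ∣ A + enc g x := by
    intro h
    have e1 := (Nat.ModEq.dvd_iff hmod dvd_rfl).1 h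
    rw [pow_two] at e1
    exact hu2 (Nat.dvd_of_mul_dvd_mul_left hq.pos e1)
  exact hTq _ hN4 hqN hq2N

open Classical in
/-- the errors of `f` -/
noncomputable def errs {n : ℕ} (f : Cube n → Bool) (T : ℕ → Prop) : Finset ℕ :=
  (range (2 ^ n)).filter (fun N => N % 4 = 1 ∧ Err f T N)

open Classical in
theorem err_card {q t g k n s u : ℕ} (hq4 : q % 4 = 3) (hg : 2 ≤ g) {T : ℕ → Prop}
    (f : Cube n → Bool) (x : Cube k) (hlt : ∀ A < 2 ^ t, A + enc g x < 2 ^ n) :
    ((shifts q t s u).filter fun A => Err f T (A + enc g x)).card ≤ (errs f T).card := by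
  refine card_le_card_of_injOn (fun A => A + enc g x) ?_ ?_
  · intro A hA
    have h1 := mem_filter.1 (mem_coe.1 hA)
    have h2 := mem_range.1 (mem_filter.1 h1.1).1
    have h3 := (shift_mod hq4 h1.1).1
    have h4 := enc_four hg x
    refine mem_coe.2 (mem_filter.2 ⟨mem_range.2 (hlt A h2), ?_, h1.2⟩)
    change (A + enc g x) % 4 = 1
    omega
  · intro A _ A' _ h
    exact Nat.add_right_cancel h

open Classical in
/-- primes among the shifts -/
theorem miss {q t g k s u : ℕ} (hq : q.Prime) (hq4 : q % 4 = 3) (hs : s < q) (hg : 2 ≤ g)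
    (hg2 : 2 ^ g % q ^ 2 = 1 % q ^ 2) {T : ℕ → Prop}
    (hTp : ∀ p : ℕ, p.Prime → p % 4 = 1 → T p)
    (x : Cube k) (hx : wt x % q ≠ s) {c : ℝ} {N0 : ℕ} (hN0 : N0 ≤ 2 ^ t)
    (hpr : ∀ a : ZMod (4 * q ^ 2), IsUnit a → ∀ N : ℕ, N0 ≤ N → c * N / Real.log N ≤
      (((range (N + 1)).filter (fun p : ℕ => p.Prime ∧ (p : ZMod (4 * q ^ 2)) = a)).card : ℝ)) :
    c * ((2 ^ t : ℕ) : ℝ) / Real.log ((2 ^ t : ℕ) : ℝ) - (enc g x + 1) ≤
      (((shifts q t s u).filter fun A => Acc T g A x).card : ℝ) := by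
  set a : ℕ := cls q s u + enc g x with ha
  have ha4 : a % 4 = 1 := by
    have h1 := cls_mod_four (s := s) (u := u) hq4
    have h2 := enc_four hg x
    omega
  have haq : ¬ q ∣ a := by
    intro h
    have hqq : q ∣ q ^ 2 := Dvd.intro_left q (by ring)
    have e2 : enc g x ≡ wt x [MOD q] := (enc_mod hg2 x).of_dvd hqq
    have hq2 : q ≤ q ^ 2 := by nlinarith [hq.one_lt]
    have e3 : cls q s u + s ≡ 0 [MOD q] := by
      have e4 : cls q s u + s = q ^ 2 + q * u + q ^ 2 * (1 + 3 * (q ^ 2 + q * u - s)) := by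
        unfold cls
        generalize 1 + 3 * (q ^ 2 + q * u - s) = v
        omega
      rw [e4]
      exact (Nat.modEq_zero_iff_dvd).2 (dvd_add (dvd_add hqq (Dvd.intro _ rfl))
        (Dvd.dvd.mul_right hqq _))
    have e5 : a + s ≡ wt x [MOD q] := by
      have e6 : a + s = (cls q s u + s) + enc g x := by rw [ha]; ring
      rw [e6]
      have e7 := Nat.ModEq.add e3 e2
      rwa [zero_add] at e7
    have e8 : s ≡ wt x [MOD q] := by
      have e9 : a + s ≡ 0 + s [MOD q] := Nat.ModEq.add_right _ ((Nat.modEq_zero_iff_dvd).2 h)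
      rw [zero_add] at e9
      exact e9.symm.trans e5
    apply hx
    rw [← e8, Nat.mod_eq_of_lt hs]
  have hcop : a.Coprime (4 * q ^ 2) := by
    apply Nat.Coprime.mul_right
    · rw [show (4 : ℕ) = 2 ^ 2 by norm_num]
      apply Nat.Coprime.pow_right
      rw [Nat.coprime_two_right, Nat.odd_iff]
      omega
    · apply Nat.Coprime.pow_right
      exact ((Nat.Prime.coprime_iff_not_dvd hq).2 haq).symm
  have h1 := hpr (a : ZMod (4 * q ^ 2)) ((ZMod.isUnit_iff_coprime _ _).2 hcop) (2 ^ t) hN0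
  set P := (range (2 ^ t + 1)).filter
    (fun p : ℕ => p.Prime ∧ (p : ZMod (4 * q ^ 2)) = (a : ZMod (4 * q ^ 2))) with hP
  have h2 : P.card ≤ (range (enc g x)).card + ({2 ^ t} : Finset ℕ).card +
      ((shifts q t s u).filter fun A => Acc T g A x).card := by
    have h3 : P ⊆ (range (enc g x) ∪ {2 ^ t}) ∪
        ((shifts q t s u).filter fun A => Acc T g A x).image (fun A => A + enc g x) := by
      intro p hp
      rw [hP, mem_filter, mem_range] at hp
      obtain ⟨hp1, hp2, hp3⟩ := hp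
      rw [mem_union, mem_union, mem_range, mem_singleton]
      by_cases c1 : p < enc g x
      · exact Or.inl (Or.inl c1)
      by_cases c2 : p = 2 ^ t
      · exact Or.inl (Or.inr c2)
      right
      rw [mem_image]
      have c3 : p % (4 * q ^ 2) = a % (4 * q ^ 2) := by
        have := (ZMod.natCast_eq_natCast_iff _ _ _).1 hp3
        exact this
      refine ⟨p - enc g x, ?_, by omega⟩
      rw [mem_filter]
      have c4 : p - enc g x + enc g x = p := by omega
      refine ⟨?_, ?_⟩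
      · unfold shifts
        rw [mem_filter, mem_range]
        refine ⟨by omega, ?_⟩
        have c5 : p - enc g x + enc g x ≡ cls q s u + enc g x [MOD 4 * q ^ 2] := by
          rw [c4]
          exact c3
        exact Nat.ModEq.add_right_cancel' _ c5
      · unfold Acc
        rw [c4]
        refine hTp p hp2 ?_
        rw [← Nat.mod_mod_of_dvd p (Dvd.intro (q ^ 2) rfl : 4 ∣ 4 * q ^ 2), c3,
          Nat.mod_mod_of_dvd _ (Dvd.intro (q ^ 2) rfl : 4 ∣ 4 * q ^ 2)]
        exact ha4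
    have h4 := card_le_card h3
    have h5 := card_union_le (range (enc g x) ∪ {2 ^ t})
      (((shifts q t s u).filter fun A => Acc T g A x).image (fun A => A + enc g x))
    have h6 := card_union_le (range (enc g x)) ({2 ^ t} : Finset ℕ)
    have h7 : (((shifts q t s u).filter fun A => Acc T g A x).image
      (fun A => A + enc g x)).card ≤ _ := card_image_le
    omega
  rw [card_range, card_singleton] at h2
  have h8 : (P.card : ℝ) ≤ enc g x + 1 +
      (((shifts q t s u).filter fun A => Acc T g A x).card : ℝ) := by exact_mod_cast h2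
  linarith

open Classical in
/-- wrong digits are rare -/
theorem wrong_card {q t g k n s u W : ℕ} (hn : n = t + 1) (x : Cube k) :
    ((shifts q t s u).filter fun A => Wrong g W n A x).card ≤ n * 2 ^ (t - W) := by
  have h1 : ((shifts q t s u).filter fun A => Wrong g W n A x) ⊆
      (univ : Finset (Fin n)).biUnion (fun p => if W ≤ (p : ℕ) then
        (range (2 ^ t)).filter (fun A => (A / 2 ^ ((p : ℕ) - W)) % 2 ^ W =
          2 ^ W - 1 - (enc g x / 2 ^ ((p : ℕ) - W)) % 2 ^ W) else ∅) := by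
    intro A hA
    rw [mem_filter] at hA
    obtain ⟨hA1, p, hp⟩ := hA
    rw [mem_biUnion]
    refine ⟨p, mem_univ _, ?_⟩
    by_cases hW : W ≤ (p : ℕ) ∧ (A / 2 ^ ((p : ℕ) - W)) % 2 ^ W +
        (enc g x / 2 ^ ((p : ℕ) - W)) % 2 ^ W = 2 ^ W - 1
    · rw [if_pos hW.1, mem_filter]
      refine ⟨(mem_filter.1 hA1).1, ?_⟩
      have := hW.2
      omega
    · exact absurd (dgt_eq x fun h1 h2 => hW ⟨h1, h2⟩) hp
  refine (card_le_card h1).trans (card_biUnion_le.trans ?_)
  calc _ ≤ ∑ _p : Fin n, 2 ^ (t - W) := by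
        refine sum_le_sum fun p _ => ?_
        split_ifs with hW
        · exact window_card hW (by
            have := p.2
            omega)
        · simp
    _ = n * 2 ^ (t - W) := by rw [sum_const, card_univ, Fintype.card_fin, smul_eq_mul]

end Pool.Agent.U343.Sm
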