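import Pool.Agent.U343.Sm.Deg

set_option autoImplicit false

/-!
# Smolensky's lemma: `ω ^ |x|` has no approximation of small degree
-/

namespace Pool.Agent.U343.Sm

open Finset

variable {F : Type} [Field F] {n : ℕ}

/-- the weight -/
def wt (x : Cube n) : ℕ := (univ.filter fun i => x i = true).card

/-- `ω ^ b` -/
def yb (ω : F) (b : Bool) : F := if b = true then ω else 1

theorem pow_wt (ω : F) (x : Cube n) : ω ^ wt x = ∏ i, yb ω (x i) := by
  unfold wt yb
  rw [← prod_const, prod_filter]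

theorem dg_yb (ω : F) (i : Fin n) : (fun x => yb ω (x i)) ∈ Dg F n 1 := by
  have h : (fun x : Cube n => yb ω (x i)) = fun x => 1 + (ω - 1) * bf F (x i) := by
    funext x
    unfold yb bf
    split_ifs <;> ring
  rw [h]
  exact dg_add (dg_const 1 _) (dg_smul _ (dg_coord i))

theorem dg_Y (ω : F) (I : Finset (Fin n)) {D : ℕ} (h : I.card ≤ D) :
    (fun x => ∏ i ∈ I, yb ω (x i)) ∈ Dg F n D := by
  have h1 := dg_prod (F := F) (n := n) I (fun i x => yb ω (x i)) 1 (fun i _ => dg_yb ω i)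
  rw [mul_one] at h1
  exact dg_mono h h1

open Classical in
theorem smol_dim {m Δ : ℕ} (hn : n = 2 * m + 1) {ω : F} (hω : ω ≠ 1) (hω0 : ω ≠ 0)
    {H : Cube n → F} (hH : H ∈ Dg F n Δ) :
    (univ.filter fun x : Cube n => H x = ω ^ wt x).card ≤
      ∑ i ∈ range (m + Δ + 1), n.choose i := by
  set A := univ.filter fun x : Cube n => H x = ω ^ wt x with hA
  let res : (Cube n → F) →ₗ[F] (A → F) := LinearMap.funLeft F F (fun a : A => (a : Cube n))
  set W := Submodule.comap res (Submodule.map res (Dg F n (m + Δ))) with hW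
  have hWmem : ∀ g g' : Cube n → F, g' ∈ Dg F n (m + Δ) → (∀ x ∈ A, g x = g' x) → g ∈ W := by
    intro g g' hg' h
    rw [hW, Submodule.mem_comap]
    refine ⟨g', hg', ?_⟩
    funext a
    exact (h a a.2).symm
  -- products of the `y_i`
  have hY : ∀ I : Finset (Fin n), (fun x => ∏ i ∈ I, yb ω (x i)) ∈ W := by
    intro I
    rcases Nat.lt_or_ge m I.card with h | h
    · have h1 : (Iᶜ).card ≤ m := by
        rw [card_compl, Fintype.card_fin]
        omega
      refine hWmem _ (H * fun x => ∏ i ∈ Iᶜ, yb ω⁻¹ (x i)) ?_ ?_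
      · exact dg_mono (show Δ + m ≤ m + Δ by omega) (dg_mul hH (dg_Y ω⁻¹ Iᶜ h1))
      · intro x hx
        rw [hA, mem_filter] at hx
        rw [Pi.mul_apply, hx.2, pow_wt, ← prod_mul_prod_compl I (fun i => yb ω (x i)), mul_assoc,
          ← prod_mul_distrib]
        have h2 : ∏ i ∈ Iᶜ, yb ω (x i) * yb ω⁻¹ (x i) = 1 := by
          refine prod_eq_one fun i _ => ?_
          unfold yb
          split_ifs
          · exact mul_inv_cancel₀ hω0
          · exact one_mul 1
        rw [h2, mul_one]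
    · exact hWmem _ _ (dg_Y ω I (h.trans (Nat.le_add_right _ _))) fun x _ => rfl
  have hmono : ∀ J : Finset (Fin n), mono F J ∈ W := by
    intro J
    have hc : ω - 1 ≠ 0 := sub_ne_zero.2 hω
    have h1 : mono F J = ∑ t ∈ J.powerset, ((ω - 1)⁻¹ ^ t.card * (-(ω - 1)⁻¹) ^ (J \ t).card) •
        (fun x => ∏ i ∈ t, yb ω (x i)) := by
      funext x
      have h2 : mono F J x = ∏ i ∈ J, ((ω - 1)⁻¹ * yb ω (x i) + -(ω - 1)⁻¹) := by
        unfold mono
        refine prod_congr rfl fun i _ => ?_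
        unfold bf yb
        split_ifs
        · field_simp
          ring
        · ring
      rw [h2, Finset.prod_add, Finset.sum_apply]
      refine sum_congr rfl fun t _ => ?_
      rw [prod_mul_distrib, prod_const, prod_const, Pi.smul_apply, smul_eq_mul]
      ring
    rw [h1]
    exact Submodule.sum_mem _ fun t _ => Submodule.smul_mem _ _ (hY t)
  have hWtop : W = ⊤ := by
    rw [eq_top_iff, ← dg_top (F := F) (n := n), Dg, Submodule.span_le]
    rintro _ ⟨I, -, rfl⟩
    exact hmono I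
  have hmap : Submodule.map res (Dg F n (m + Δ)) = ⊤ := by
    rw [eq_top_iff]
    intro g _
    have hsurj : Function.Surjective res :=
      LinearMap.funLeft_surjective_of_injective F F _ Subtype.val_injective
    obtain ⟨g', rfl⟩ := hsurj g
    have h1 : g' ∈ W := by
      rw [hWtop]
      trivial
    exact h1
  have h1 : Module.finrank F (A → F) = A.card := by
    rw [Module.finrank_fintype_fun_eq_card, Fintype.card_coe]
  have h2 : Module.finrank F (Submodule.map res (Dg F n (m + Δ))) = A.card := by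
    rw [hmap, finrank_top, h1]
  rw [← h2]
  exact (Submodule.finrank_map_le res _).trans (dg_finrank _)

theorem choose_rec (m : ℕ) :
    (2 * (m + 1) + 1).choose (m + 1) * (m + 2) = (2 * m + 1).choose m * (2 * (2 * m + 3)) := by
  have h1 := Nat.add_one_mul_choose_eq (2 * m + 2) (m + 1)
  have h2 := Nat.add_one_mul_choose_eq (2 * m + 1) m
  have h3 : (2 * m + 2 + 1).choose (m + 1 + 1) = (2 * (m + 1) + 1).choose (m + 1) := by
    rw [← Nat.choose_symm (by omega : m + 1 + 1 ≤ 2 * m + 2 + 1)]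
    congr 1
    omega
  rw [h3] at h1
  have h4 : (2 * m + 1 + 1).choose (m + 1) = 2 * (2 * m + 1).choose m := by
    have h5 : (m + 1) * (2 * m + 1 + 1).choose (m + 1) =
        (m + 1) * (2 * (2 * m + 1).choose m) := by
      rw [mul_comm, ← h2]
      ring
    exact Nat.eq_of_mul_eq_mul_left (Nat.succ_pos m) h5
  have h5 : 2 * m + 2 = 2 * m + 1 + 1 := rfl
  rw [h5, h4] at h1
  rw [show (2 * (m + 1) + 1).choose (m + 1) * (m + 2) =
    (2 * (m + 1) + 1).choose (m + 1) * (m + 1 + 1) from rfl, ← h1]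
  ring

theorem choose_sq (m : ℕ) : (2 * m + 1).choose m ^ 2 * (3 * m + 4) ≤ 4 * 16 ^ m := by
  induction m with
  | zero => simp
  | succ m ih =>
    have h1 := choose_rec m
    set a := (2 * (m + 1) + 1).choose (m + 1)
    set b := (2 * m + 1).choose m
    have h2 : (a * (m + 2)) ^ 2 * (3 * m + 4) * (3 * (m + 1) + 4) =
        (b ^ 2 * (3 * m + 4)) * (4 * (2 * m + 3) ^ 2 * (3 * (m + 1) + 4)) := by
      rw [h1]
      ring
    have h3 : 4 * (2 * m + 3) ^ 2 * (3 * (m + 1) + 4) ≤ 16 * ((m + 2) ^ 2 * (3 * m + 4)) := by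
      nlinarith
    have h4 : (a ^ 2 * (3 * (m + 1) + 4)) * ((m + 2) ^ 2 * (3 * m + 4)) ≤
        (4 * 16 ^ (m + 1)) * ((m + 2) ^ 2 * (3 * m + 4)) := by
      calc (a ^ 2 * (3 * (m + 1) + 4)) * ((m + 2) ^ 2 * (3 * m + 4)) =
          (a * (m + 2)) ^ 2 * (3 * m + 4) * (3 * (m + 1) + 4) := by ring
        _ = (b ^ 2 * (3 * m + 4)) * (4 * (2 * m + 3) ^ 2 * (3 * (m + 1) + 4)) := h2
        _ ≤ (4 * 16 ^ m) * (16 * ((m + 2) ^ 2 * (3 * m + 4))) := Nat.mul_le_mul ih h3
        _ = (4 * 16 ^ (m + 1)) * ((m + 2) ^ 2 * (3 * m + 4)) := by ring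
    exact Nat.le_of_mul_le_mul_right h4 (by positivity)

theorem choose_small {m Δ : ℕ} (h : 64 * Δ ^ 2 ≤ 3 * m + 4) :
    4 * (Δ * (2 * m + 1).choose m) ≤ 4 ^ m := by
  have h1 := choose_sq m
  set b := (2 * m + 1).choose m
  have h2 : (4 * (Δ * b)) ^ 2 * 4 ≤ (4 ^ m) ^ 2 * 4 := by
    calc (4 * (Δ * b)) ^ 2 * 4 = b ^ 2 * (64 * Δ ^ 2) := by ring
      _ ≤ b ^ 2 * (3 * m + 4) := Nat.mul_le_mul_left _ h
      _ ≤ 4 * 16 ^ m := h1
      _ = (4 ^ m) ^ 2 * 4 := by
        rw [← pow_mul, mul_comm m 2, pow_mul]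
        norm_num
        ring
  have h3 : (4 * (Δ * b)) ^ 2 ≤ (4 ^ m) ^ 2 := Nat.le_of_mul_le_mul_right h2 (by norm_num)
  exact (Nat.pow_le_pow_iff_left (by norm_num)).1 h3

open Classical in
/-- Smolensky's lemma -/
theorem smolensky {m Δ : ℕ} {ω : F} (hω : ω ≠ 1) (hω0 : ω ≠ 0) {H : Cube (2 * m + 1) → F}
    (hH : H ∈ Dg F (2 * m + 1) Δ) (h : 64 * Δ ^ 2 ≤ 3 * m + 4) :
    8 * (univ.filter fun x : Cube (2 * m + 1) => H x = ω ^ wt x).card ≤ 5 * 2 ^ (2 * m + 1) := by
  have h1 := smol_dim rfl hω hω0 hH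
  have h2 : ∑ i ∈ range (m + Δ + 1), (2 * m + 1).choose i ≤
      4 ^ m + Δ * (2 * m + 1).choose m := by
    rw [show m + Δ + 1 = m + 1 + Δ by ring, sum_range_add, Nat.sum_range_choose_halfway]
    refine Nat.add_le_add_left ?_ _
    calc ∑ x ∈ range Δ, (2 * m + 1).choose (m + 1 + x) ≤
        ∑ _x ∈ range Δ, (2 * m + 1).choose m := by
          refine sum_le_sum fun i _ => ?_
          have h3 := Nat.choose_le_middle (m + 1 + i) (2 * m + 1)
          rwa [show (2 * m + 1) / 2 = m by omega] at h3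
      _ = Δ * (2 * m + 1).choose m := by rw [sum_const, card_range, smul_eq_mul]
  have h3 := choose_small h
  have h4 : 2 ^ (2 * m + 1) = 2 * 4 ^ m := by
    rw [pow_succ, pow_mul]
    norm_num
    ring
  rw [h4]
  omega

end Pool.Agent.U343.Sm
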