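import Pool.Agent.U343.Sm.Circ
import Pool.Agent.U343.Sm.Smol
import Pool.Agent.U343.Sm.Add

set_option autoImplicit false

/-!
# From a set of integers to `MOD q`
-/

namespace Pool.Agent.U343.Sm

open Finset

variable {F : Type} [Field F]

theorem app_comp {k n t D : ℕ} {ε : ℝ} {N : Cube k → Cube n}
    (hN : ∀ p, (fun x => bf F (N x p)) ∈ Dg F k t) {f : Cube n → Bool} (h : App F D ε f) :
    App F (D * t) ε (fun x => f (N x)) := by
  classical
  intro μ hμ
  obtain ⟨P, hP, h1⟩ := h (fun z => ∑ x ∈ univ.filter (fun x => N x = z), μ x)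
    (fun z => sum_nonneg fun x _ => hμ x)
  refine ⟨fun x => P (N x), dg_comp hN hP, ?_⟩
  have h2 : ∑ z, ∑ x ∈ univ.filter (fun x => N x = z), μ x = ∑ x, μ x :=
    sum_fiberwise univ N μ
  rw [h2] at h1
  refine le_trans (le_of_eq ?_) h1
  rw [← sum_fiberwise_of_maps_to (s := univ.filter (fun x => P (N x) ≠ bf F (f (N x))))
    (t := univ.filter (fun z => P z ≠ bf F (f z))) (g := N)
    (fun x hx => mem_filter.2 ⟨mem_univ _, (mem_filter.1 hx).2⟩)]
  refine sum_congr rfl fun z hz => ?_
  refine sum_congr ?_ fun _ _ => rfl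
  ext x
  simp only [mem_filter, mem_univ, true_and] at hz ⊢
  constructor
  · rintro ⟨-, h⟩
    exact h
  · intro h
    exact ⟨by rw [h]; exact hz, h⟩

theorem app_mul {n D : ℕ} {ε : ℝ} {f g : Cube n → Bool} (hf : App F D ε f) (hg : App F D ε g) :
    App F (D + D) (ε + ε) (fun x => f x && g x) := by
  classical
  intro μ hμ
  obtain ⟨P, hP, h1⟩ := hf μ hμ
  obtain ⟨Q, hQ, h2⟩ := hg μ hμ
  refine ⟨P * Q, dg_mul hP hQ, ?_⟩
  have h3 : ∑ x ∈ univ.filter (fun x => (P * Q) x ≠ bf F (f x && g x)), μ x ≤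
      ∑ x ∈ univ.filter (fun x => P x ≠ bf F (f x)), μ x +
        ∑ x ∈ univ.filter (fun x => Q x ≠ bf F (g x)), μ x := by
    rw [← sum_union_inter]
    refine le_trans (sum_le_sum_of_subset_of_nonneg (t := univ.filter (fun x => P x ≠ bf F (f x)) ∪
      univ.filter (fun x => Q x ≠ bf F (g x))) ?_ fun x _ _ => hμ x)
      (le_add_of_nonneg_right (sum_nonneg fun x _ => hμ x))
    intro x hx
    rw [mem_filter] at hx
    rw [mem_union, mem_filter, mem_filter]
    by_contra hcon
    push Not at hcon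
    apply hx.2
    rw [Pi.mul_apply, hcon.1 (mem_univ _), hcon.2 (mem_univ _)]
    cases f x <;> cases g x <;> simp [bf]
  rw [add_mul]
  exact h3.trans (add_le_add h1 h2)

open Classical in
/-- a sample of shifts -/
theorem sample {k L : ℕ} (AA : Finset ℕ) (hne : AA.Nonempty) (W1 : ℕ → Cube k → Prop)
    (V : ℕ → Cube k → Prop) (X1 : Cube k → Prop) {η δ : ℝ} (hη1 : η ≤ 1)
    (hδ1 : δ ≤ 1)
    (h1 : ∀ x, ((AA.filter fun A => W1 A x).card : ℝ) ≤ η * AA.card)
    (h2 : ∀ x, X1 x → δ * AA.card ≤ ((AA.filter fun A => V A x).card : ℝ)) :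
    ∃ a : Fin L → ℕ, (∀ j, a j ∈ AA) ∧
      ((univ.filter fun x : Cube k => (∃ j, W1 (a j) x) ∨ (X1 x ∧ ∀ j, ¬ V (a j) x)).card : ℝ) ≤
        (L * η + (1 - δ) ^ L) * 2 ^ k := by
  set PP : Finset (Fin L → ℕ) := Fintype.piFinset (fun _ => AA) with hPd
  have hcard : ∀ B : Finset ℕ, (Fintype.piFinset (fun _ : Fin L => B)).card = B.card ^ L := by
    intro B
    rw [Fintype.card_piFinset_const]
  have hA0 : (0 : ℝ) < AA.card := by exact_mod_cast hne.card_pos
  have hPc : (PP.card : ℝ) = (AA.card : ℝ) ^ L := by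
    rw [hPd, hcard]
    push_cast
    rfl
  have hP0 : (0 : ℝ) < PP.card := by
    rw [hPc]
    positivity
  -- for each `x` few samples are bad
  have hx1 : ∀ x, ((PP.filter fun a => ∃ j, W1 (a j) x).card : ℝ) ≤ L * η * PP.card := by
    intro x
    have e1 : (PP.filter fun a => ∃ j, W1 (a j) x).card +
        (Fintype.piFinset (fun _ : Fin L => AA.filter fun A => ¬ W1 A x)).card = PP.card := by
      rw [← card_filter_add_card_filter_not (s := PP) (fun a => ∃ j, W1 (a j) x)]
      congr 2
      ext a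
      simp only [hPd, Fintype.mem_piFinset, mem_filter, not_exists]
      constructor
      · intro h
        exact ⟨fun j => (h j).1, fun j => (h j).2⟩
      · intro h j
        exact ⟨h.1 j, h.2 j⟩
    have e2 : ((AA.filter fun A => ¬ W1 A x).card : ℝ) ≥ (1 - η) * AA.card := by
      have e3 : (AA.filter fun A => W1 A x).card + (AA.filter fun A => ¬ W1 A x).card = AA.card :=
        card_filter_add_card_filter_not _
      have e4 : ((AA.filter fun A => W1 A x).card : ℝ) + (AA.filter fun A => ¬ W1 A x).card =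
          AA.card := by exact_mod_cast e3
      have := h1 x
      linarith
    have e5 : ((1 - η) * AA.card) ^ L ≤ ((AA.filter fun A => ¬ W1 A x).card : ℝ) ^ L :=
      pow_le_pow_left₀ (mul_nonneg (by linarith) hA0.le) e2 L
    have e6 : ((PP.filter fun a => ∃ j, W1 (a j) x).card : ℝ) =
        PP.card - ((AA.filter fun A => ¬ W1 A x).card : ℝ) ^ L := by
      rw [hcard] at e1
      have : (((PP.filter fun a => ∃ j, W1 (a j) x).card : ℕ) : ℝ) +
          (((AA.filter fun A => ¬ W1 A x).card : ℕ) : ℝ) ^ L = PP.card := by exact_mod_cast e1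
      linarith
    rw [e6]
    have e7 := one_add_mul_le_pow (a := -η) (by linarith) L
    have e8 : (1 - L * η) * PP.card ≤ ((1 - η) * AA.card) ^ L := by
      rw [mul_pow, ← hPc]
      refine mul_le_mul_of_nonneg_right ?_ hP0.le
      calc 1 - L * η = 1 + L * (-η) := by ring
        _ ≤ (1 + -η) ^ L := e7
        _ = (1 - η) ^ L := by ring
    linarith
  have hx2 : ∀ x, ((PP.filter fun a => X1 x ∧ ∀ j, ¬ V (a j) x).card : ℝ) ≤
      (1 - δ) ^ L * PP.card := by
    intro x
    by_cases hx : X1 x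
    · have e1 : (PP.filter fun a => X1 x ∧ ∀ j, ¬ V (a j) x) =
          Fintype.piFinset (fun _ : Fin L => AA.filter fun A => ¬ V A x) := by
        ext a
        simp only [hPd, Fintype.mem_piFinset, mem_filter]
        constructor
        · intro h j
          exact ⟨h.1 j, h.2.2 j⟩
        · intro h
          exact ⟨fun j => (h j).1, hx, fun j => (h j).2⟩
      rw [e1, hcard, hPc, ← mul_pow]
      push_cast
      refine pow_le_pow_left₀ (Nat.cast_nonneg _) ?_ L
      have e3 : (AA.filter fun A => V A x).card + (AA.filter fun A => ¬ V A x).card = AA.card :=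
        card_filter_add_card_filter_not _
      have e4 : ((AA.filter fun A => V A x).card : ℝ) + (AA.filter fun A => ¬ V A x).card =
          AA.card := by exact_mod_cast e3
      have := h2 x hx
      linarith
    · have e1 : (PP.filter fun a => X1 x ∧ ∀ j, ¬ V (a j) x) = ∅ := by
        rw [filter_eq_empty_iff]
        intro a _ h
        exact hx h.1
      rw [e1, card_empty]
      have : 0 ≤ 1 - δ := by linarith
      push_cast
      positivity
  -- averaging
  by_contra hcon
  push Not at hcon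
  have hb : ∀ a ∈ PP, (L * η + (1 - δ) ^ L) * 2 ^ k <
      ((univ.filter fun x : Cube k => (∃ j, W1 (a j) x) ∨
        (X1 x ∧ ∀ j, ¬ V (a j) x)).card : ℝ) := by
    intro a ha
    exact hcon a (Fintype.mem_piFinset.1 ha)
  have hne' : PP.Nonempty := by
    rw [← card_pos]
    exact_mod_cast hP0
  have h3 := sum_lt_sum_of_nonempty hne' hb
  rw [sum_const, nsmul_eq_mul] at h3
  have h4 : ∑ a ∈ PP, ((univ.filter fun x : Cube k => (∃ j, W1 (a j) x) ∨
        (X1 x ∧ ∀ j, ¬ V (a j) x)).card : ℝ) ≤ PP.card * ((L * η + (1 - δ) ^ L) * 2 ^ k) := by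
    have e1 : ∀ a : Fin L → ℕ, ((univ.filter fun x : Cube k => (∃ j, W1 (a j) x) ∨
        (X1 x ∧ ∀ j, ¬ V (a j) x)).card : ℝ) = ∑ x : Cube k,
          if (∃ j, W1 (a j) x) ∨ (X1 x ∧ ∀ j, ¬ V (a j) x) then (1 : ℝ) else 0 := by
      intro a
      rw [card_filter]
      push_cast
      rfl
    rw [sum_congr rfl fun a _ => e1 a, sum_comm]
    have e2 : ∀ x : Cube k, ∑ a ∈ PP,
        (if (∃ j, W1 (a j) x) ∨ (X1 x ∧ ∀ j, ¬ V (a j) x) then (1 : ℝ) else 0) ≤
          PP.card * (L * η + (1 - δ) ^ L) := by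
      intro x
      have e3 : ∀ a ∈ PP, (if (∃ j, W1 (a j) x) ∨ (X1 x ∧ ∀ j, ¬ V (a j) x) then (1 : ℝ) else 0) ≤
          (if ∃ j, W1 (a j) x then (1 : ℝ) else 0) +
            (if X1 x ∧ ∀ j, ¬ V (a j) x then (1 : ℝ) else 0) := by
        intro a _
        by_cases c1 : ∃ j, W1 (a j) x
        · rw [if_pos (Or.inl c1), if_pos c1]
          split_ifs <;> norm_num
        · by_cases c2 : X1 x ∧ ∀ j, ¬ V (a j) x
          · rw [if_pos (Or.inr c2), if_neg c1, if_pos c2]
            norm_num
          · rw [if_neg (by tauto), if_neg c1, if_neg c2]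
            norm_num
      refine (sum_le_sum e3).trans ?_
      rw [sum_add_distrib]
      have e4 : ∑ a ∈ PP, (if ∃ j, W1 (a j) x then (1 : ℝ) else 0) =
          ((PP.filter fun a => ∃ j, W1 (a j) x).card : ℝ) := by
        rw [card_filter]
        push_cast
        rfl
      have e5 : ∑ a ∈ PP, (if X1 x ∧ ∀ j, ¬ V (a j) x then (1 : ℝ) else 0) =
          ((PP.filter fun a => X1 x ∧ ∀ j, ¬ V (a j) x).card : ℝ) := by
        rw [card_filter]
        push_cast
        rfl
      rw [e4, e5]
      have := hx1 x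
      have := hx2 x
      linarith
    refine (sum_le_sum fun x _ => e2 x).trans ?_
    rw [sum_const, card_univ, nsmul_eq_mul, Fintype.card_fun, Fintype.card_bool, Fintype.card_fin]
    push_cast
    linarith
  linarith

end Pool.Agent.U343.Sm
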