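import Pool.Agent.U343.Sm.Fin

set_option autoImplicit false

/-!
# The lower bound, uniformly in the set
-/

namespace Pool.Agent.U343.Sm

open Finset Filter Topology

/-- the lower bound, in terms of an integer `b` with `b ^ (2 d + 5) ≤ n < (b + 1) ^ (2 d + 5)` -/
theorem lower_unif {r q : ℕ} (hr : r.Prime) (hq : q.Prime) (hq4 : q % 4 = 3) (hqr : q ≠ r)
    (d : ℕ) :
    ∃ κ : ℝ, 0 < κ ∧ ∃ b0 : ℕ, ∀ T : ℕ → Prop, (∀ p : ℕ, p.Prime → p % 4 = 1 → T p) →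
      (∀ N : ℕ, N % 4 = 1 → q ∣ N → ¬ q ^ 2 ∣ N → ¬ T N) → ∀ b ≥ b0, ∀ n : ℕ,
      b ^ (2 * d + 5) ≤ n →
      n < (b + 1) ^ (2 * d + 5) → ∀ S ≤ 2 ^ (2 * b), ∀ f : Cube n → Bool, Circuit r S n d f →
        κ * 2 ^ n / n < (errs f T).card := by
  have hq1 : 1 ≤ q := hq.pos
  have : NeZero (4 * q ^ 2) := ⟨by positivity⟩
  obtain ⟨c, hc, hc1, N0, hpr⟩ := primes_uniform (4 * q ^ 2)
  set g := q * (q - 1) with hgdef
  have hg2 := two_pow_g hq hq4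
  have hg : 2 ≤ g := by
    have h3 : 3 ≤ q := by omega
    have : 3 * 2 ≤ q * (q - 1) := Nat.mul_le_mul h3 (by omega)
    omega
  obtain ⟨C1, hC1⟩ : ∃ C1 : ℕ, 2 * Real.log (64 * q) / c ≤ C1 := exists_nat_ge _
  set e := 2 * d + 5 with he
  have ev1 : ∀ᶠ b : ℕ in atTop, 1024 * r ^ (2 * d + 2) * (4 * (d + 2)) ^ (2 * d + 4) *
      (4 * g) ≤ b := eventually_ge_atTop _
  have ev2 := ev (64 * q * (2 * C1 + 4 + 2 * C1 * (8 * (q : ℝ) ^ 2) + 8 * (q : ℝ) ^ 2) *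
    2 ^ (2 * e)) (2 * e)
  have ev3 : ∀ᶠ h : ℕ in atTop, (2 : ℝ) ^ (g + 5) * (2 * h + 2) / c ≤ 2 ^ h := by
    have h1 := ev ((2 : ℝ) ^ (g + 5) * 4 / c) 1
    filter_upwards [h1, eventually_ge_atTop 1] with h h2 h3
    refine le_trans ?_ h2
    have h4 : (1 : ℝ) ≤ h := by exact_mod_cast h3
    rw [pow_one, div_mul_eq_mul_div, mul_assoc]
    gcongr
    linarith
  obtain ⟨b1, hb1⟩ := eventually_atTop.1 (ev1.and ev2)
  obtain ⟨h1, hh1⟩ := eventually_atTop.1 ev3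
  refine ⟨1 / (1024 * q ^ 3 * (C1 + 1)), by positivity,
    b1 + 2 * h1 + N0 + 16 * q ^ 2 + 8 * g + 4 * (d + 2) + 10, ?_⟩
  intro T hTp hTq b hb n hn1 hn2 S hS f hC
  by_contra hsmall
  rw [not_lt] at hsmall
  obtain ⟨hB1, hB2⟩ := hb1 b (by omega)
  have hbig : 10 ≤ b := by omega
  have hnb : b * b ≤ n := by
    refine le_trans ?_ hn1
    rw [he, show 2 * d + 5 = (2 * d + 3) + 2 by ring, pow_add]
    have h2 : 1 ≤ b ^ (2 * d + 3) := Nat.one_le_pow _ _ (by omega)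
    nlinarith
  have hbn : 10 * b ≤ n := le_trans (Nat.mul_le_mul_right b hbig) hnb
  obtain ⟨t, hnt⟩ : ∃ t, n = t + 1 := ⟨n - 1, by omega⟩
  obtain ⟨l, hl⟩ : ∃ l, l = 4 * (d + 2) * b := ⟨_, rfl⟩
  obtain ⟨m, hm⟩ : ∃ m, m = n / (4 * g) := ⟨_, rfl⟩
  obtain ⟨h, hh⟩ : ∃ h, h = n / 2 := ⟨_, rfl⟩
  have h2t : t < 2 ^ t := Nat.lt_two_pow_self
  have hlt : l ≤ t := by
    have h3 : 4 * (d + 2) * b < b * b := by
      have : 4 * (d + 2) < b := by omega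
      exact Nat.mul_lt_mul_of_pos_right this (by omega)
    omega
  have hl1 : 1 ≤ l := by
    rw [hl]
    exact Nat.mul_pos (by positivity) (by omega)
  have hgm : g * (2 * m + 1) + 1 ≤ h + g + 1 := by
    have h5 : 4 * g * m ≤ n := by
      rw [hm]
      exact Nat.mul_div_le n (4 * g)
    have h6 : 2 * g * m ≤ h := by
      have : 4 * g * m = 2 * (2 * g * m) := by ring
      omega
    have h7 : g * (2 * m + 1) + 1 = 2 * g * m + g + 1 := by ring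
    omega
  have hc2t : c / (2 * t) ≤ 1 := by
    have : (1 : ℝ) ≤ t := by
      have : 1 ≤ t := by omega
      exact_mod_cast this
    rw [div_le_one (by positivity)]
    linarith
  -- powers
  have hKn : 64 * (q : ℝ) * (2 * C1 + 4 + 2 * C1 * (8 * (q : ℝ) ^ 2) + 8 * (q : ℝ) ^ 2) *
      (n : ℝ) ^ 2 ≤ 2 ^ b := by
    have h5 : n ≤ (2 * b) ^ e := hn2.le.trans (Nat.pow_le_pow_left (by omega) _)
    have h6 : (n : ℝ) ≤ (2 * (b : ℝ)) ^ e := by exact_mod_cast h5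
    have h7 : (n : ℝ) ^ 2 ≤ 2 ^ (2 * e) * (b : ℝ) ^ (2 * e) := by
      calc (n : ℝ) ^ 2 ≤ ((2 * (b : ℝ)) ^ e) ^ 2 := pow_le_pow_left₀ (by positivity) h6 2
        _ = _ := by rw [← pow_mul, mul_pow, mul_comm e 2]
    calc _ ≤ 64 * (q : ℝ) * (2 * C1 + 4 + 2 * C1 * (8 * (q : ℝ) ^ 2) + 8 * (q : ℝ) ^ 2) *
          (2 ^ (2 * e) * (b : ℝ) ^ (2 * e)) := mul_le_mul_of_nonneg_left h7 (by positivity)
      _ = 64 * q * (2 * C1 + 4 + 2 * C1 * (8 * (q : ℝ) ^ 2) + 8 * (q : ℝ) ^ 2) *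
          2 ^ (2 * e) * (b : ℝ) ^ (2 * e) := by ring
      _ ≤ 2 ^ b := hB2
  have hη : 2 * (4 * (q : ℝ) ^ 2) * n / 2 ^ l ≤ 8 * (q : ℝ) ^ 2 * n * (1 / 2 ^ b) := by
    have h5 := num_l (b := b) hl
    rw [one_div_pow] at h5
    calc 2 * (4 * (q : ℝ) ^ 2) * n / 2 ^ l = 8 * (q : ℝ) ^ 2 * n * (1 / 2 ^ l) := by ring
      _ ≤ 8 * (q : ℝ) ^ 2 * n * (1 / 2 ^ b) := mul_le_mul_of_nonneg_left h5 (by positivity)
  have hη2 : 2 * (4 * (q : ℝ) ^ 2) * (errs f T).card / 2 ^ t ≤ 1 / (64 * q * (C1 + 1) * n) := by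
    have hq0 : (0 : ℝ) < q := by exact_mod_cast hq.pos
    have hn0 : (0 : ℝ) < n := by
      have : 0 < n := by omega
      exact_mod_cast this
    have h2n : (2 : ℝ) ^ n = 2 * 2 ^ t := by rw [hnt, pow_succ]; ring
    obtain ⟨E, hE⟩ : ∃ E : ℝ, E = ((errs f T).card : ℝ) := ⟨_, rfl⟩
    rw [← hE] at hsmall ⊢
    rw [h2n] at hsmall
    have h2t0 : (0 : ℝ) < 2 ^ t := by positivity
    have e1 : 1 / (1024 * (q : ℝ) ^ 3 * (C1 + 1)) * (2 * 2 ^ t) / n =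
        (2 ^ t / (2 * (4 * (q : ℝ) ^ 2))) * (1 / (64 * q * (C1 + 1) * n)) := by
      field_simp
      norm_num
    rw [e1] at hsmall
    have e2 : (2 : ℝ) * (4 * (q : ℝ) ^ 2) * E / (2 : ℝ) ^ t =
        E / ((2 : ℝ) ^ t / (2 * (4 * (q : ℝ) ^ 2))) := by
      field_simp
    rw [e2, div_le_iff₀ (by positivity), mul_comm]
    exact hsmall
  obtain ⟨hz1, herr⟩ := num_err (L := C1 * n) (C1 := C1) (n := n) (b := b) (q := q) hq1 rfl
    (by omega) hKn (num_S (S := S) (d := d) (by omega) hS hl) (num_l hl) hη hη2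
    (num_samples hc hq1 hC1 (by omega : 0 < t) (by omega : t ≤ n) hc2t)
  have hcon := contra (L := C1 * n) hr hq hq4 hqr hg hg2 hTp hTq hC hnt hc hpr hl1 (by omega)
    (by omega) (by omega) hlt (by omega) (num_prime hc (by omega) hgm (by omega) (by omega)
      (hh1 h (by omega))) (num_deg (by omega) hl (by omega) hB1 hn1 hm) rfl hz1 hc2t
  exact absurd hcon (not_le.2 herr)

/-- circuits and orders of planes -/
theorem real_unif {r q : ℕ} (hr : r.Prime) (hq : q.Prime) (hq4 : q % 4 = 3) (hqr : q ≠ r)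
    (d : ℕ) :
    ∃ κ : ℝ, 0 < κ ∧ ∀ᶠ n : ℕ in atTop, ∀ (S : ℕ) (f : Cube n → Bool), Circuit r S n d f →
      (S : ℝ) ≤ 2 ^ ((n : ℝ) ^ (1 / (2 * (d : ℝ) + 5))) →
      ∀ T : ℕ → Prop, (∀ p : ℕ, p.Prime → p % 4 = 1 → T p) →
      (∀ N : ℕ, N % 4 = 1 → q ∣ N → ¬ q ^ 2 ∣ N → ¬ T N) →
      κ * 2 ^ n / n <
        ({N : ℕ | N < 2 ^ n ∧ N % 4 = 1 ∧ ¬ (f (bits n N) = true ↔ T N)}.ncard : ℝ) := by
  classical
  obtain ⟨κ, hκ, b0, h⟩ := lower_unif hr hq hq4 hqr d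
  refine ⟨κ, hκ, ?_⟩
  filter_upwards [eventually_ge_atTop ((b0 + 1) ^ (2 * d + 5))] with n hn S f hC hS T hTp hTq
  obtain ⟨y, hy⟩ : ∃ y : ℝ, y = (n : ℝ) ^ (1 / (2 * (d : ℝ) + 5)) := ⟨_, rfl⟩
  have he : (0 : ℝ) < 2 * (d : ℝ) + 5 := by positivity
  have hy0 : 0 ≤ y := by
    rw [hy]
    positivity
  have hypow : y ^ (2 * d + 5) = n := by
    rw [hy, ← Real.rpow_natCast, ← Real.rpow_mul (by positivity)]
    push_cast
    rw [one_div, inv_mul_cancel₀ he.ne', Real.rpow_one]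
  have hb1 : ((b0 : ℝ) + 1) ≤ y := by
    have h1 : ((b0 : ℝ) + 1) ^ (2 * d + 5) ≤ y ^ (2 * d + 5) := by
      rw [hypow]
      exact_mod_cast hn
    exact le_of_pow_le_pow_left₀ (by omega) hy0 h1
  set b := ⌊y⌋₊ with hb
  have hbl : (b : ℝ) ≤ y := Nat.floor_le hy0
  have hbu : y < b + 1 := Nat.lt_floor_add_one y
  have hbb0 : b0 + 1 ≤ b := by
    rw [hb]
    apply Nat.le_floor
    push_cast
    exact hb1
  have h1 : b ^ (2 * d + 5) ≤ n := by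
    have : ((b : ℝ)) ^ (2 * d + 5) ≤ n := by
      rw [← hypow]
      exact pow_le_pow_left₀ (by positivity) hbl _
    exact_mod_cast this
  have h2 : n < (b + 1) ^ (2 * d + 5) := by
    have : (n : ℝ) < ((b : ℝ) + 1) ^ (2 * d + 5) := by
      rw [← hypow]
      exact pow_lt_pow_left₀ hbu hy0 (by omega)
    exact_mod_cast this
  have hS2 : S ≤ 2 ^ (2 * b) := by
    have h3 : (S : ℝ) ≤ 2 ^ (2 * b) := by
      rw [← hy] at hS
      refine hS.trans ?_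
      rw [← Real.rpow_natCast]
      apply Real.rpow_le_rpow_of_exponent_le (by norm_num)
      push_cast
      have : (1 : ℝ) ≤ b := by
        have : 1 ≤ b := by omega
        exact_mod_cast this
      linarith
    exact_mod_cast h3
  have h4 := h T hTp hTq b (by omega) n h1 h2 S hS2 f hC
  have h5 : {N : ℕ | N < 2 ^ n ∧ N % 4 = 1 ∧ ¬ (f (bits n N) = true ↔ T N)} =
      ((errs f T : Finset ℕ) : Set ℕ) := by
    ext N
    rw [mem_coe, errs, mem_filter, mem_range]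
    rfl
  rw [h5, Set.ncard_coe_finset]
  exact h4

end Pool.Agent.U343.Sm
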