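import Pool.Agent.U343.Sm.Singer
import Pool.Agent.U343.Sm.Unif

set_option autoImplicit false

/-!
# Difference sets with Singer parameters and circuits
-/

namespace Pool.Agent.U343.Sm

open Finset Filter Topology
open Pool.Agent.H771R2.SingerDS Pool.Agent.H771R2.Lander

/-- the test for a prime divisor `q` of the order of the group -/
theorem excluded_dvd {n m q p a u j : ℕ} (hm : Odd m) (hm3 : 3 ≤ m) (hn : 2 ≤ n)
    (h : HasSinger n m) (hq : q.Prime) (hqv' : q ∣ ∑ i ∈ Finset.range m, n ^ i) (hp : p.Prime)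
    (hnu : n = p ^ a * u) (hpu : ¬ p ∣ u) (ha : Odd a) (hj : (p : ZMod q) ^ j = -1) : False := by
  obtain ⟨G, hG, hGf, hGd, D, h1, h2, h3⟩ := h
  have : Fact q.Prime := ⟨hq⟩
  have hn1 : 0 < n - 1 := by omega
  have hgeom : ∀ j : ℕ, (∑ i ∈ Finset.range j, n ^ i) * (n - 1) = n ^ j - 1 := by
    intro j
    exact Nat.geomSum_eq (by omega) j ▸ (Nat.div_mul_cancel (by
      simpa using Nat.sub_dvd_pow_sub_pow n 1 j))
  have hv : Fintype.card G = ∑ i ∈ Finset.range m, n ^ i :=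
    Nat.eq_of_mul_eq_mul_right hn1 (h1.trans (hgeom m).symm)
  have hk : D.card = ∑ i ∈ Finset.range (m - 1), n ^ i :=
    Nat.eq_of_mul_eq_mul_right hn1 (h2.trans (hgeom (m - 1)).symm)
  have hlam : ∀ g : G, g ≠ 1 → ((D ×ˢ D).filter (fun p : G × G => p.1 * p.2⁻¹ = g)).card =
      ∑ i ∈ Finset.range (m - 2), n ^ i := fun g hg =>
    Nat.eq_of_mul_eq_mul_right hn1 ((h3 g hg).trans (hgeom (m - 2)).symm)
  have hodd : Odd (Fintype.card G) := by
    obtain ⟨j, rfl⟩ := hm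
    rw [hv]
    exact odd_geom n j
  have hqv : q ∣ Fintype.card G := by rw [hv]; exact hqv'
  have hru : ¬ (p : ℤ) ∣ ((u : ℤ) ^ (m - 2)) := by
    intro h4
    have h5 := (Nat.prime_iff_prime_int.1 hp).dvd_of_dvd_pow h4
    exact hpu (by exact_mod_cast h5)
  refine no_difference_set D _ _ hk hlam hodd hq hqv hp hj (a := a * (m - 2)) ?_ hru ?_
  · refine ha.mul ?_
    obtain ⟨j, rfl⟩ := hm
    exact ⟨j - 1, by omega⟩
  · have h4 : m - 1 = (m - 2) + 1 := by omega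
    rw [h4, Finset.sum_range_succ]
    push_cast
    rw [hnu]
    push_cast
    ring

theorem geom_mod_one {n m : ℕ} (h4 : n % 4 = 1) :
    (∑ i ∈ Finset.range m, n ^ i) % 4 = m % 4 := by
  induction m with
  | zero => simp
  | succ m ih =>
    rw [Finset.sum_range_succ, Nat.add_mod, ih]
    have h : n ^ m % 4 = 1 := by simp [Nat.pow_mod, h4]
    rw [h]
    omega

/-- no difference set with Singer parameters -/
theorem sing_not {n m p : ℕ} (hm4 : m % 4 = 3) (h4 : n % 4 = 1) (hp : p.Prime) (hp4 : p % 4 = 3)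
    (hpn : p ∣ n) (hpn2 : ¬ p ^ 2 ∣ n) : ¬ HasSinger n m := by
  intro h
  have hn : 2 ≤ n := by
    have := Nat.le_of_dvd (by omega) hpn
    have := hp.two_le
    omega
  have hm : Odd m := Nat.odd_iff.2 (by omega)
  have hm3 : 3 ≤ m := by omega
  have : Fact p.Prime := ⟨hp⟩
  set V : ℕ := ∑ i ∈ Finset.range m, n ^ i with hV
  have hV4 : V % 4 = 3 := by
    rw [hV, geom_mod_one h4, hm4]
  have h5 : jacobiSym (p : ℤ) V = -1 := by
    rw [jacobiSym.quadratic_reciprocity_three_mod_four hp4 hV4]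
    have h6 : jacobiSym (V : ℤ) p = 1 := by
      have h7 : (V : ℤ) % (p : ℤ) = 1 % (p : ℤ) := by
        have h8 : V = 1 + n * ∑ i ∈ Finset.range (m - 1), n ^ i := by
          have h9 : m = (m - 1) + 1 := by omega
          rw [hV]
          conv_lhs => rw [h9]
          rw [Finset.sum_range_succ', Finset.mul_sum, pow_zero, add_comm]
          congr 1
          refine Finset.sum_congr rfl fun i _ => ?_
          ring
        obtain ⟨c, hc⟩ := hpn
        rw [h8]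
        push_cast
        rw [hc]
        push_cast
        rw [mul_assoc (p : ℤ), Int.add_mul_emod_self_left]
      rw [jacobiSym.mod_left, h7, ← jacobiSym.mod_left, jacobiSym.one_left]
    rw [h6]
  obtain ⟨q, hq, hqV, hJ⟩ := jacobiSym.eq_neg_one_at_prime_divisor_of_eq_neg_one h5
  have : Fact q.Prime := ⟨hq⟩
  rw [← jacobiSym.legendreSym.to_jacobiSym] at hJ
  have h8 : ((p : ℕ) : ZMod q) ^ (q / 2) = -1 := by
    have h9 := legendreSym.eq_pow q (p : ℤ)
    rw [hJ, Int.cast_natCast] at h9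
    rw [← h9]
    push_cast
    rfl
  obtain ⟨u, hu⟩ := hpn
  have hpu : ¬ p ∣ u := by
    rintro ⟨w, rfl⟩
    exact hpn2 ⟨w, by rw [hu]; ring⟩
  exact excluded_dvd hm hm3 hn h hq hqV hp (a := 1) (by rw [pow_one]; exact hu) hpu odd_one h8

open Classical in
theorem sing_of_unif {n : ℕ} {f : Cube n → Bool} {x : ℝ} {q : ℕ} (hq : q.Prime)
    (hq4 : q % 4 = 3)
    (h : ∀ T : ℕ → Prop, (∀ p : ℕ, p.Prime → p % 4 = 1 → T p) →
      (∀ N : ℕ, N % 4 = 1 → q ∣ N → ¬ q ^ 2 ∣ N → ¬ T N) →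
      x < ({N : ℕ | N < 2 ^ n ∧ N % 4 = 1 ∧ ¬ (f (bits n N) = true ↔ T N)}.ncard : ℝ)) :
    x < ({N : ℕ | N < 2 ^ n ∧ N % 4 = 1 ∧
      ∀ m : ℕ, m % 4 = 3 → ¬ (f (bits n N) = true ↔ HasSinger N m)}.ncard : ℝ) := by
  set c : ℕ → ℕ := fun N =>
    if h : ∃ m : ℕ, m % 4 = 3 ∧ (f (bits n N) = true ↔ HasSinger N m) then h.choose else 3 with hc
  have hc4 : ∀ N, c N % 4 = 3 := by
    intro N
    by_cases hex : ∃ m : ℕ, m % 4 = 3 ∧ (f (bits n N) = true ↔ HasSinger N m)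
    · have : c N = hex.choose := by
        rw [hc]
        exact dif_pos hex
      rw [this]
      exact hex.choose_spec.1
    · have : c N = 3 := by
        rw [hc]
        exact dif_neg hex
      rw [this]
  have h1 := h (fun N => HasSinger N (c N))
    (fun p hp _ => singer_prime hp (by have := hc4 p; omega))
    (fun N hN h1 h2 => sing_not (hc4 N) hN hq hq4 h1 h2)
  refine lt_of_lt_of_le h1 ?_
  have hfin : {N : ℕ | N < 2 ^ n ∧ N % 4 = 1 ∧
      ∀ m : ℕ, m % 4 = 3 → ¬ (f (bits n N) = true ↔ HasSinger N m)}.Finite :=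
    (Set.finite_lt_nat (2 ^ n)).subset fun N hN => hN.1
  have hsub : {N : ℕ | N < 2 ^ n ∧ N % 4 = 1 ∧ ¬ (f (bits n N) = true ↔ HasSinger N (c N))} ⊆
      {N : ℕ | N < 2 ^ n ∧ N % 4 = 1 ∧
        ∀ m : ℕ, m % 4 = 3 → ¬ (f (bits n N) = true ↔ HasSinger N m)} := by
    rintro N ⟨h2, h3, h4⟩
    refine ⟨h2, h3, fun m hm hi => h4 ?_⟩
    have hex : ∃ m : ℕ, m % 4 = 3 ∧ (f (bits n N) = true ↔ HasSinger N m) := ⟨m, hm, hi⟩
    have : c N = hex.choose := by
      rw [hc]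
      exact dif_pos hex
    rw [this]
    exact hex.choose_spec.2
  exact_mod_cast Set.ncard_le_ncard hsub hfin

theorem singer_circuits {r : ℕ} (hr : r.Prime) (d : ℕ) :
    ∃ κ : ℝ, 0 < κ ∧ ∀ᶠ n : ℕ in atTop, ∀ (S : ℕ) (f : Cube n → Bool),
      Circuit r S n d f → (S : ℝ) ≤ 2 ^ ((n : ℝ) ^ (1 / (2 * (d : ℝ) + 5))) →
      κ * 2 ^ n / n <
        ({N : ℕ | N < 2 ^ n ∧ N % 4 = 1 ∧
          ∀ m : ℕ, m % 4 = 3 → ¬ (f (bits n N) = true ↔ HasSinger N m)}.ncard : ℝ) := by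
  by_cases h3 : r = 3
  · obtain ⟨κ, hκ, h⟩ := real_unif hr (by norm_num : Nat.Prime 7) (by norm_num) (by omega) d
    exact ⟨κ, hκ, h.mono fun n hn S f hC hS =>
      sing_of_unif (by norm_num : Nat.Prime 7) (by norm_num) (hn S f hC hS)⟩
  · obtain ⟨κ, hκ, h⟩ := real_unif hr (by norm_num : Nat.Prime 3) (by norm_num)
      (fun h => h3 h.symm) d
    exact ⟨κ, hκ, h.mono fun n hn S f hC hS =>
      sing_of_unif (by norm_num : Nat.Prime 3) (by norm_num) (hn S f hC hS)⟩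

end Pool.Agent.U343.Sm
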