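import Mathlib
import Pool.Agent.H771R2.SingerDS

set_option autoImplicit false

/-!
# Difference sets with Singer parameters: existence for finite fields
-/

namespace Pool.Agent.U343.Sm

open Module
open Pool.Agent.H771R2.SingerDS (HasSinger)

section
variable {F K : Type} [Field F] [Field K] [Algebra F K]

/-- the scalars -/
def sc (F K : Type) [Field F] [Field K] [Algebra F K] : Subgroup Kˣ :=
  (Units.map (algebraMap F K).toMonoidHom).range

theorem mem_sc {x : Kˣ} : x ∈ sc F K ↔ ∃ c : F, algebraMap F K c = x := by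
  constructor
  · rintro ⟨c, rfl⟩
    exact ⟨c, rfl⟩
  · rintro ⟨c, hc⟩
    have hc0 : c ≠ 0 := by
      rintro rfl
      rw [map_zero] at hc
      exact x.ne_zero hc.symm
    exact ⟨Units.mk0 c hc0, Units.ext hc⟩

theorem card_sc : Nat.card (sc F K) = Nat.card F - 1 := by
  have h : Function.Injective (Units.map (algebraMap F K).toMonoidHom) :=
    Units.map_injective (algebraMap F K).injective
  rw [sc, ← Nat.card_congr (MonoidHom.ofInjective h).toEquiv, Nat.card_units]

/-- the points of a subspace -/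
def PS (S : Submodule F K) : Set (Kˣ ⧸ sc F K) :=
  {g | ∃ x : Kˣ, (x : K) ∈ S ∧ (x : Kˣ ⧸ sc F K) = g}

theorem mem_PS (S : Submodule F K) (x : Kˣ) :
    ((x : Kˣ ⧸ sc F K) ∈ PS S) ↔ (x : K) ∈ S := by
  constructor
  · rintro ⟨y, hy, h⟩
    rw [QuotientGroup.eq] at h
    obtain ⟨c, hc⟩ := mem_sc.1 h
    have h1 : (x : K) = c • (y : K) := by
      rw [Algebra.smul_def, hc, ← Units.val_mul]
      congr 1
      rw [mul_comm, mul_inv_cancel_left]
    rw [h1]
    exact S.smul_mem _ hy
  · intro h
    exact ⟨x, h, rfl⟩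

theorem card_PS [Finite F] [Finite K] (S : Submodule F K) :
    (PS S).ncard * (Nat.card F - 1) = Nat.card F ^ finrank F S - 1 := by
  have h1 := QuotientGroup.card_preimage_mk (sc F K) (PS S)
  have h2 : (QuotientGroup.mk ⁻¹' PS S : Set Kˣ) = {x : Kˣ | (x : K) ∈ S} := by
    ext x
    exact mem_PS S x
  have h3 : ({x : Kˣ | (x : K) ∈ S} : Set Kˣ).ncard = Nat.card S - 1 := by
    rw [← Set.ncard_image_of_injective _ Units.val_injective]
    have h4 : (Units.val '' {x : Kˣ | (x : K) ∈ S}) = (S : Set K) \ {0} := by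
      ext y
      constructor
      · rintro ⟨x, hx, rfl⟩
        exact ⟨hx, x.ne_zero⟩
      · rintro ⟨hy, hy0⟩
        exact ⟨Units.mk0 y hy0, hy, rfl⟩
    rw [h4, Set.ncard_sdiff_singleton_of_mem S.zero_mem]
    rfl
  rw [h2, card_sc, Nat.card_coe_set_eq, Nat.card_coe_set_eq, h3] at h1
  have h5 : Nat.card S = Nat.card F ^ finrank F S := by
    have := Fintype.ofFinite F
    have := Fintype.ofFinite S
    rw [Nat.card_eq_fintype_card, Nat.card_eq_fintype_card, Module.card_eq_pow_finrank (K := F)]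
  rw [mul_comm, ← h1, h5]

/-- the intersection of two hyperplanes -/
theorem finrank_inter [FiniteDimensional F K] {φ ψ : K →ₗ[F] F} (hφ : φ ≠ 0) (h : ∀ c : F, ψ ≠ c • φ) :
    finrank F (LinearMap.ker φ ⊓ LinearMap.ker ψ : Submodule F K) + 2 = finrank F K := by
  have h1 := Module.Dual.finrank_ker_add_one_of_ne_zero (f := φ) hφ
  have h2 : ψ.domRestrict (LinearMap.ker φ) ≠ 0 := by
    intro h0
    obtain ⟨x0, hx0⟩ : ∃ x, φ x ≠ 0 := by
      by_contra hcon
      push Not at hcon
      exact hφ (LinearMap.ext hcon)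
    apply h ((φ x0)⁻¹ * ψ x0)
    ext x
    have h3 : x - ((φ x0)⁻¹ * φ x) • x0 ∈ LinearMap.ker φ := by
      rw [LinearMap.mem_ker, map_sub, map_smul, smul_eq_mul]
      field_simp
      ring
    have h4 := LinearMap.congr_fun h0 ⟨_, h3⟩
    rw [LinearMap.domRestrict_apply, LinearMap.zero_apply, map_sub, map_smul, smul_eq_mul,
      sub_eq_zero] at h4
    rw [h4, LinearMap.smul_apply, smul_eq_mul]
    ring
  have h3 := Module.Dual.finrank_ker_add_one_of_ne_zero (f := ψ.domRestrict (LinearMap.ker φ)) h2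
  have h4 : finrank F (LinearMap.ker φ ⊓ LinearMap.ker ψ : Submodule F K) =
      finrank F (LinearMap.ker (ψ.domRestrict (LinearMap.ker φ))) := by
    rw [← Submodule.map_comap_subtype, Submodule.finrank_map_subtype_eq]
    rfl
  omega

/-- multiplication, then a functional -/
def mulF (φ : K →ₗ[F] F) (u : K) : K →ₗ[F] F := φ ∘ₗ LinearMap.mulLeft F u

theorem mulF_ne {φ : K →ₗ[F] F} (hφ : φ ≠ 0) {u : K} (hu : ∀ c : F, algebraMap F K c ≠ u) (c : F) :
    mulF φ u ≠ c • φ := by
  intro h
  apply hφ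
  have hu0 : u - algebraMap F K c ≠ 0 := sub_ne_zero.2 (hu c).symm
  ext x
  have h1 := LinearMap.congr_fun h ((u - algebraMap F K c)⁻¹ * x)
  rw [mulF, LinearMap.comp_apply, LinearMap.mulLeft_apply, LinearMap.smul_apply, ← map_smul,
    Algebra.smul_def, ← sub_eq_zero, ← map_sub, ← sub_mul, mul_inv_cancel_left₀ hu0] at h1
  exact h1

/-- Singer difference sets -/
theorem singer_exists [Finite F] [Finite K] (hm : 3 ≤ finrank F K) :
    HasSinger (Nat.card F) (finrank F K) := by
  classical
  have hfd : FiniteDimensional F K := Module.finite_iff_finite.2 inferInstance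
  have : Fintype (Kˣ ⧸ sc F K) := Fintype.ofFinite _
  obtain ⟨φ, hφ⟩ : ∃ φ : K →ₗ[F] F, φ ≠ 0 := by
    by_contra hcon
    push Not at hcon
    exact one_ne_zero ((Module.forall_dual_apply_eq_zero_iff F (1 : K)).1
      fun φ => by rw [hcon φ]; rfl)
  have hk := Module.Dual.finrank_ker_add_one_of_ne_zero (f := φ) hφ
  refine ⟨Kˣ ⧸ sc F K, inferInstance, inferInstance, inferInstance,
    (PS (LinearMap.ker φ)).toFinset, ?_, ?_, ?_⟩
  · have h1 := card_PS (⊤ : Submodule F K)
    have h2 : PS (⊤ : Submodule F K) = Set.univ := by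
      ext g
      obtain ⟨x, rfl⟩ := QuotientGroup.mk_surjective g
      simp [mem_PS]
    rw [h2, Set.ncard_univ, finrank_top, Nat.card_eq_fintype_card] at h1
    exact h1
  · have h1 := card_PS (LinearMap.ker φ)
    rw [Set.ncard_eq_toFinset_card'] at h1
    rw [h1]
    congr 2
    omega
  · intro g hg
    obtain ⟨u, rfl⟩ := QuotientGroup.mk_surjective g
    have hu : ∀ c : F, algebraMap F K c ≠ (u : K) := by
      intro c hc
      apply hg
      rw [QuotientGroup.eq_one_iff]
      exact mem_sc.2 ⟨c, hc⟩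
    have h1 := card_PS (LinearMap.ker φ ⊓ LinearMap.ker (mulF φ u))
    have h2 := finrank_inter hφ (mulF_ne hφ hu)
    rw [Set.ncard_eq_toFinset_card'] at h1
    have h3 : finrank F (LinearMap.ker φ ⊓ LinearMap.ker (mulF φ u) : Submodule F K) =
        finrank F K - 2 := by omega
    rw [h3] at h1
    rw [← h1]
    congr 1
    refine Finset.card_bij (fun d _ => d.2) ?_ ?_ ?_
    · rintro ⟨a, b⟩ hab
      rw [Finset.mem_filter, Finset.mem_product, Set.mem_toFinset, Set.mem_toFinset] at hab
      obtain ⟨⟨ha, hb⟩, he⟩ := hab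
      obtain ⟨x, rfl⟩ := QuotientGroup.mk_surjective b
      have he' : a = ((u * x : Kˣ) : Kˣ ⧸ sc F K) := by
        rw [QuotientGroup.mk_mul, ← he]
        simp
      rw [Set.mem_toFinset, mem_PS]
      rw [he'] at ha
      have hb' := (mem_PS _ _).1 hb
      have ha' := (mem_PS _ _).1 ha
      refine ⟨hb', ?_⟩
      simpa [mulF] using ha'
    · rintro ⟨a, b⟩ hab ⟨a', b'⟩ hab' h
      rw [Finset.mem_filter] at hab hab'
      have hb : b = b' := h
      subst hb
      have := hab.2.trans hab'.2.symm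
      have h5 : a = a' := mul_right_cancel this
      rw [h5]
    · intro b hb
      obtain ⟨x, rfl⟩ := QuotientGroup.mk_surjective b
      rw [Set.mem_toFinset, mem_PS] at hb
      refine ⟨(((u * x : Kˣ) : Kˣ ⧸ sc F K), ((x : Kˣ) : Kˣ ⧸ sc F K)), ?_, rfl⟩
      rw [Finset.mem_filter, Finset.mem_product, Set.mem_toFinset, Set.mem_toFinset, mem_PS, mem_PS]
      refine ⟨⟨?_, hb.1⟩, ?_⟩
      · have := hb.2
        simpa [mulF] using this
      · rw [QuotientGroup.mk_mul]
        simp

end

/-- Singer difference sets for primes -/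
theorem singer_prime {p m : ℕ} (hp : p.Prime) (hm : 3 ≤ m) : HasSinger p m := by
  have : Fact p.Prime := ⟨hp⟩
  have h1 : finrank (ZMod p) (GaloisField p m) = m := GaloisField.finrank p (by omega)
  have h2 := singer_exists (F := ZMod p) (K := GaloisField p m) (by rw [h1]; exact hm)
  rw [h1, Nat.card_zmod] at h2
  exact h2

end Pool.Agent.U343.Sm
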