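import Pool.Agent.U343.Sm.Inv
import Pool.Agent.U343.Sm.Plane
import Pool.Agent.U343.Sm.Unif
import Pool.Agent.R116.AF.BR

set_option autoImplicit false

/-!
# Projective, affine and inversive planes as Steiner systems
-/

namespace Pool.Agent.U343.Sm

open Finset Filter Topology Configuration
open Pool.Agent.H117R2.Steiner5 (IsSteiner derived toFin)
open Pool.Agent.R116.AF (Aff sym_of_inc card_filter_sub)
open Pool.Agent.H177R2.SD (IsSymmetricDesign brc_local)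

/-- There is a Steiner system `S(n, q, r)`. -/
def Steiner (n q r : ℕ) : Prop :=
  ∃ 𝓑 : Finset (Finset (Fin n)), (∀ B ∈ 𝓑, B.card = q) ∧
    ∀ T : Finset (Fin n), T.card = r → ∃! B, B ∈ 𝓑 ∧ T ⊆ B

section
variable {n q : ℕ} {B : Finset (Finset (Fin n))}

theorem line_of (h : IsSteiner n q 2 B) {x y : Fin n} (hxy : x ≠ y) :
    ∃ b ∈ B, x ∈ b ∧ y ∈ b := by
  obtain ⟨b, ⟨hb, hs⟩, -⟩ := h.2 {x, y} (card_pair hxy)
  rw [insert_subset_iff, singleton_subset_iff] at hs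
  exact ⟨b, hb, hs.1, hs.2⟩

theorem uniq_of (h : IsSteiner n q 2 B) {x y : Fin n} (hxy : x ≠ y) {b c : Finset (Fin n)}
    (hb : b ∈ B) (hc : c ∈ B) (h1 : x ∈ b) (h2 : y ∈ b) (h3 : x ∈ c) (h4 : y ∈ c) : b = c := by
  obtain ⟨e, -, hu⟩ := h.2 {x, y} (card_pair hxy)
  rw [hu b ⟨hb, by rw [insert_subset_iff, singleton_subset_iff]; exact ⟨h1, h2⟩⟩,
    hu c ⟨hc, by rw [insert_subset_iff, singleton_subset_iff]; exact ⟨h3, h4⟩⟩]

end

theorem aff_of {k : ℕ} (hk : 2 ≤ k) {B : Finset (Finset (Fin (k ^ 2)))}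
    (h : IsSteiner (k ^ 2) k 2 B) : Aff k B where
  two := hk
  card := Fintype.card_fin _
  size := h.1
  line := fun _ _ hxy => line_of h hxy
  uniq := fun _ _ hxy _ hb _ hc h1 h2 h3 h4 => uniq_of h hxy hb hc h1 h2 h3 h4

section
variable {k : ℕ} {B : Finset (Finset (Fin (k ^ 2 + k + 1)))}

theorem deg_of (h : IsSteiner (k ^ 2 + k + 1) (k + 1) 2 B) (hk : 1 ≤ k)
    (x : Fin (k ^ 2 + k + 1)) : (B.filter (fun b => x ∈ b)).card = k + 1 := by
  have h1 : (univ.erase x).card = ∑ b ∈ B.filter (fun b => x ∈ b), (b.erase x).card := by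
    rw [← card_biUnion]
    · congr 1
      ext y
      simp only [mem_erase, mem_univ, and_true, mem_biUnion, mem_filter]
      constructor
      · intro hy
        obtain ⟨b, hb, h1, h2⟩ := line_of h (Ne.symm hy)
        exact ⟨b, ⟨hb, h1⟩, hy, h2⟩
      · rintro ⟨b, _, hy, _⟩
        exact hy
    · intro b hb c hc hne
      rw [mem_coe, mem_filter] at hb hc
      rw [Function.onFun, disjoint_left]
      intro y hy hy'
      rw [mem_erase] at hy hy'
      exact hne (uniq_of h hy.1 hb.1 hc.1 hy.2 hb.2 hy'.2 hc.2)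
  rw [card_erase_of_mem (mem_univ x), card_univ, Fintype.card_fin] at h1
  have h2 : ∀ b ∈ B.filter (fun b => x ∈ b), (b.erase x).card = k := by
    intro b hb
    rw [mem_filter] at hb
    rw [card_erase_of_mem hb.2, h.1 b hb.1, Nat.add_sub_cancel]
  rw [sum_congr rfl h2, sum_const, smul_eq_mul, Nat.add_sub_cancel] at h1
  refine (Nat.eq_of_mul_eq_mul_right (by omega : 0 < k) ?_).symm
  rw [← h1]
  ring

theorem card_of (h : IsSteiner (k ^ 2 + k + 1) (k + 1) 2 B) (hk : 1 ≤ k) :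
    B.card = k ^ 2 + k + 1 := by
  have h1 : ∑ b ∈ B, b.card = ∑ x : Fin (k ^ 2 + k + 1), (B.filter (fun b => x ∈ b)).card := by
    have e : ∀ b ∈ B, b.card = ∑ x : Fin (k ^ 2 + k + 1), if x ∈ b then 1 else 0 := by
      intro b _
      rw [← card_filter]
      congr 1
      ext x
      simp
    rw [sum_congr rfl e, sum_comm]
    refine sum_congr rfl fun x _ => ?_
    rw [card_filter]
  rw [sum_congr rfl h.1, sum_const, sum_congr rfl fun x _ => deg_of h hk x, sum_const, card_univ,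
    Fintype.card_fin, smul_eq_mul, smul_eq_mul] at h1
  exact Nat.eq_of_mul_eq_mul_right (by omega) h1

theorem sym_of (h : IsSteiner (k ^ 2 + k + 1) (k + 1) 2 B) (hk : 2 ≤ k) :
    IsSymmetricDesign (k ^ 2 + k + 1) (k + 1) 1 := by
  refine sym_of_inc (P := Fin (k ^ 2 + k + 1)) (L := {b // b ∈ B}) (fun x b => x ∈ (b : Finset _))
    (r := k + 1) (by nlinarith) (Fintype.card_fin _) ?_ ?_ ?_ ?_
  · rw [Fintype.card_coe, card_of h (by omega)]
  · rintro ⟨b, hb⟩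
    rw [← h.1 b hb]
    congr 1
    ext x
    simp
  · intro x
    rw [← deg_of h (by omega) x]
    exact card_filter_sub B (fun b => x ∈ b)
  · intro x y hxy
    obtain ⟨b, hb, hx, hy⟩ := line_of h hxy
    rw [card_eq_one]
    refine ⟨⟨b, hb⟩, ?_⟩
    ext ⟨c, hc⟩
    rw [mem_filter, mem_singleton, Subtype.mk.injEq]
    constructor
    · rintro ⟨-, h3, h4⟩
      exact uniq_of h hxy hc hb h3 h4 hx hy
    · rintro rfl
      exact ⟨mem_univ _, hx, hy⟩

/-- the Bruck-Ryser condition -/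
theorem br_of (h : IsSteiner (k ^ 2 + k + 1) (k + 1) 2 B) (hn2 : 2 ≤ k)
    (h4 : k % 4 = 1) {p : ℕ} (hp : p.Prime) (h1 : p ∣ k) (h2 : ¬ p ^ 2 ∣ k) : p % 4 ≠ 3 := by
  by_cases hp2 : p = 2
  · rw [hp2]
    norm_num
  have hd := sym_of h hn2
  have h5 := brc_local hd (by omega) (by nlinarith) hp hp2 (by simpa using h1) (by simpa using h2)
    (by rw [Nat.dvd_one]; exact hp.ne_one)
  have : Fact p.Prime := ⟨hp⟩
  have h6 := h5.2
  have hodd : Odd ((k ^ 2 + k + 1 - 1) / 2) := by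
    have e1 : k ^ 2 + k + 1 - 1 = k * (k + 1) := by
      have : k ^ 2 + k + 1 = k * (k + 1) + 1 := by ring
      omega
    rw [e1]
    obtain ⟨c, hc⟩ : ∃ c, k = 4 * c + 1 := ⟨k / 4, by omega⟩
    rw [hc]
    have : (4 * c + 1) * (4 * c + 1 + 1) = 2 * (8 * c ^ 2 + 6 * c + 1) := by ring
    rw [this, Nat.mul_div_cancel_left _ (by norm_num)]
    exact ⟨4 * c ^ 2 + 3 * c, by ring⟩
  rw [hodd.neg_one_pow] at h6
  have h7 : IsSquare (-1 : ZMod p) := by
    push_cast at h6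
    simpa using h6
  rw [ZMod.exists_sq_eq_neg_one_iff] at h7
  exact h7

end

/-- from a projective plane to a Steiner system -/
theorem steiner_of_plane {N : ℕ} (h : IsPlaneOrder N) : Steiner (N ^ 2 + N + 1) (N + 1) 2 := by
  classical
  obtain ⟨P, L, hP, hL, hM, hPl, rfl⟩ := h
  have : Fintype P := Fintype.ofFinite P
  have : Fintype L := Fintype.ofFinite L
  refine toFin (Fintype.equivFinOfCardEq (ProjectivePlane.card_points P L))
    {b : Finset P | ∃ l : L, ∀ p, p ∈ b ↔ p ∈ l} ?_ ?_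
  · rintro b ⟨l, hl⟩
    rw [← ProjectivePlane.pointCount_eq (P := P) l, pointCount, Nat.card_eq_fintype_card,
      Fintype.card_subtype]
    congr 1
    ext p
    rw [mem_filter, hl]
    simp
  · intro T hT
    obtain ⟨x, y, hxy, rfl⟩ := card_eq_two.1 hT
    have hax := HasLines.mkLine_ax (L := L) hxy
    refine ⟨univ.filter (fun p => p ∈ (HasLines.mkLine hxy : L)),
      ⟨⟨(HasLines.mkLine hxy : L), fun p => ?_⟩, ?_⟩, ?_⟩
    · rw [mem_filter]
      exact ⟨fun h => h.2, fun h => ⟨mem_univ _, h⟩⟩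
    · rw [insert_subset_iff, singleton_subset_iff, mem_filter, mem_filter]
      exact ⟨⟨mem_univ _, hax.1⟩, mem_univ _, hax.2⟩
    · rintro b ⟨⟨l, hl⟩, hb⟩
      rw [insert_subset_iff, singleton_subset_iff, hl, hl] at hb
      have e : l = HasLines.mkLine hxy :=
        (Nondegenerate.eq_or_eq hb.1 hb.2 hax.1 hax.2).resolve_left hxy
      ext p
      rw [hl, e, mem_filter]
      exact ⟨fun h => ⟨mem_univ _, h⟩, fun h => h.2⟩

/-- The Steiner systems `S(N ^ 2 + N + 1, N + 1, 2)` (projective planes), `S(N ^ 2, N, 2)` (affine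
planes) and `S(N ^ 2 + 1, N + 1, 3)` (inversive planes) exist. -/
def Fam (i : Fin 3) (N : ℕ) : Prop :=
  match i with
  | 0 => Steiner (N ^ 2 + N + 1) (N + 1) 2
  | 1 => Steiner (N ^ 2) N 2
  | 2 => Steiner (N ^ 2 + 1) (N + 1) 3

theorem inv_prime {p : ℕ} (hp : p.Prime) : Steiner (p ^ 2 + 1) (p + 1) 3 := inversive hp

theorem aff_of_inv {N : ℕ} (h : Steiner (N ^ 2 + 1) (N + 1) 3) : Steiner (N ^ 2) N 2 := derived h

theorem fam_prime (i : Fin 3) {p : ℕ} (hp : p.Prime) : Fam i p := by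
  fin_cases i
  · exact steiner_of_plane (plane_prime hp)
  · exact aff_of_inv (inv_prime hp)
  · exact inv_prime hp

theorem fam_not (i : Fin 3) {N q : ℕ} (hq : q.Prime) (hq4 : q % 4 = 3) (hN : N % 4 = 1)
    (h1 : q ∣ N) (h2 : ¬ q ^ 2 ∣ N) : ¬ Fam i N := by
  have hN2 : 2 ≤ N := by
    have := Nat.le_of_dvd (by omega) h1
    have := hq.two_le
    omega
  fin_cases i
  · rintro ⟨B, hB⟩
    exact br_of hB hN2 hN hq h1 h2 hq4
  · rintro ⟨B, hB⟩
    exact (aff_of hN2 hB).br (Or.inl hN) hq h1 h2 hq4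
  · intro h
    obtain ⟨B, hB⟩ := aff_of_inv h
    exact (aff_of hN2 hB).br (Or.inl hN) hq h1 h2 hq4

open Classical in
theorem three_of_unif {n : ℕ} {f : Cube n → Bool} {x : ℝ} {q : ℕ} (hq : q.Prime)
    (hq4 : q % 4 = 3)
    (h : ∀ T : ℕ → Prop, (∀ p : ℕ, p.Prime → p % 4 = 1 → T p) →
      (∀ N : ℕ, N % 4 = 1 → q ∣ N → ¬ q ^ 2 ∣ N → ¬ T N) →
      x < ({N : ℕ | N < 2 ^ n ∧ N % 4 = 1 ∧ ¬ (f (bits n N) = true ↔ T N)}.ncard : ℝ)) :
    x < ({N : ℕ | N < 2 ^ n ∧ N % 4 = 1 ∧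
      ∀ i : Fin 3, ¬ (f (bits n N) = true ↔ Fam i N)}.ncard : ℝ) := by
  set c : ℕ → Fin 3 := fun N =>
    if h : ∃ i : Fin 3, (f (bits n N) = true ↔ Fam i N) then h.choose else 0 with hc
  have h1 := h (fun N => Fam (c N) N) (fun p hp _ => fam_prime _ hp)
    (fun N hN h1 h2 => fam_not _ hq hq4 hN h1 h2)
  refine lt_of_lt_of_le h1 ?_
  have hfin : {N : ℕ | N < 2 ^ n ∧ N % 4 = 1 ∧
      ∀ i : Fin 3, ¬ (f (bits n N) = true ↔ Fam i N)}.Finite :=
    (Set.finite_lt_nat (2 ^ n)).subset fun N hN => hN.1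
  have hsub : {N : ℕ | N < 2 ^ n ∧ N % 4 = 1 ∧ ¬ (f (bits n N) = true ↔ Fam (c N) N)} ⊆
      {N : ℕ | N < 2 ^ n ∧ N % 4 = 1 ∧ ∀ i : Fin 3, ¬ (f (bits n N) = true ↔ Fam i N)} := by
    rintro N ⟨h2, h3, h4⟩
    refine ⟨h2, h3, fun i hi => h4 ?_⟩
    have hex : ∃ i : Fin 3, (f (bits n N) = true ↔ Fam i N) := ⟨i, hi⟩
    have : c N = hex.choose := by
      rw [hc]
      exact dif_pos hex
    rw [this]
    exact hex.choose_spec
  exact_mod_cast Set.ncard_le_ncard hsub hfin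

theorem steiner_circuits {r : ℕ} (hr : r.Prime) (d : ℕ) :
    ∃ κ : ℝ, 0 < κ ∧ ∀ᶠ n : ℕ in atTop, ∀ (S : ℕ) (f : Cube n → Bool),
      Circuit r S n d f → (S : ℝ) ≤ 2 ^ ((n : ℝ) ^ (1 / (2 * (d : ℝ) + 5))) →
      κ * 2 ^ n / n <
        ({N : ℕ | N < 2 ^ n ∧ N % 4 = 1 ∧
          ∀ i : Fin 3, ¬ (f (bits n N) = true ↔ Fam i N)}.ncard : ℝ) := by
  by_cases h3 : r = 3
  · obtain ⟨κ, hκ, h⟩ := real_unif hr (by norm_num : Nat.Prime 7) (by norm_num) (by omega) d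
    exact ⟨κ, hκ, h.mono fun n hn S f hC hS =>
      three_of_unif (by norm_num : Nat.Prime 7) (by norm_num) (hn S f hC hS)⟩
  · obtain ⟨κ, hκ, h⟩ := real_unif hr (by norm_num : Nat.Prime 3) (by norm_num)
      (fun h => h3 h.symm) d
    exact ⟨κ, hκ, h.mono fun n hn S f hC hS =>
      three_of_unif (by norm_num : Nat.Prime 3) (by norm_num) (hn S f hC hS)⟩

/-- the divisibility condition (D) -/
def CondD (n q r : ℕ) : Prop :=
  ∀ i < r, (q - i).choose (r - i) ∣ (n - i).choose (r - i)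

theorem ch_two (n : ℕ) : (n + 1).choose 2 * 2 = (n + 1) * n := by
  have := Nat.add_one_mul_choose_eq n 1
  rw [Nat.choose_one_right] at this
  exact this.symm

theorem ch_three (n : ℕ) : (n + 1).choose 3 * 3 = (n + 1) * n.choose 2 :=
  (Nat.add_one_mul_choose_eq n 2).symm

theorem d_proj (N : ℕ) : CondD (N ^ 2 + N + 1) (N + 1) 2 := by
  intro i hi
  interval_cases i
  · refine ⟨N ^ 2 + N + 1, ?_⟩
    refine Nat.eq_of_mul_eq_mul_right (by norm_num : 0 < 2) ?_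
    have h1 := ch_two (N ^ 2 + N)
    have h2 := ch_two N
    simp only [Nat.sub_zero]
    rw [h1, mul_right_comm, h2]
    ring
  · simp only [Nat.add_sub_cancel, Nat.choose_one_right, Nat.reduceSub]
    exact ⟨N + 1, by ring⟩

theorem d_aff {N : ℕ} (hN : 1 ≤ N) : CondD (N ^ 2) N 2 := by
  obtain ⟨M, rfl⟩ : ∃ M, N = M + 1 := ⟨N - 1, by omega⟩
  have e : (M + 1) ^ 2 = (M ^ 2 + 2 * M) + 1 := by ring
  intro i hi
  interval_cases i
  · refine ⟨(M + 1) * (M + 2), ?_⟩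
    refine Nat.eq_of_mul_eq_mul_right (by norm_num : 0 < 2) ?_
    have h1 := ch_two (M ^ 2 + 2 * M)
    have h2 := ch_two M
    simp only [Nat.sub_zero]
    rw [e, h1, mul_right_comm, h2]
    ring
  · rw [e]
    simp only [Nat.add_sub_cancel, Nat.choose_one_right, Nat.reduceSub]
    exact ⟨M + 2, by ring⟩

theorem d_inv {N : ℕ} (hN : 1 ≤ N) : CondD (N ^ 2 + 1) (N + 1) 3 := by
  have h := d_aff hN
  intro i hi
  interval_cases i
  · obtain ⟨M, hM⟩ : ∃ M, N = M + 1 := ⟨N - 1, by omega⟩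
    have e : N ^ 2 = (M ^ 2 + 2 * M) + 1 := by rw [hM]; ring
    refine ⟨(N ^ 2 + 1) * N, ?_⟩
    refine Nat.eq_of_mul_eq_mul_right (by norm_num : 0 < 6) ?_
    have h1 := ch_three (N ^ 2)
    have h2 := ch_three N
    have h3 := ch_two (M ^ 2 + 2 * M)
    have h4 := ch_two M
    rw [← e] at h3
    rw [← hM] at h4
    simp only [Nat.sub_zero]
    have e1 : (N ^ 2 + 1).choose 3 * 6 = (N ^ 2 + 1) * ((N ^ 2).choose 2 * 2) := by
      rw [show (6 : ℕ) = 3 * 2 by norm_num, ← mul_assoc, h1]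
      ring
    have e2 : (N + 1).choose 3 * 6 = (N + 1) * (N.choose 2 * 2) := by
      rw [show (6 : ℕ) = 3 * 2 by norm_num, ← mul_assoc, h2]
      ring
    rw [e1, mul_right_comm, e2, h3, h4, hM]
    ring
  · have h1 := h 0 (by norm_num)
    simpa using h1
  · have h1 := h 1 (by norm_num)
    have e3 : N + 1 - 2 = N - 1 := by omega
    have e4 : N ^ 2 + 1 - 2 = N ^ 2 - 1 := by omega
    rw [e3, e4]
    exact h1

end Pool.Agent.U343.Sm
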